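import Pool.Agent.H431.LF.Fin

/-!
# The stages of curves are regular; the number of points of small defect
-/

set_option autoImplicit false

namespace Pool.Agent.H431.LF

open NumberField IsDedekindDomain Height Pool.Agent.Q290.NF IntermediateField Pool.Agent.H431.OC
open Pool.Agent.H431.MT Polynomial

theorem reg_Lf (k : Type) [Field k] : Reg (Lf k) where
  supp M _ _ _ x := supp_w3 x
  nonneg M _ _ _ x v := w3_nonneg x v
  ext M E _ _ _ _ _ _ _ _ x v w e he h := by
    show w3 (algebraMap M E x) w ≤ e * w3 x v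
    rw [w3_ext v w he h x]
    have h1 : (1 : ℝ) ≤ e := by exact_mod_cast Nat.one_le_iff_ne_zero.2 he
    nlinarith [w3_nonneg x v]
  pt M E _ _ _ _ _ _ _ _ b x h := ⟨(_root_.map_ne_zero _).2 h.1, fun h1 =>
    h.2 ((algebraMap M E).injective (by rw [h1, map_one]))⟩

theorem reg_Cf {k : Type} [Field k] {p : ℤ → ℝ} (h0 : ∀ n : ℤ, n ≤ 0 → p n = 0)
    (hn : ∀ n, 0 ≤ p n) (hm : ∀ (e : ℕ) (n : ℤ), e ≠ 0 → p (e * n) ≤ p n) (f : k[X]) :
    Reg (Cf p f) where
  supp M _ _ _ x := supp_p' h0 x
  nonneg M _ _ _ x v := hn _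
  ext M E _ _ _ _ _ _ _ _ x v w e he h := by
    show p (-ord w (algebraMap M E x)) ≤ e * p (-ord v x)
    rw [h, ← mul_neg]
    have h1 : (1 : ℝ) ≤ e := by exact_mod_cast Nat.one_le_iff_ne_zero.2 he
    have h2 := hm e (-ord v x) he
    have h3 := hn (-ord v x)
    nlinarith
  pt M E _ _ _ _ _ _ _ _ b x h := by
    obtain ⟨y, hy⟩ := h
    exact ⟨algebraMap M E y, by rw [← map_pow, hy, aeval_algebraMap_apply]⟩

/-- **hyperelliptic curves with the points at infinity** -/
theorem exists_inf' {k : Type} [Field k] [NumberField k] {f : k[X]} (hf : Squarefree f)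
    (h3 : 3 ≤ f.natDegree) {ε : ℝ} (hε : ε ≤ 1 / 2) :
    ∃ (F : Type) (_ : Field F) (_ : NumberField F) (_ : Algebra k F),
      Go F (T0 F) (1 - 4 * ε) (Cf po (f.map (algebraMap k F)))
        (((f.natDegree : ℝ) - 2) / 2 - ε) := by
  have hsep : f.Separable := PerfectField.separable_iff_squarefree.2 hf
  have nF : NumberField f.SplittingField := NumberField.of_module_finite k f.SplittingField
  refine ⟨f.SplittingField, inferInstance, nF, inferInstance, ?_⟩
  have h := chain_inf (k := f.SplittingField)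
    (f := f.map (algebraMap k f.SplittingField)) hsep.map (SplittingField.splits f)
    (by rwa [natDegree_map]) hε
  rw [natDegree_map] at h
  exact h

end Pool.Agent.H431.LF
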