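import Pool.Agent.H431.LF.Four

/-!
# From the points of the towers to the line with three points
-/

set_option autoImplicit false

namespace Pool.Agent.H431.LF

open NumberField IsDedekindDomain Height Pool.Agent.Q290.NF IntermediateField Pool.Agent.H431.OC

section

variable {k : Type} [Field k]

/-- the points of the towers: `t` and `1 - t` are squares, and units outside `2 b` -/
noncomputable def T0 (k : Type) [Field k] : St k where
  pt M _ _ _ b t := t ≠ 0 ∧ t ≠ 1 ∧ (∃ κ κ' : M, κ ^ 2 = t ∧ κ' ^ 2 = 1 - t) ∧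
    ∀ v : HeightOneSpectrum (𝓞 M), ord v (2 : M) = 0 → ord v b = 0 →
      ord v t = 0 ∧ ord v (t - 1) = 0
  wt _ _ _ _ _ _ := 0

/-- the line with the points `0`, `1`, `∞` and the weights `p` -/
noncomputable def Ln (k : Type) [Field k] (p : ℤ → ℝ) : St k where
  pt _ _ _ _ _ _ := True
  wt _ _ _ _ t v := p (ord v t) + p (ord v (t - 1)) + p (-ord v t)

/-- the prime below -/
theorem below {M E : Type} [Field M] [NumberField M] [Field E] [NumberField E] [Algebra M E]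
    (w : HeightOneSpectrum (𝓞 E)) : ∃ (v : HeightOneSpectrum (𝓞 M)) (e : ℕ), e ≠ 0 ∧
      ∀ z : M, ord w (algebraMap M E z) = e * ord v z := by
  have hl : w.asIdeal.LiesOver (w.under (𝓞 M)).asIdeal := ⟨rfl⟩
  exact ⟨w.under (𝓞 M), _, ram_ne _ w hl, fun z => ord_above _ w hl z⟩

theorem supp_Ln {p : ℤ → ℝ} (hp : ∀ n : ℤ, n ≤ 0 → p n = 0) {M : Type} [Field M] [NumberField M]
    [Algebra k M] (t : M) : (Function.support ((Ln k p).wt M t)).Finite :=
  supp_add (supp_add (supp_p hp t) (supp_p hp (t - 1))) (supp_p' hp t)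

/-- the points of the towers as points of the line -/
theorem go_line {p : ℤ → ℝ} {lam : ℝ} (hp : Pw p lam) (κ : ℝ) : Go k (T0 k) κ (Ln k p) κ := by
  have hl : 0 ≤ Real.log 2 := Real.log_nonneg (by norm_num)
  refine Go.same (c := 3 * Real.log 2) (by positivity) (fun n => n) ?_
  intro Ω _ _ _ n T hT
  refine ⟨T, hT, fun M _ _ _ φ b t hb hpt ht => ⟨t, trivial, ht, ?_⟩⟩
  have h1 := bw_bad (M := M) two_ne_zero (B := 3) (by norm_num) hb (g := (Ln k p).wt M t)
    (h := (T0 k).wt M t) (u := fun _ => 0) (supp_Ln hp.zero t)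
    (by unfold T0; simp) supp_zero (fun v hv hvb => ?_) (fun v => ?_) (fun v => le_rfl)
    (fun v => le_rfl)
  · rw [sm_zero] at h1
    unfold df
    push_cast at h1
    linarith
  · have hv2 : ord v (2 : M) = 0 := by exact_mod_cast hv
    obtain ⟨h2, h3⟩ := hpt.2.2.2 v hv2 hvb
    show p (ord v t) + p (ord v (t - 1)) + p (-ord v t) ≤ 0 + 0
    rw [h2, h3, hp.zero 0 le_rfl, hp.zero (-0) (by simp)]
    norm_num
  · have r1 := hp.le_one (ord v t)
    have r2 := hp.le_one (ord v (t - 1))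
    have r3 := hp.le_one (-ord v t)
    show p (ord v t) + p (ord v (t - 1)) + p (-ord v t) ≤ 3
    linarith

open Polynomial in
theorem excl_four {Ω : Type} [Field Ω] [CharZero Ω] {T : Finset Ω} {n : ℕ} (hT : T.card ≤ n) :
    ∃ T' : Finset Ω, T'.card ≤ n * 8 * 2 + 1 ∧ 1 / 2 ∈ T' ∧ ∀ r s y x t : Ω, r ^ 2 = s →
      1 + s ≠ 0 → s ^ 2 = 4 * t * (1 - t) → y = 4 * r * (1 - s) / (1 + s) ^ 2 → y ≠ 0 →
      x = (1 + y) ^ 2 / (4 * y) → x ∈ T → t ∈ T' := by
  classical
  obtain ⟨T1, hT1, H1⟩ := excl (T := T) 8 hT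
    (fun τ => ((1 + X) ^ 4 + C 16 * X * (1 - X) ^ 2) ^ 2 -
      C ((4 * τ - 2) ^ 2 * 16) * (X * (1 - X) ^ 2 * (1 + X) ^ 4)) (fun τ h => by
        have h1 := congrArg (eval (-1)) h
        simp only [eval_sub, eval_pow, eval_add, eval_one, eval_X, eval_mul, eval_C, eval_zero] at h1
        have h2 : (4096 : Ω) = 0 := by
          linear_combination h1
        exact absurd h2 (by norm_num)) (fun τ => by compute_degree)
  obtain ⟨T2, hT2, H2⟩ := excl (T := T1) 2 hT1
    (fun s => C 4 * X * (1 - X) - C (s ^ 2)) (fun s h => by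
        have h1 := congrArg (eval 0) h
        have h2 := congrArg (eval 2) h
        simp only [eval_sub, eval_one, eval_X, eval_mul, eval_C, eval_zero] at h1 h2
        have h3 : (8 : Ω) = 0 := by
          linear_combination h1 - h2
        exact absurd h3 (by norm_num)) (fun τ => by compute_degree)
  refine ⟨T2 ∪ {1 / 2}, card_add hT2 (Finset.card_singleton _).le, by simp, ?_⟩
  intro r s y x t hr h1 hst hy hy0 hx hxT
  rw [Finset.mem_union]
  left
  refine H2 s (H1 x hxT s ?_) t ?_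
  · simp only [eval_sub, eval_pow, eval_add, eval_one, eval_X, eval_mul, eval_C]
    have e1 : y * (1 + s) ^ 2 = 4 * r * (1 - s) := by
      rw [hy]
      field_simp
    have e2 : y ^ 2 * (1 + s) ^ 4 = 16 * s * (1 - s) ^ 2 := by
      linear_combination (y * (1 + s) ^ 2 + 4 * r * (1 - s)) * e1 + 16 * (1 - s) ^ 2 * hr
    have e3 : (4 * x - 2) * y = 1 + y ^ 2 := by
      rw [hx]
      field_simp
      ring
    have e4 : (4 * x - 2) ^ 2 * (y ^ 2 * (1 + s) ^ 4) * (1 + s) ^ 4 =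
        ((1 + s) ^ 4 + y ^ 2 * (1 + s) ^ 4) ^ 2 := by
      linear_combination ((4 * x - 2) * y + 1 + y ^ 2) * (1 + s) ^ 8 * e3
    rw [e2] at e4
    linear_combination -e4
  · simp only [eval_sub, eval_one, eval_X, eval_mul, eval_C]
    linear_combination -hst

end

variable {k : Type} [Field k] [NumberField k]

/-- **the points of the towers as points of the line with the indices `4`, `4`, `4`** -/
theorem go_four {ε : ℝ} (hε : ε ≤ 3 / 16) :
    Go k (T0 k) (3 / 4 - 4 * ε) (Ln k (om 4)) (1 / 4 - ε) := by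
  classical
  obtain ⟨C, hC, H⟩ := ht_four
  have hl : 0 ≤ Real.log 2 := Real.log_nonneg (by norm_num)
  refine ⟨2, 2 * |1 / 4 - ε| * C + 2 * |3 / 4 - 4 * ε| * C + 20 * Real.log 2,
    fun n => n * 8 * 2 + 1, by positivity, ?_⟩
  intro Ω _ _ _ n T hT
  have cΩ : CharZero Ω := charZero_of_injective_algebraMap (algebraMap k Ω).injective
  obtain ⟨T', hT', hhalf, HT'⟩ := excl_four hT
  refine ⟨T', hT', ?_⟩
  intro M _ _ _ φ b t hb hpt ht
  obtain ⟨ht0, ht1, ⟨κ, κ', hκ, hκ'⟩, hunit⟩ := hpt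
  obtain ⟨s0, hs0d⟩ : ∃ s0 : M, s0 = 2 * κ * κ' := ⟨_, rfl⟩
  have hs2 : s0 ^ 2 = 4 * t * (1 - t) := by
    rw [hs0d, ← hκ', ← hκ]
    ring
  have ht1' : 1 - t ≠ 0 := fun h => ht1 (by linear_combination -h)
  have f0M : (4 : M) ≠ 0 := by norm_num
  have hs0 : s0 ≠ 0 := by
    intro h
    rw [h] at hs2
    have := mul_ne_zero (mul_ne_zero f0M ht0) ht1'
    exact this (by rw [← hs2]; ring)
  have hos0 : ∀ v : HeightOneSpectrum (𝓞 M), ord v (2 : M) = 0 → ord v b = 0 →
      ord v s0 = 0 := by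
    intro v h2 hvb
    obtain ⟨h3, h4⟩ := hunit v h2 hvb
    have h5 := ord_pow v s0 2
    have e : (4 : M) = 2 ^ 2 := by norm_num
    rw [hs2, ord_mul v (mul_ne_zero f0M ht0) ht1', ord_mul v f0M ht0, ord_sub_comm, h3, h4, e,
      ord_pow, h2] at h5
    push_cast at h5
    omega
  obtain ⟨E, i1, i2, i3, r, hr, hdeg, hadj⟩ := exists_quad M s0
  let _ : Algebra k E := ((algebraMap M E).comp (algebraMap k M)).toAlgebra
  have hst : IsScalarTower k M E := IsScalarTower.of_algebraMap_eq fun _ => rfl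
  obtain ⟨ψ, hψ⟩ := ext_hom (k := k) (M := M) (E := E) Ω φ
  obtain ⟨s, hs⟩ : ∃ s : E, s = algebraMap M E s0 := ⟨_, rfl⟩
  obtain ⟨t', ht'⟩ : ∃ t' : E, t' = algebraMap M E t := ⟨_, rfl⟩
  have hr' := hr
  rw [← hs] at hr
  have hsE : s ≠ 0 := by
    rw [hs]
    exact (map_ne_zero _).2 hs0
  have hsE2 : s ^ 2 = 4 * t' * (1 - t') := by
    rw [hs, ht', ← map_pow, hs2, map_mul, map_mul, map_sub, map_one, map_ofNat]
  obtain ⟨u, hu⟩ : ∃ u : E, u = 1 - 2 * t' := ⟨_, rfl⟩
  have hu2 : (1 - s) * (1 + s) = u ^ 2 := by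
    rw [hu]
    linear_combination -hsE2
  have hu0 : u ≠ 0 := by
    intro h
    apply ht
    have h1 : t = 1 / 2 := by
      apply (algebraMap M E).injective
      rw [← ht', map_div₀, map_one, map_ofNat]
      rw [hu] at h
      linear_combination (-1 / 2) * h
    rw [h1, map_div₀, map_one, map_ofNat]
    exact hhalf
  have h1 : 1 - s ≠ 0 := by
    intro h
    rw [h, zero_mul] at hu2
    exact pow_ne_zero 2 hu0 hu2.symm
  have h1' : 1 + s ≠ 0 := by
    intro h
    rw [h, mul_zero] at hu2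
    exact pow_ne_zero 2 hu0 hu2.symm
  obtain ⟨y, hy⟩ : ∃ y, y = 4 * r * (1 - s) / (1 + s) ^ 2 := ⟨_, rfl⟩
  obtain ⟨x, hx⟩ : ∃ x, x = (1 + y) ^ 2 / (4 * y) := ⟨_, rfl⟩
  have f0 : (4 : E) ≠ 0 := by norm_num
  have hr0 : r ≠ 0 := by
    rintro rfl
    apply hsE
    rw [← hr]
    ring
  have hy0 : y ≠ 0 := by
    rw [hy]
    exact div_ne_zero (mul_ne_zero (mul_ne_zero f0 hr0) h1) (pow_ne_zero 2 h1')
  have hψx : ψ x ∉ T := by
    intro hxT
    apply ht
    rw [← hψ, ← ht']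
    refine HT' (ψ r) (ψ s) (ψ y) (ψ x) (ψ t') ?_ ?_ ?_ ?_ ?_ ?_ hxT
    · rw [← map_pow, hr]
    · rw [← map_one ψ, ← map_add]
      exact (map_ne_zero _).2 h1'
    · rw [← map_pow, hsE2, map_mul, map_mul, map_sub, map_one, map_ofNat]
    · rw [hy, map_div₀, map_mul, map_mul, map_sub, map_pow, map_add, map_one, map_ofNat]
    · exact (map_ne_zero _).2 hy0
    · rw [hx, map_div₀, map_pow, map_add, map_mul, map_one, map_ofNat]
  have hbE : algebraMap M E b ≠ 0 := (map_ne_zero _).2 hb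
  have q1 := bw_quad r s0 hs0 hr' hadj (N := 1) one_ne_zero (B := 1) le_rfl hb
    (f := (T0 k).wt E t') (g := (T0 k).wt M t) supp_zero supp_zero (fun _ => le_rfl)
    (fun _ => zero_le_one) (fun _ => le_rfl) (by
      intro v w e he hv2 _ hvb _
      refine ⟨fun _ => ?_, fun ho _ => ?_⟩
      · show (0 : ℝ) ≤ e * 0
        rw [mul_zero]
      · rw [hos0 v hv2 hvb] at ho
        exact absurd ho (by decide))
  have q2 := bw_bad (M := E) two_ne_zero (B := 3) (by norm_num) hbE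
    (g := (Ln k (om 4)).wt E x) (h := (T0 k).wt E t')
    (u := fun w => 1 / 4 * max 0 (ord w (1 - s) : ℝ)) (supp_Ln (fun n h => om_nonpos 4 h) x)
    supp_zero (supp_smul _ (supp_zeros _)) (fun w hw hwb => by
      have hw2 : ord w (2 : E) = 0 := by exact_mod_cast hw
      obtain ⟨v, e, he, hvw⟩ := below (M := M) w
      have he' : (e : ℤ) ≠ 0 := by exact_mod_cast he
      have hv2 : ord v (2 : M) = 0 := by
        have := hvw 2
        rw [map_ofNat, hw2] at this
        exact (mul_eq_zero.1 this.symm).resolve_left he'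
      have hvb : ord v b = 0 := by
        have := hvw b
        rw [hwb] at this
        exact (mul_eq_zero.1 this.symm).resolve_left he'
      have hos : ord w s = 0 := by
        rw [hs, hvw, hos0 v hv2 hvb, mul_zero]
      have h5 := loc_four w hw2 hsE hos hr h1 h1' hu2 hy hx
      show om 4 (ord w x) + om 4 (ord w (x - 1)) + om 4 (-ord w x) ≤
        0 + 1 / 4 * max 0 (ord w (1 - s) : ℝ)
      unfold wgt at h5
      linarith) (fun w => by
      have r1 := om_le_one 4 (ord w x)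
      have r2 := om_le_one 4 (ord w (x - 1))
      have r3 := om_le_one 4 (-ord w x)
      show om 4 (ord w x) + om 4 (ord w (x - 1)) + om 4 (-ord w x) ≤ 3
      linarith) (fun _ => le_rfl) (fun w => by
      have := le_max_left (0 : ℝ) (ord w (1 - s) : ℝ)
      show 0 ≤ 1 / 4 * max 0 (ord w (1 - s) : ℝ)
      linarith)
  rw [sm_smul] at q2
  have q3 := zeros_le (1 - s)
  have q4 := ht_sub (1 : E) s
  rw [logHeight₁_one] at q4
  obtain ⟨q5, q6⟩ := H E r s y x t' hsE hr h1 h1' hsE2 hy hx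
  rw [ht', ht_ext] at q6
  obtain ⟨m, hm⟩ : ∃ m : ℝ, m = (Module.finrank M E : ℝ) := ⟨_, rfl⟩
  have hdE : (Module.finrank ℚ E : ℝ) = Module.finrank ℚ M * m := by
    rw [hm]
    exact_mod_cast (Module.finrank_mul_finrank ℚ M E).symm
  obtain ⟨a, ha⟩ : ∃ a : ℝ, a = 1 / 4 - ε := ⟨_, rfl⟩
  have ha0 : 0 ≤ a := by linarith
  have ha1 : 3 / 4 - 4 * ε = 4 * a - 1 / 4 := by
    rw [ha]
    ring
  have ha2 : 0 ≤ 4 * a - 1 / 4 := by linarith
  refine ⟨E, i1, i2, i3, inferInstance, hst, ψ, x, hψ, hdeg, trivial, hψx, ?_⟩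
  have q7 := mul_le_mul_of_nonneg_left q5 ha0
  have q8 := mul_le_mul_of_nonneg_left q6 ha2
  unfold df
  rw [← ha, ha1, abs_of_nonneg ha0, abs_of_nonneg ha2, ← hm]
  rw [← hm, Nat.cast_one, Real.log_one] at q1
  rw [← hm] at q8
  rw [Nat.cast_ofNat] at q2
  have hdE0 : (0 : ℝ) ≤ Module.finrank ℚ E := Nat.cast_nonneg _
  have hdC : 0 ≤ (Module.finrank ℚ E : ℝ) * C := mul_nonneg hdE0 hC
  have hdl : 0 ≤ (Module.finrank ℚ E : ℝ) * Real.log 2 := mul_nonneg hdE0 hl
  have q9 : m * (Module.finrank ℚ M * (1 * 0 + (1 + 2) * Real.log 2)) =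
      3 * (Module.finrank ℚ E * Real.log 2) := by
    rw [hdE]
    ring
  have q10 : (Module.finrank ℚ E : ℝ) * (2 * a * C + 2 * (4 * a - 1 / 4) * C +
      20 * Real.log 2) = 2 * (a * (Module.finrank ℚ E * C)) +
      2 * ((4 * a - 1 / 4) * (Module.finrank ℚ E * C)) +
      20 * (Module.finrank ℚ E * Real.log 2) := by ring
  have r1 : 0 ≤ a * (Module.finrank ℚ E * C) := mul_nonneg ha0 hdC
  have r2 : 0 ≤ (4 * a - 1 / 4) * (Module.finrank ℚ E * C) := mul_nonneg ha2 hdC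
  rw [q10]
  rw [mul_add, q9] at q1
  have q11 : (T0 k).wt E t' = fun _ => 0 := rfl
  have q12 : (T0 k).wt M t = fun _ => 0 := rfl
  rw [q11] at q1 q2
  rw [q12] at q1 ⊢
  obtain ⟨A, hA⟩ : ∃ A : ℝ, A = sm (bw (algebraMap M E b) fun _ => 0) := ⟨_, rfl⟩
  obtain ⟨B, hB⟩ : ∃ B : ℝ, B = sm (bw b fun _ => 0) := ⟨_, rfl⟩
  rw [← hA] at q1 q2
  rw [← hB] at q1 ⊢
  nlinarith

end Pool.Agent.H431.LF
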