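import Pool.Agent.H431.OC.Red
import Pool.Agent.H431.MT.Final

/-!
# Stages: points, weights and their comparison along finite correspondences
-/

set_option autoImplicit false

namespace Pool.Agent.H431.LF

open NumberField IsDedekindDomain Height Pool.Agent.Q290.NF IntermediateField Pool.Agent.H431.OC

section weights

variable {M : Type} [Field M] [NumberField M]

/-- the weights `g`, replaced by `1` at the primes at which `b` is not a unit -/
noncomputable def bw (b : M) (g : HeightOneSpectrum (𝓞 M) → ℝ) (v : HeightOneSpectrum (𝓞 M)) : ℝ :=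
  if ord v b = 0 then g v else 1

theorem bw_eq {b : M} {g : HeightOneSpectrum (𝓞 M) → ℝ} {v : HeightOneSpectrum (𝓞 M)}
    (h : ord v b = 0) : bw b g v = g v := if_pos h

theorem bw_one {b : M} {g : HeightOneSpectrum (𝓞 M) → ℝ} {v : HeightOneSpectrum (𝓞 M)}
    (h : ord v b ≠ 0) : bw b g v = 1 := if_neg h

theorem supp_bw {b : M} (hb : b ≠ 0) {g : HeightOneSpectrum (𝓞 M) → ℝ}
    (hg : (Function.support g).Finite) : (Function.support (bw b g)).Finite := by
  refine (hg.union (fin_ord hb)).subset fun v hv => ?_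
  by_cases h : ord v b = 0
  · left
    rw [Function.mem_support, bw_eq h] at hv
    exact hv
  · exact Or.inr h

theorem bw_nonneg {b : M} {g : HeightOneSpectrum (𝓞 M) → ℝ} (h : ∀ v, 0 ≤ g v)
    (v : HeightOneSpectrum (𝓞 M)) : 0 ≤ bw b g v := by
  unfold bw
  split_ifs
  · exact h v
  · exact zero_le_one

theorem bw_le {b : M} {g : HeightOneSpectrum (𝓞 M) → ℝ} {B : ℝ} (hB : 1 ≤ B) (h : ∀ v, g v ≤ B)
    (v : HeightOneSpectrum (𝓞 M)) : bw b g v ≤ B := by
  unfold bw
  split_ifs
  · exact h v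
  · exact hB

/-- comparison of weights in one field -/
theorem bw_bad {N : ℕ} (hN : N ≠ 0) {B : ℝ} (hB : 1 ≤ B) {b : M} (hb : b ≠ 0)
    {g h u : HeightOneSpectrum (𝓞 M) → ℝ} (hg : (Function.support g).Finite)
    (hh : (Function.support h).Finite) (hu : (Function.support u).Finite)
    (H : ∀ v, ord v (N : M) = 0 → ord v b = 0 → g v ≤ h v + u v)
    (hgB : ∀ v, g v ≤ B) (hh0 : ∀ v, 0 ≤ h v) (hu0 : ∀ v, 0 ≤ u v) :
    sm (bw b g) ≤ sm (bw b h) + sm u + Module.finrank ℚ M * (B * Real.log N) := by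
  have h1 := sm_le_bad (M := M) hN (B := B) (by linarith) (g := bw b g)
    (h := fun v => bw b h v + u v) (supp_bw hb hg) (supp_add (supp_bw hb hh) hu) (fun v hv => ?_)
    (bw_le hB hgB) (fun v => add_nonneg (bw_nonneg hh0 v) (hu0 v))
  · rwa [sm_add (supp_bw hb hh) hu] at h1
  · by_cases hvb : ord v b = 0
    · rw [bw_eq hvb, bw_eq hvb]
      exact H v hv hvb
    · rw [bw_one hvb, bw_one hvb]
      have := hu0 v
      linarith

/-- comparison of weights in one field, without exceptions -/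
theorem bw_mono {b : M} (hb : b ≠ 0) {g h u : HeightOneSpectrum (𝓞 M) → ℝ}
    (hg : (Function.support g).Finite)
    (hh : (Function.support h).Finite) (hu : (Function.support u).Finite)
    (H : ∀ v, ord v b = 0 → g v ≤ h v + u v) (hu0 : ∀ v, 0 ≤ u v) :
    sm (bw b g) ≤ sm (bw b h) + sm u := by
  have h1 := sm_mono (supp_bw hb hg) (supp_add (supp_bw hb hh) hu) (fun v => ?_)
  · rwa [sm_add (supp_bw hb hh) hu] at h1
  · by_cases hvb : ord v b = 0
    · rw [bw_eq hvb, bw_eq hvb]
      exact H v hvb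
    · rw [bw_one hvb, bw_one hvb]
      have := hu0 v
      linarith

theorem sm_zero : sm (fun _ : HeightOneSpectrum (𝓞 M) => (0 : ℝ)) = 0 := by
  unfold sm
  simp

theorem supp_zero : (Function.support fun _ : HeightOneSpectrum (𝓞 M) => (0 : ℝ)).Finite := by
  simp

/-- comparison of weights in a quadratic extension -/
theorem bw_quad {E : Type} [Field E] [NumberField E] [Algebra M E] (x : E) (a : M) (ha : a ≠ 0)
    (hx : x ^ 2 = algebraMap M E a) (hadj : M⟮x⟯ = ⊤) {N : ℕ} (hN : N ≠ 0)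
    {B : ℝ} (hB : 1 ≤ B) {b : M} (hb : b ≠ 0) (f : HeightOneSpectrum (𝓞 E) → ℝ)
    (g : HeightOneSpectrum (𝓞 M) → ℝ)
    (hf : (Function.support f).Finite) (hg : (Function.support g).Finite)
    (hf0 : ∀ w, 0 ≤ f w) (hfB : ∀ w, f w ≤ B) (hg0 : ∀ v, 0 ≤ g v)
    (H : ∀ (v : HeightOneSpectrum (𝓞 M)) (w : HeightOneSpectrum (𝓞 E)) (e : ℕ), e ≠ 0 →
      ord v (2 : M) = 0 → ord v (N : M) = 0 → ord v b = 0 →
      (∀ z : M, ord w (algebraMap M E z) = e * ord v z) →
      (Even (ord v a) → f w ≤ e * g v) ∧ (Odd (ord v a) → e = 2 → 1 + f w ≤ 2 * g v)) :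
    DD E + sm (bw (algebraMap M E b) f) ≤ Module.finrank M E * (DD M + sm (bw b g) +
      Module.finrank ℚ M * (B * Real.log N + (B + 2) * Real.log 2)) := by
  have hbE : algebraMap M E b ≠ 0 := (map_ne_zero _).2 hb
  have hNs := supp_smul B (supp_zeros (K := M) (N : M))
  have h1 := quad_ineq (k := M) (F := E) x a ha hx hadj (B := B) (by linarith)
    (bw (algebraMap M E b) f) (fun v => bw b g v + B * max 0 (ord v (N : M) : ℝ))
    (supp_bw hbE hf) (supp_add (supp_bw hb hg) hNs) (bw_nonneg hf0) (bw_le hB hfB)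
    (fun v => add_nonneg (bw_nonneg hg0 v) (mul_nonneg (by linarith) (le_max_left _ _))) (by
      intro v w e he hv2 hvw
      have he1 : (1 : ℝ) ≤ e := by exact_mod_cast Nat.one_le_iff_ne_zero.2 he
      have hfw := bw_le hB hfB (b := algebraMap M E b) w
      have hgv := bw_nonneg hg0 (b := b) v
      by_cases hvN : ord v (N : M) = 0
      · have e0 : B * max 0 (ord v (N : M) : ℝ) = 0 := by
          rw [hvN]
          simp
        rw [e0, add_zero]
        by_cases hvb : ord v b = 0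
        · have hwb : ord w (algebraMap M E b) = 0 := by
            rw [hvw, hvb, mul_zero]
          rw [bw_eq hvb, bw_eq hwb]
          exact H v w e he hv2 hvN hvb hvw
        · have hwb : ord w (algebraMap M E b) ≠ 0 := by
            rw [hvw]
            exact mul_ne_zero (by exact_mod_cast he) hvb
          rw [bw_one hvb, bw_one hwb]
          refine ⟨fun _ => by linarith, fun _ _ => by norm_num⟩
      · have h5 : (1 : ℝ) ≤ ord v (N : M) := by
          have h6 := nat_nonneg v N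
          have h7 : 1 ≤ ord v (N : M) := by omega
          exact_mod_cast h7
        have h6 : (1 : ℝ) ≤ max 0 (ord v (N : M) : ℝ) := le_max_of_le_right h5
        have h7 : B ≤ B * max 0 (ord v (N : M) : ℝ) := by nlinarith
        have h8 : B ≤ bw b g v + B * max 0 (ord v (N : M) : ℝ) := by linarith
        refine ⟨fun _ => ?_, fun _ _ => ?_⟩
        · nlinarith
        · linarith)
  rw [sm_add (supp_bw hb hg) hNs, sm_smul] at h1
  have h2 := (zeros_le (K := M) (N : M)).trans (height_nat hN)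
  have h3 := mul_le_mul_of_nonneg_left h2 (by linarith : (0 : ℝ) ≤ B)
  have hn : (0 : ℝ) ≤ Module.finrank M E := Nat.cast_nonneg _
  have e4 : DD E = Real.log |(discr E : ℝ)| := rfl
  have e5 : DD M = Real.log |(discr M : ℝ)| := rfl
  rw [e4, e5]
  refine h1.trans (mul_le_mul_of_nonneg_left ?_ hn)
  have e6 : (Module.finrank ℚ M : ℝ) * (B * Real.log N + (B + 2) * Real.log 2) =
    B * (Module.finrank ℚ M * Real.log N) + Module.finrank ℚ M * ((B + 2) * Real.log 2) := by ring
  rw [e6]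
  linarith

end weights

/-- A stage: points over the number fields that contain `k`, and weights at the primes. -/
structure St (k : Type) [Field k] where
  /-- the points -/
  pt : ∀ (M : Type) [Field M] [NumberField M] [Algebra k M], M → M → Prop
  /-- the weights -/
  wt : ∀ (M : Type) [Field M] [NumberField M] [Algebra k M], M → HeightOneSpectrum (𝓞 M) → ℝ

/-- the defect of a point -/
noncomputable def df {k : Type} [Field k] (S : St k) (κ : ℝ) (M : Type) [Field M] [NumberField M]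
    [Algebra k M] (b x : M) : ℝ :=
  κ * logHeight₁ x - DD M - sm (bw b (S.wt M x))

/-- The points of `S'` can be lifted to points of `S` over extensions of bounded degree, with
control of the defect, and avoiding finite sets. -/
def Go (k : Type) [Field k] (S' : St k) (κ' : ℝ) (S : St k) (κ : ℝ) : Prop :=
  ∃ (m : ℕ) (c : ℝ) (f : ℕ → ℕ), 0 ≤ c ∧ ∀ (Ω : Type) [Field Ω] [IsAlgClosed Ω] [Algebra k Ω]
    (n : ℕ) (T : Finset Ω), T.card ≤ n → ∃ T' : Finset Ω, T'.card ≤ f n ∧
    ∀ (M : Type) [Field M] [NumberField M] [Algebra k M] (φ : M →ₐ[k] Ω) (b x' : M), b ≠ 0 →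
      S'.pt M b x' → φ x' ∉ T' →
    ∃ (E : Type) (_ : Field E) (_ : NumberField E) (_ : Algebra M E) (_ : Algebra k E)
      (_ : IsScalarTower k M E) (ψ : E →ₐ[k] Ω) (x : E),
      (∀ z : M, ψ (algebraMap M E z) = φ z) ∧ Module.finrank M E ≤ m ∧
      S.pt E (algebraMap M E b) x ∧ ψ x ∉ T ∧
      (Module.finrank M E : ℝ) * df S' κ' M b x' ≤
        df S κ E (algebraMap M E b) x + Module.finrank ℚ E * c

/-- composition -/
theorem Go.trans {k : Type} [Field k] {S₁ S₂ S₃ : St k} {κ₁ κ₂ κ₃ : ℝ}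
    (h : Go k S₁ κ₁ S₂ κ₂) (h' : Go k S₂ κ₂ S₃ κ₃) : Go k S₁ κ₁ S₃ κ₃ := by
  obtain ⟨m, c, f, hc, H⟩ := h
  obtain ⟨m', c', f', hc', H'⟩ := h'
  refine ⟨m * m', c + c', fun n => f (f' n), add_nonneg hc hc', ?_⟩
  intro Ω _ _ _ n T hT
  obtain ⟨T', hT', H'⟩ := H' Ω n T hT
  obtain ⟨T'', hT'', H⟩ := H Ω (f' n) T' hT'
  refine ⟨T'', hT'', ?_⟩
  intro M _ _ _ φ b x'' hb hpt hx''
  obtain ⟨E, i1, i2, i3, i4, i5, ψ, x', hψ, hdeg, hpt', hx', hdf⟩ := H M φ b x'' hb hpt hx''
  have hbE : algebraMap M E b ≠ 0 := (map_ne_zero _).2 hb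
  obtain ⟨F, j1, j2, j3, j4, j5, χ, x, hχ, hdeg', hptx, hx, hdf'⟩ :=
    H' E ψ (algebraMap M E b) x' hbE hpt' hx'
  let _ : Algebra M F := ((algebraMap E F).comp (algebraMap M E)).toAlgebra
  have ht : IsScalarTower M E F := IsScalarTower.of_algebraMap_eq fun _ => rfl
  have ht' : IsScalarTower k M F := IsScalarTower.of_algebraMap_eq fun z => by
    rw [IsScalarTower.algebraMap_apply k E F, IsScalarTower.algebraMap_apply k M E]
    rfl
  refine ⟨F, j1, j2, inferInstance, j4, ht', χ, x, fun z => ?_, ?_, hptx, hx, ?_⟩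
  · rw [← hψ, ← hχ]
    rfl
  · rw [← Module.finrank_mul_finrank M E F]
    exact Nat.mul_le_mul hdeg hdeg'
  · have e1 : (Module.finrank M F : ℝ) = Module.finrank M E * Module.finrank E F := by
      exact_mod_cast (Module.finrank_mul_finrank M E F).symm
    have e2 : (Module.finrank ℚ F : ℝ) = Module.finrank ℚ E * Module.finrank E F := by
      exact_mod_cast (Module.finrank_mul_finrank ℚ E F).symm
    have h1 := mul_le_mul_of_nonneg_left hdf (Nat.cast_nonneg (α := ℝ) (Module.finrank E F))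
    have e3 : algebraMap M F b = algebraMap E F (algebraMap M E b) := rfl
    rw [e1, e2, e3]
    rw [e2] at hdf'
    nlinarith

/-- steps in one field -/
theorem Go.same {k : Type} [Field k] {S' S : St k} {κ' κ c : ℝ} (hc : 0 ≤ c) (f : ℕ → ℕ)
    (H : ∀ (Ω : Type) [Field Ω] [IsAlgClosed Ω] [Algebra k Ω]
    (n : ℕ) (T : Finset Ω), T.card ≤ n → ∃ T' : Finset Ω, T'.card ≤ f n ∧
    ∀ (M : Type) [Field M] [NumberField M] [Algebra k M] (φ : M →ₐ[k] Ω) (b x' : M), b ≠ 0 →
      S'.pt M b x' → φ x' ∉ T' → ∃ x : M, S.pt M b x ∧ φ x ∉ T ∧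
      df S' κ' M b x' ≤ df S κ M b x + Module.finrank ℚ M * c) : Go k S' κ' S κ := by
  refine ⟨1, c, f, hc, fun Ω _ _ _ n T hT => ?_⟩
  obtain ⟨T', hT', H⟩ := H Ω n T hT
  refine ⟨T', hT', fun M _ _ _ φ b x' hb hpt hx' => ?_⟩
  obtain ⟨x, h1, h2, h3⟩ := H M φ b x' hb hpt hx'
  refine ⟨M, inferInstance, inferInstance, Algebra.id M, inferInstance, ?_, φ, x, fun _ => rfl, ?_,
    h1, h2, ?_⟩
  · exact IsScalarTower.of_algebraMap_eq fun _ => rfl
  · rw [Module.finrank_self]
  · rw [Module.finrank_self]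
    push_cast
    rw [one_mul]
    exact h3

/-- larger base fields -/
theorem ext_hom {k : Type} [Field k] {M E : Type} [Field M] [Field E] [Algebra k M] [Algebra k E]
    [Algebra M E] [IsScalarTower k M E] [Algebra.IsAlgebraic M E] (Ω : Type) [Field Ω]
    [IsAlgClosed Ω] [Algebra k Ω] (φ : M →ₐ[k] Ω) : ∃ ψ : E →ₐ[k] Ω,
      ∀ z : M, ψ (algebraMap M E z) = φ z := by
  let _ : Algebra M Ω := φ.toRingHom.toAlgebra
  have hM : ∀ z : M, algebraMap M Ω z = φ z := fun _ => rfl
  let ψ₀ : E →ₐ[M] Ω := IsAlgClosed.lift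
  refine ⟨{ ψ₀.toRingHom with commutes' := fun z => ?_ }, fun z => ?_⟩
  · show ψ₀ (algebraMap k E z) = _
    rw [IsScalarTower.algebraMap_apply k M E, ψ₀.commutes, hM, φ.commutes]
  · show ψ₀ (algebraMap M E z) = _
    rw [ψ₀.commutes, hM]

end Pool.Agent.H431.LF
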