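import Pool.Agent.H431.LF.Sqrt

/-!
# From the points of the towers to the points of a curve
-/

set_option autoImplicit false

namespace Pool.Agent.H431.LF

open NumberField IsDedekindDomain Height Pool.Agent.Q290.NF IntermediateField Pool.Agent.H431.OC
open Polynomial

/-- smaller coefficients of the height -/
theorem Go.mono {k : Type} [Field k] {S' S : St k} {κ₁ κ₂ κ : ℝ} (h : κ₁ ≤ κ₂)
    (H : Go k S' κ₂ S κ) : Go k S' κ₁ S κ := by
  obtain ⟨m, c, f, hc, H⟩ := H
  refine ⟨m, c, f, hc, fun Ω _ _ _ n T hT => ?_⟩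
  obtain ⟨T', hT', H⟩ := H Ω n T hT
  refine ⟨T', hT', fun M _ _ _ φ b x hb hpt hx => ?_⟩
  obtain ⟨E, i1, i2, i3, i4, i5, ψ, y, h1, h2, h3, h4, h5⟩ := H M φ b x hb hpt hx
  refine ⟨E, i1, i2, i3, i4, i5, ψ, y, h1, h2, h3, h4, le_trans ?_ h5⟩
  refine mul_le_mul_of_nonneg_left ?_ (Nat.cast_nonneg _)
  unfold df
  have := mul_le_mul_of_nonneg_right h (ht_nonneg x)
  linarith

/-- larger base fields -/
theorem Go.up {k F : Type} [Field k] [Field F] [Algebra k F] {S₁ S₂ : St k} {S₁' S₂' : St F}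
    {κ₁ κ₂ : ℝ}
    (h1 : ∀ (M : Type) [Field M] [NumberField M] [Algebra F M] (b x : M), S₁'.pt M b x →
      @St.pt k _ S₁ M _ _ ((algebraMap F M).comp (algebraMap k F)).toAlgebra b x)
    (h1' : ∀ (M : Type) [Field M] [NumberField M] [Algebra F M] (x : M),
      @St.wt k _ S₁ M _ _ ((algebraMap F M).comp (algebraMap k F)).toAlgebra x = S₁'.wt M x)
    (h2 : ∀ (M : Type) [Field M] [NumberField M] [Algebra F M] (b x : M),
      @St.pt k _ S₂ M _ _ ((algebraMap F M).comp (algebraMap k F)).toAlgebra b x → S₂'.pt M b x)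
    (h2' : ∀ (M : Type) [Field M] [NumberField M] [Algebra F M] (x : M),
      @St.wt k _ S₂ M _ _ ((algebraMap F M).comp (algebraMap k F)).toAlgebra x = S₂'.wt M x)
    (H : Go k S₁ κ₁ S₂ κ₂) : Go F S₁' κ₁ S₂' κ₂ := by
  obtain ⟨m, c, f, hc, H⟩ := H
  refine ⟨m, c, f, hc, fun Ω _ _ aΩ n T hT => ?_⟩
  let _ : Algebra k Ω := ((algebraMap F Ω).comp (algebraMap k F)).toAlgebra
  obtain ⟨T', hT', H⟩ := H Ω n T hT
  refine ⟨T', hT', fun M _ _ _ φ b x hb hpt hx => ?_⟩
  let aM : Algebra k M := ((algebraMap F M).comp (algebraMap k F)).toAlgebra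
  let φ' : M →ₐ[k] Ω := { φ.toRingHom with commutes' := fun z => φ.commutes _ }
  obtain ⟨E, i1, i2, i3, i4, i5, ψ, y, e1, e2, e3, e4, e5⟩ := H M φ' b x hb (h1 M b x hpt) hx
  let _ : Algebra F E := ((algebraMap M E).comp (algebraMap F M)).toAlgebra
  have hst : IsScalarTower F M E := IsScalarTower.of_algebraMap_eq fun _ => rfl
  have hi4 : i4 = ((algebraMap F E).comp (algebraMap k F)).toAlgebra := by
    refine Algebra.algebra_ext _ _ fun r => ?_
    exact IsScalarTower.algebraMap_apply k M E r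
  let ψ' : E →ₐ[F] Ω := { ψ.toRingHom with
    commutes' := fun z => by
      have h5 := e1 (algebraMap F M z)
      exact h5.trans (φ.commutes z) }
  have k3 : S₂'.pt E (algebraMap M E b) y := by
    subst hi4
    exact h2 E _ _ e3
  have k5 : (Module.finrank M E : ℝ) * df S₁' κ₁ M b x ≤
      df S₂' κ₂ E (algebraMap M E b) y + Module.finrank ℚ E * c := by
    subst hi4
    unfold df at e5 ⊢
    rw [← h1' M x, ← h2' E y]
    exact e5
  exact ⟨E, i1, i2, i3, inferInstance, hst, ψ', y, e1, e2, k3, e4, k5⟩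

variable {k : Type} [Field k] [NumberField k]

/-- the points of the curve `y ^ 2 = f(x)` with the weights `p` at infinity -/
noncomputable def Cf (p : ℤ → ℝ) (f : k[X]) : St k where
  pt M _ _ _ _ x := ∃ y : M, y ^ 2 = aeval x f
  wt _ _ _ _ x v := p (-ord v x)

/-- the line with the three points `0`, `1`, `∞` -/
noncomputable def Lf (k : Type) [Field k] : St k where
  pt _ _ _ _ _ t := t ≠ 0 ∧ t ≠ 1
  wt _ _ _ _ t v := w3 t v

theorem go_Lf (κ : ℝ) : Go k (T0 k) κ (Lf k) κ := by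
  obtain ⟨m, c, f, hc, H⟩ := go_line (k := k) Pw_po κ
  have hl : 0 ≤ Real.log 2 := Real.log_nonneg (by norm_num)
  refine Go.same (c := 3 * Real.log 2) (by positivity) (fun n => n) ?_
  intro Ω _ _ _ n T hT
  refine ⟨T, hT, fun M _ _ _ φ b t hb hpt ht => ⟨t, ⟨hpt.1, hpt.2.1⟩, ht, ?_⟩⟩
  have h1 := bw_bad (M := M) two_ne_zero (B := 3) (by norm_num) hb (g := (Lf k).wt M t)
    (h := (T0 k).wt M t) (u := fun _ => 0) (supp_w3 t)
    supp_zero supp_zero (fun v hv hvb => ?_) (fun v => ?_) (fun v => le_rfl)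
    (fun v => le_rfl)
  · rw [sm_zero] at h1
    unfold df
    push_cast at h1
    linarith
  · have hv2 : ord v (2 : M) = 0 := by exact_mod_cast hv
    obtain ⟨h2, h3⟩ := hpt.2.2.2 v hv2 hvb
    show po (ord v t) + po (ord v (t - 1)) + po (-ord v t) ≤ 0 + 0
    rw [h2, h3, Pw_po.zero 0 le_rfl, Pw_po.zero (-0) (by simp)]
    norm_num
  · have r1 := po_le (ord v t)
    have r2 := po_le (ord v (t - 1))
    have r3 := po_le (-ord v t)
    show po (ord v t) + po (ord v (t - 1)) + po (-ord v t) ≤ 3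
    linarith

theorem up_Lf {F : Type} [Field F] [Algebra k F] {κ κ' : ℝ}
    (h : Go k (T0 k) κ' (Lf k) κ) : Go F (T0 F) κ' (Lf F) κ :=
  Go.up (fun _ _ _ _ _ _ h => h) (fun _ _ _ _ _ => rfl) (fun _ _ _ _ _ _ h => h)
    (fun _ _ _ _ _ => rfl) h

theorem up_Cf {F : Type} [Field F] [Algebra k F] {p : ℤ → ℝ} {f : k[X]} {κ κ' : ℝ}
    (h : Go k (T0 k) κ' (Cf p f) κ) :
    Go F (T0 F) κ' (Cf p (f.map (algebraMap k F))) κ := by
  refine Go.up (fun _ _ _ _ _ _ h => h) (fun _ _ _ _ _ => rfl) (fun M _ _ _ b x hx => ?_)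
    (fun _ _ _ _ _ => rfl) h
  let _ : Algebra k M := ((algebraMap F M).comp (algebraMap k F)).toAlgebra
  have : IsScalarTower k F M := IsScalarTower.of_algebraMap_eq fun _ => rfl
  obtain ⟨y, hy⟩ := hx
  refine ⟨y, ?_⟩
  rw [aeval_map_algebraMap]
  exact hy

/-- the same points -/
theorem Cv_Cf {p : ℤ → ℝ} {f : k[X]} {c : k} {s : Finset k}
    (hf : ∀ (M : Type) [Field M] [Algebra k M] (x : M), aeval x f =
      algebraMap k M c * ∏ e ∈ s, (x - algebraMap k M e)) {S : St k} {κ κ' : ℝ}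
    (h : Go k S κ' (Cv p c s) κ) : Go k S κ' (Cf p f) κ := by
  obtain ⟨m, c', f', hc, H⟩ := h
  refine ⟨m, c', f', hc, fun Ω _ _ _ n T hT => ?_⟩
  obtain ⟨T', hT', H⟩ := H Ω n T hT
  refine ⟨T', hT', fun M _ _ _ φ b x hb hpt hx => ?_⟩
  obtain ⟨E, i1, i2, i3, i4, i5, ψ, y, h1, h2, h3, h4, h5⟩ := H M φ b x hb hpt hx
  refine ⟨E, i1, i2, i3, i4, i5, ψ, y, h1, h2, ?_, h4, h5⟩
  obtain ⟨z, hz⟩ := h3
  exact ⟨z, by rw [hz, hf E y]⟩

theorem roots_of {f : k[X]} (hsep : f.Separable) (hs : f.Splits) :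
    ∃ R : Finset k, R.card = f.natDegree ∧ ∀ (M : Type) [Field M] [Algebra k M] (x : M),
      aeval x f = algebraMap k M f.leadingCoeff * ∏ e ∈ R, (x - algebraMap k M e) := by
  refine ⟨⟨f.roots, nodup_roots hsep⟩, ?_, ?_⟩
  · rw [Finset.card_mk, splits_iff_card_roots.1 hs]
  · intro M _ _ x
    have h1 := hs.eq_prod_roots
    have h3 := congrArg (aeval x) h1
    rw [h3, map_mul, aeval_C]
    congr 1
    rw [map_multiset_prod, Multiset.map_map]
    show _ = (Multiset.map (fun e => x - algebraMap k M e) f.roots).prod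
    congr 1
    refine Multiset.map_congr rfl fun a _ => ?_
    simp

/-- **hyperelliptic curves with the points at infinity** -/
theorem chain_inf {f : k[X]} (hsep : f.Separable) (hs : f.Splits) (h3 : 3 ≤ f.natDegree)
    {ε : ℝ} (hε : ε ≤ 1 / 2) :
    Go k (T0 k) (1 - 4 * ε) (Cf po f) (((f.natDegree : ℝ) - 2) / 2 - ε) := by
  classical
  have hf0 : f ≠ 0 := by
    rintro rfl
    simp at h3
  obtain ⟨R, hR, hprod⟩ := roots_of hsep hs
  obtain ⟨t, hts, ht3⟩ := Finset.exists_subset_card_eq (show 3 ≤ R.card by omega)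
  obtain ⟨e1, e2, e3, h12, h13, h23, rfl⟩ := Finset.card_eq_three.1 ht3
  obtain ⟨r, hr⟩ : ∃ r, r = R \ {e1, e2, e3} := ⟨_, rfl⟩
  have hrc : r.card = R.card - 3 := by
    rw [hr, Finset.card_sdiff_of_subset hts, ht3]
  have hlc : f.leadingCoeff ≠ 0 := leadingCoeff_ne_zero.2 hf0
  have hs' : ∀ (M : Type) [Field M] [Algebra k M] (X : M),
      ∏ e ∈ R, (X - algebraMap k M e) = (X - algebraMap k M e1) * ((X - algebraMap k M e2) *
        ((X - algebraMap k M e3) * ∏ e ∈ r, (X - algebraMap k M e))) := by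
    intro M _ _ X
    rw [← Finset.prod_sdiff hts, ← hr,
      Finset.prod_insert (by simp [h12, h13]),
      Finset.prod_insert (by simp [h23]), Finset.prod_singleton]
    ring
  have g1 := go_line (k := k) Pw_po (1 - 4 * ε)
  have g2 := go_lin Pw_po e3 h12 (1 - 4 * ε)
  have e4 : 1 - 4 * ε + 1 = 4 * (1 / 2 - ε) := by ring
  rw [e4] at g2
  have g3 := go_dup Pw_po h12 h13 h23 (κ := 1 / 2 - ε) (by linarith)
  have g4 := go_root Pw_po e1 e2 e3 (1 / 2 - ε)
  have g5 := go_infty hlc hs' (1 / 2 - ε)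
  have e5 : (1 / 2 - ε) + (r.card : ℝ) / 2 = ((f.natDegree : ℝ) - 2) / 2 - ε := by
    rw [hrc, Nat.cast_sub (by omega), hR]
    push_cast
    ring
  rw [e5] at g5
  exact Cv_Cf hprod ((((g1.trans g2).trans g3).trans g4).trans g5)

/-- **hyperelliptic curves**, odd degree -/
theorem chain_zero {c : k} (hc : c ≠ 0) {s : Finset k} (hodd : Odd s.card) (h5 : 5 ≤ s.card)
    {ε : ℝ} (hε : ε ≤ 3 / 64) :
    ∃ (F : Type) (_ : Field F) (_ : NumberField F) (_ : Algebra k F) (s' : Finset F),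
      Go F (T0 F) (3 / 4 - 16 * ε) (Cv (fun _ => 0) (algebraMap k F c) s')
        (((s.card : ℝ) - 3) / 2 - ε) ∧ ∀ (M : Type) [Field M] [Algebra k M] [Algebra F M]
          [IsScalarTower k F M] (x : M), ∏ e ∈ s', (x - algebraMap F M e) =
            ∏ e ∈ s, (x - algebraMap k M e) := by
  classical
  obtain ⟨t, hts, ht4⟩ := Finset.exists_subset_card_eq (show 4 ≤ s.card by omega)
  obtain ⟨mu, t', hmu, rfl, ht3⟩ := Finset.card_eq_succ.1 ht4
  obtain ⟨e1, e2, e3, h12, h13, h23, rfl⟩ := Finset.card_eq_three.1 ht3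
  obtain ⟨r, hr⟩ : ∃ r, r = s \ insert mu {e1, e2, e3} := ⟨_, rfl⟩
  have hrc : r.card = s.card - 4 := by
    rw [hr, Finset.card_sdiff_of_subset hts, ht4]
  have hrodd : Odd r.card := by
    rw [hrc]
    obtain ⟨m, hm⟩ := hodd
    exact ⟨m - 2, by omega⟩
  have hmr : mu ∉ r := by
    rw [hr, Finset.mem_sdiff, not_and, not_not]
    intro _
    exact Finset.mem_insert_self _ _
  have hm1 : mu ≠ e1 := fun h => hmu (by rw [h]; simp)
  have hm2 : mu ≠ e2 := fun h => hmu (by rw [h]; simp)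
  have hm3 : mu ≠ e3 := fun h => hmu (by rw [h]; simp)
  obtain ⟨F, iF, nF, aF, sig, hsig, -, -⟩ :=
    exists_quad k ((mu - e1) * (mu - e2) * (mu - e3))
  have inj := (algebraMap k F).injective
  have hs0 : sig ≠ 0 := by
    rintro rfl
    have h1 : algebraMap k F ((mu - e1) * (mu - e2) * (mu - e3)) = 0 := by
      rw [← hsig]
      ring
    rw [map_eq_zero] at h1
    exact mul_ne_zero (mul_ne_zero (sub_ne_zero.2 hm1) (sub_ne_zero.2 hm2))
      (sub_ne_zero.2 hm3) h1
  refine ⟨F, iF, nF, aF, s.image (algebraMap k F), ?_, ?_⟩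
  · have hprod : ∀ (M : Type) [Field M] [Algebra F M] (X : M),
        ∏ e ∈ s.image (algebraMap k F), (X - algebraMap F M e) =
          (X - algebraMap F M (algebraMap k F e1)) * ((X - algebraMap F M (algebraMap k F e2)) *
          ((X - algebraMap F M (algebraMap k F e3)) * ((X - algebraMap F M (algebraMap k F mu)) *
            ∏ e ∈ r.image (algebraMap k F), (X - algebraMap F M e)))) := by
      intro M _ _ X
      rw [Finset.prod_image inj.injOn, Finset.prod_image inj.injOn, ← Finset.prod_sdiff hts, ← hr,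
        Finset.prod_insert hmu, Finset.prod_insert (by simp [h12, h13]),
        Finset.prod_insert (by simp [h23]), Finset.prod_singleton]
      ring
    have d12 : algebraMap k F e1 ≠ algebraMap k F e2 := fun h => h12 (inj h)
    have d13 : algebraMap k F e1 ≠ algebraMap k F e3 := fun h => h13 (inj h)
    have d23 : algebraMap k F e2 ≠ algebraMap k F e3 := fun h => h23 (inj h)
    have g1 := go_four (k := F) (ε := 4 * ε) (by linarith)
    have g2 := go_lin Pw_om (algebraMap k F e3) d12 (1 / 4 - 4 * ε)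
    have e4 : 1 / 4 - 4 * ε + 3 / 4 = 4 * (1 / 4 - ε) := by ring
    rw [e4] at g2
    have g3 := go_dup Pw_om d12 d13 d23 (κ := 1 / 4 - ε) (by linarith)
    have g4 := go_root Pw_om (algebraMap k F e1) (algebraMap k F e2) (algebraMap k F e3)
      (1 / 4 - ε)
    have g5 := go_pair (k := F) (e1 := algebraMap k F e1) (e2 := algebraMap k F e2)
      (e3 := algebraMap k F e3) (mu := algebraMap k F mu) (sig := sig)
      (by rw [hsig]; simp only [map_mul, map_sub]) hs0 (ε := ε) (by linarith)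
    have g6 := go_zero (k := F) (c := algebraMap k F c) (e1 := algebraMap k F e1)
      (e2 := algebraMap k F e2) (e3 := algebraMap k F e3) (mu := algebraMap k F mu)
      ((_root_.map_ne_zero _).2 hc) (r := r.image (algebraMap k F))
      (by rwa [Finset.card_image_of_injective _ inj])
      (by
        rw [Finset.mem_image]
        rintro ⟨b, hb, hb'⟩
        exact hmr (inj hb' ▸ hb)) hprod (1 / 2 - ε)
    have e5 : (1 / 2 - ε) + ((r.image (algebraMap k F)).card : ℝ) / 2 =
        ((s.card : ℝ) - 3) / 2 - ε := by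
      rw [Finset.card_image_of_injective _ inj, hrc, Nat.cast_sub (by omega)]
      push_cast
      ring
    rw [e5] at g6
    have e6 : 3 / 4 - 4 * (4 * ε) = 3 / 4 - 16 * ε := by ring
    rw [e6] at g1
    exact ((((g1.trans g2).trans g3).trans g4).trans g5).trans g6
  · intro M _ _ _ _ x
    rw [Finset.prod_image inj.injOn]
    refine Finset.prod_congr rfl fun e _ => ?_
    rw [IsScalarTower.algebraMap_apply k F M]

end Pool.Agent.H431.LF
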