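import Pool.Agent.H431.LF.Curve

/-!
# All hyperelliptic curves
-/

set_option autoImplicit false

namespace Pool.Agent.H431.LF

open NumberField IsDedekindDomain Height Pool.Agent.Q290.NF IntermediateField Pool.Agent.H431.OC
open Polynomial

variable {k : Type} [Field k] [NumberField k]

/-- moving a branch point to infinity -/
theorem go_inv {c e0 : k} {s : Finset k} {f : k[X]}
    (h : ∀ (M : Type) [Field M] [Algebra k M] (x y : M), x ≠ 0 →
      y ^ 2 = algebraMap k M c * ∏ e ∈ s, (x - algebraMap k M e) →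
      ∃ y' : M, y' ^ 2 = aeval (algebraMap k M e0 + x⁻¹) f) (κ : ℝ) :
    Go k (Cv (fun _ => 0) c s) κ (Cf (fun _ => 0) f) κ := by
  classical
  obtain ⟨C0, hC0, H0⟩ := ht_shift e0
  refine Go.same (c := |κ| * C0) (by positivity) (fun n => n + 1) ?_
  intro Ω _ _ _ n T hT
  refine ⟨T.image (fun τ => (τ - algebraMap k Ω e0)⁻¹) ∪ {0},
    card_add (Finset.card_image_le.trans hT) (Finset.card_singleton _).le, ?_⟩
  intro M _ _ _ φ b x hb hpt hx
  rw [Finset.mem_union, Finset.mem_singleton, not_or] at hx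
  obtain ⟨hxT, hx0⟩ := hx
  have hx0' : x ≠ 0 := by
    rintro rfl
    exact hx0 (map_zero φ)
  obtain ⟨y, hy⟩ := hpt
  refine ⟨algebraMap k M e0 + x⁻¹, h M x y hx0' hy, fun hin => hxT ?_, ?_⟩
  · rw [Finset.mem_image]
    refine ⟨_, hin, ?_⟩
    rw [map_add, φ.commutes, add_sub_cancel_left, map_inv₀, inv_inv]
  · have h2 := H0 M (algebraMap k M e0 + x⁻¹)
    rw [add_sub_cancel_left, logHeight₁_inv] at h2
    have h3 : κ * logHeight₁ x ≤ κ * logHeight₁ (algebraMap k M e0 + x⁻¹) +
        |κ| * (Module.finrank ℚ M * C0) := abs_shift h2.2 h2.1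
    unfold df
    have h4 : (Module.finrank ℚ M : ℝ) * (|κ| * C0) = |κ| * (Module.finrank ℚ M * C0) := by ring
    rw [h4]
    have e1 : (Cv (fun _ => (0 : ℝ)) c s).wt M x = fun _ => 0 := rfl
    have e2 : (Cf (fun _ => (0 : ℝ)) f).wt M (algebraMap k M e0 + x⁻¹) = fun _ => 0 := rfl
    rw [e1, e2]
    linarith

theorem exists_zero_split {f : k[X]} (hsep : f.Separable) (hs : f.Splits)
    (h5 : 5 ≤ f.natDegree) {ε : ℝ} (hε : ε ≤ 3 / 64) :
    ∃ (F : Type) (_ : Field F) (_ : NumberField F) (_ : Algebra k F),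
      Go F (T0 F) (3 / 4 - 16 * ε) (Cf (fun _ => 0) (f.map (algebraMap k F)))
        ((((f.natDegree - 1) / 2 : ℕ) : ℝ) - 1 - ε) := by
  classical
  have hf0 : f ≠ 0 := by
    rintro rfl
    simp at h5
  obtain ⟨R, hR, hprod⟩ := roots_of hsep hs
  have hlc : f.leadingCoeff ≠ 0 := leadingCoeff_ne_zero.2 hf0
  rcases Nat.even_or_odd f.natDegree with hev | hodd
  · -- even degree
    obtain ⟨e0, he0⟩ : R.Nonempty := by
      rw [← Finset.card_pos, hR]
      omega
    have hinj : Set.InjOn (fun e : k => (e - e0)⁻¹) (R.erase e0) := by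
      intro a _ b _ hab
      have h1 : (a - e0)⁻¹ = (b - e0)⁻¹ := hab
      have h2 := inv_injective h1
      linear_combination h2
    obtain ⟨s, hs⟩ : ∃ s, s = (R.erase e0).image (fun e => (e - e0)⁻¹) := ⟨_, rfl⟩
    have hsc : s.card = f.natDegree - 1 := by
      rw [hs, Finset.card_image_of_injOn hinj, Finset.card_erase_of_mem he0, hR]
    obtain ⟨m, hm⟩ := hev
    have hc0 : ∏ e ∈ R.erase e0, (e0 - e) ≠ 0 := by
      rw [Finset.prod_ne_zero_iff]
      intro e he
      exact sub_ne_zero.2 (Finset.ne_of_mem_erase he).symm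
    obtain ⟨c, hc⟩ : ∃ c, c = f.leadingCoeff * ∏ e ∈ R.erase e0, (e0 - e) := ⟨_, rfl⟩
    obtain ⟨F, i1, i2, i3, s', hgo, hs'⟩ := chain_zero (c := c) (by
      rw [hc]
      exact mul_ne_zero hlc hc0) (s := s) ⟨m - 1, by omega⟩ (by omega) hε
    refine ⟨F, i1, i2, i3, ?_⟩
    have e1 : ((s.card : ℝ) - 3) / 2 - ε = (((f.natDegree - 1) / 2 : ℕ) : ℝ) - 1 - ε := by
      have e1 : (f.natDegree - 1) / 2 = m - 1 := by omega
      have e2 : s.card = 2 * (m - 1) + 1 := by omega
      rw [e1, e2]
      push_cast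
      ring
    rw [e1] at hgo
    refine hgo.trans (go_inv (e0 := algebraMap k F e0) (fun M _ _ x y hx hxy => ?_) _)
    let _ : Algebra k M := ((algebraMap F M).comp (algebraMap k F)).toAlgebra
    have : IsScalarTower k F M := IsScalarTower.of_algebraMap_eq fun _ => rfl
    obtain ⟨E0, hE0⟩ : ∃ E0, E0 = algebraMap k M e0 := ⟨_, rfl⟩
    have hE0' : algebraMap F M (algebraMap k F e0) = E0 := by rw [hE0]; rfl
    rw [hE0', aeval_map_algebraMap]
    rw [hs' M x] at hxy
    have hcc : algebraMap F M (algebraMap k F c) = algebraMap k M c := rfl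
    rw [hcc] at hxy
    refine ⟨y / x ^ m, ?_⟩
    symm
    rw [hprod M, ← Finset.mul_prod_erase R _ he0, div_pow, hxy, hs, Finset.prod_image hinj, hc,
      map_mul, map_prod, ← hE0]
    have e1 : ∀ e ∈ R.erase e0, E0 + x⁻¹ - algebraMap k M e =
        algebraMap k M (e0 - e) *
          (x - algebraMap k M ((e - e0)⁻¹)) * x⁻¹ := by
      intro e he
      have h1 : algebraMap k M e - E0 ≠ 0 := by
        rw [hE0, ← map_sub]
        exact (_root_.map_ne_zero _).2 (sub_ne_zero.2 (Finset.ne_of_mem_erase he))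
      rw [map_inv₀, map_sub, map_sub, ← hE0]
      field_simp
      ring
    rw [Finset.prod_congr rfl e1, Finset.prod_mul_distrib, Finset.prod_mul_distrib,
      Finset.prod_const, Finset.card_erase_of_mem he0, hR]
    have e2 : E0 + x⁻¹ - E0 = x⁻¹ := by ring
    have e3 : (x ^ m) ^ 2 = x ^ (f.natDegree - 1) * x := by
      rw [← pow_mul, ← pow_succ]
      congr 1
      omega
    rw [e2, e3, inv_pow]
    field_simp
  · obtain ⟨F, i1, i2, i3, s', hgo, hs'⟩ := chain_zero (c := f.leadingCoeff) hlc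
      (s := R) (by rwa [hR]) (by omega) hε
    refine ⟨F, i1, i2, i3, ?_⟩
    obtain ⟨m, hm⟩ := hodd
    have e1 : (f.natDegree - 1) / 2 = m := by omega
    have e2 : (((R.card : ℝ) - 3) / 2 - ε) = ((((f.natDegree - 1) / 2 : ℕ) : ℝ) - 1 - ε) := by
      rw [e1, hR, hm]
      push_cast
      ring
    rw [e2] at hgo
    refine Cv_Cf (fun M _ _ x => ?_) hgo
    let _ : Algebra k M := ((algebraMap F M).comp (algebraMap k F)).toAlgebra
    have : IsScalarTower k F M := IsScalarTower.of_algebraMap_eq fun _ => rfl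
    rw [aeval_map_algebraMap, hprod M, hs' M x]
    rfl

/-- **hyperelliptic curves**, `D = 0` -/
theorem exists_zero {f : k[X]} (hf : Squarefree f) (h5 : 5 ≤ f.natDegree) {ε : ℝ}
    (hε : ε ≤ 3 / 64) :
    ∃ (F : Type) (_ : Field F) (_ : NumberField F) (_ : Algebra k F),
      Go F (T0 F) (3 / 4 - 16 * ε) (Cf (fun _ => 0) (f.map (algebraMap k F)))
        ((((f.natDegree - 1) / 2 : ℕ) : ℝ) - 1 - ε) := by
  have hsep : f.Separable := PerfectField.separable_iff_squarefree.2 hf
  have nF : NumberField f.SplittingField := NumberField.of_module_finite k f.SplittingField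
  obtain ⟨F, i1, i2, i3, h⟩ := exists_zero_split (k := f.SplittingField)
    (f := f.map (algebraMap k f.SplittingField)) hsep.map (SplittingField.splits f)
    (by rwa [natDegree_map]) hε
  let _ : Algebra k F := ((algebraMap f.SplittingField F).comp
    (algebraMap k f.SplittingField)).toAlgebra
  refine ⟨F, i1, i2, inferInstance, ?_⟩
  rw [natDegree_map, Polynomial.map_map] at h
  exact h

/-- **hyperelliptic curves with the points at infinity** -/
theorem exists_inf {f : k[X]} (hf : Squarefree f) (h3 : 3 ≤ f.natDegree) {ε : ℝ}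
    (hε0 : 0 ≤ ε) (hε : ε ≤ 1 / 2) :
    ∃ (F : Type) (_ : Field F) (_ : NumberField F) (_ : Algebra k F),
      Go F (T0 F) (3 / 4 - 16 * ε) (Cf po (f.map (algebraMap k F)))
        (((f.natDegree : ℝ) - 2) / 2 - ε) := by
  have hsep : f.Separable := PerfectField.separable_iff_squarefree.2 hf
  have nF : NumberField f.SplittingField := NumberField.of_module_finite k f.SplittingField
  refine ⟨f.SplittingField, inferInstance, nF, inferInstance, ?_⟩
  have h := chain_inf (k := f.SplittingField)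
    (f := f.map (algebraMap k f.SplittingField)) hsep.map (SplittingField.splits f)
    (by rwa [natDegree_map]) hε
  rw [natDegree_map] at h
  exact h.mono (by linarith)

end Pool.Agent.H431.LF
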