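import Pool.Agent.H431.LF.Line

/-!
# The duplication map, with general weights
-/

set_option autoImplicit false

namespace Pool.Agent.H431.LF

open NumberField IsDedekindDomain Height Pool.Agent.Q290.NF IntermediateField Pool.Agent.H431.OC

section loc

variable {M : Type} [Field M] [NumberField M] (v : HeightOneSpectrum (𝓞 M))

/-- the weights `p` at `∞` and of index `2` at three points -/
noncomputable def zp (p : ℤ → ℝ) (e1 e2 e3 x : M) (v : HeightOneSpectrum (𝓞 M)) : ℝ :=
  p (-ord v x) + om 2 (ord v (x - e1)) + om 2 (ord v (x - e2)) + om 2 (ord v (x - e3))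

/-- the weights `p` at four points -/
noncomputable def fp (p : ℤ → ℝ) (e1 e2 e3 x : M) (v : HeightOneSpectrum (𝓞 M)) : ℝ :=
  p (-ord v x) + p (ord v (x - e1)) + p (ord v (x - e2)) + p (ord v (x - e3))

variable {p : ℤ → ℝ} {lam : ℝ} (hp : Pw p lam)
include hp

theorem supp_zp (e1 e2 e3 x : M) : (Function.support (zp p e1 e2 e3 x)).Finite :=
  supp_add (supp_add (supp_add (supp_p' hp.zero x) (supp_om 2 _)) (supp_om 2 _)) (supp_om 2 _)

theorem supp_fp (e1 e2 e3 x : M) : (Function.support (fp p e1 e2 e3 x)).Finite :=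
  supp_add (supp_add (supp_add (supp_p' hp.zero x) (supp_p hp.zero _)) (supp_p hp.zero _))
    (supp_p hp.zero _)

theorem zp_le (e1 e2 e3 x : M) : zp p e1 e2 e3 x v ≤ 4 := by
  have r0 := hp.le_one (-ord v x)
  have r1 := om_le_one 2 (ord v (x - e1))
  have r2 := om_le_one 2 (ord v (x - e2))
  have r3 := om_le_one 2 (ord v (x - e3))
  unfold zp
  linarith

theorem fp_le (e1 e2 e3 x : M) : fp p e1 e2 e3 x v ≤ 4 := by
  have r0 := hp.le_one (-ord v x)
  have r1 := hp.le_one (ord v (x - e1))
  have r2 := hp.le_one (ord v (x - e2))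
  have r3 := hp.le_one (ord v (x - e3))
  unfold fp
  linarith

theorem fp_nonneg (e1 e2 e3 x : M) : 0 ≤ fp p e1 e2 e3 x v := by
  have r0 := hp.nonneg (-ord v x)
  have r1 := hp.nonneg (ord v (x - e1))
  have r2 := hp.nonneg (ord v (x - e2))
  have r3 := hp.nonneg (ord v (x - e3))
  unfold fp
  linarith

theorem zp_nonneg (e1 e2 e3 x : M) : 0 ≤ zp p e1 e2 e3 x v := by
  have r0 := hp.nonneg (-ord v x)
  have r1 := om_nonneg two_ne_zero (ord v (x - e1))
  have r2 := om_nonneg two_ne_zero (ord v (x - e2))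
  have r3 := om_nonneg two_ne_zero (ord v (x - e3))
  unfold zp
  linarith

omit hp in
/-- the weight at a pole -/
theorem zp_pole {e1 e2 e3 D e : M} (h1 : 0 ≤ ord v e1) (h2 : 0 ≤ ord v e2) (h3 : 0 ≤ ord v e3)
    (he : 0 ≤ ord v e) (h : ord v (D - e) < 0) :
    zp p e1 e2 e3 D v = p (-ord v (D - e)) := by
  have h0 : D - e ≠ 0 := by
    intro h'
    rw [h', ord_zero] at h
    exact lt_irrefl _ h
  have hD := ord_add_eq v (x := D - e) (y := e) h0 (Or.inr (lt_of_lt_of_le h he))
  rw [sub_add_cancel] at hD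
  have hs : ∀ b : M, 0 ≤ ord v b → ord v (D - b) < 0 := by
    intro b hb
    rw [(ord_sub_eq v (y := b) hD.2 (Or.inr (by rw [hD.1]; exact lt_of_lt_of_le h hb))).1, hD.1]
    exact h
  unfold zp
  rw [om_nonpos 2 (hs e1 h1).le, om_nonpos 2 (hs e2 h2).le, om_nonpos 2 (hs e3 h3).le, hD.1]
  ring

/-- **the local inequality for the duplication map** -/
theorem loc_dupp {e1 e2 e3 x D : M} (h2 : ord v (2 : M) = 0) (h1' : 0 ≤ ord v e1)
    (h2' : 0 ≤ ord v e2) (h3' : 0 ≤ ord v e3)
    (n12 : e2 - e1 ≠ 0) (n13 : e3 - e1 ≠ 0) (n23 : e3 - e2 ≠ 0)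
    (u12 : ord v (e2 - e1) = 0) (u13 : ord v (e3 - e1) = 0) (u23 : ord v (e3 - e2) = 0)
    (m1 : x - e1 ≠ 0) (m2 : x - e2 ≠ 0) (m3 : x - e3 ≠ 0)
    (hD1 : 4 * ((x - e1) * (x - e2) * (x - e3)) * (D - e1) =
      ((x - e1) ^ 2 - (e2 - e1) * (e3 - e1)) ^ 2) :
    zp p e1 e2 e3 D v ≤ fp p e1 e2 e3 x v := by
  have hD2 : 4 * ((x - e1) * (x - e2) * (x - e3)) * (D - e2) =
      ((x - e2) ^ 2 - (-(e2 - e1)) * (e3 - e2)) ^ 2 := by
    linear_combination hD1
  have hD3 : 4 * ((x - e1) * (x - e2) * (x - e3)) * (D - e3) =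
      ((x - e3) ^ 2 - (e3 - e1) * (e3 - e2)) ^ 2 := by
    linear_combination hD1
  have h4 : ord v (4 : M) = 0 := by
    have e : (4 : M) = 2 ^ 2 := by norm_num
    rw [e, ord_pow, h2, mul_zero]
  have h40 : (4 : M) ≠ 0 := by norm_num
  have hc0 : (x - e1) * (x - e2) * (x - e3) ≠ 0 := mul_ne_zero (mul_ne_zero m1 m2) m3
  have hco : ord v ((x - e1) * (x - e2) * (x - e3)) = ord v (x - e1) + ord v (x - e2) +
      ord v (x - e3) := by
    rw [ord_mul v (mul_ne_zero m1 m2) m3, ord_mul v m1 m2]
  -- the order of `D - e`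
  have key : ∀ (e Q : M), 4 * ((x - e1) * (x - e2) * (x - e3)) * (D - e) = Q ^ 2 → Q ≠ 0 →
      D - e ≠ 0 ∧ ord v (D - e) = 2 * ord v Q -
        (ord v (x - e1) + ord v (x - e2) + ord v (x - e3)) := by
    intro e Q hQ hQ0
    have hDe : D - e ≠ 0 := by
      intro h
      rw [h, mul_zero] at hQ
      exact pow_ne_zero 2 hQ0 hQ.symm
    refine ⟨hDe, ?_⟩
    have h5 : ord v (4 * ((x - e1) * (x - e2) * (x - e3)) * (D - e)) = ord v (Q ^ 2) := by rw [hQ]
    rw [ord_mul v (mul_ne_zero h40 hc0) hDe, ord_mul v h40 hc0, h4, hco, ord_pow] at h5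
    push_cast at h5
    omega
  have f0 := hp.nonneg (-ord v x)
  have f1 := hp.nonneg (ord v (x - e1))
  have f2 := hp.nonneg (ord v (x - e2))
  have f3 := hp.nonneg (ord v (x - e3))
  rcases lt_or_ge (ord v x) 0 with hneg | hge
  · -- a pole of `x`
    have hx0 : x ≠ 0 := by
      rintro rfl
      rw [ord_zero] at hneg
      exact lt_irrefl _ hneg
    have hsub : ∀ b : M, 0 ≤ ord v b → ord v (x - b) = ord v x := fun b hb' =>
      (ord_sub_eq v hx0 (Or.inr (lt_of_lt_of_le hneg hb'))).1
    have k1 := q_pole v (T := x - e1) (b := 0) (c := -((e2 - e1) * (e3 - e1)))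
      (by rw [ord_zero]) (by rw [ord_neg, ord_mul v n12 n13, u12, u13]; rfl)
      (by rw [hsub e1 h1']; exact hneg)
    have e : (x - e1) ^ 2 - 0 * (x - e1) + -((e2 - e1) * (e3 - e1)) =
      (x - e1) ^ 2 - (e2 - e1) * (e3 - e1) := by ring
    rw [e] at k1
    have k2 := (key e1 _ hD1 k1.2).2
    rw [k1.1, hsub e1 h1', hsub e2 h2', hsub e3 h3'] at k2
    have k3 : ord v (D - e1) = ord v x := by omega
    have k4 := zp_pole (p := p) v h1' h2' h3' h1' (by rw [k3]; exact hneg)
    rw [k4, k3]
    unfold fp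
    linarith
  · have hsub : ∀ b : M, 0 ≤ ord v b → 0 ≤ ord v (x - b) := fun b hb' => sub_nonneg' v hge hb'
    have g1 := hsub e1 h1'
    have g2 := hsub e2 h2'
    have g3 := hsub e3 h3'
    have flip : ∀ a b : M, a ≠ b → ord v (b - a) = 0 → 0 < ord v (x - a) →
        ord v (x - b) = 0 := by
      intro a b hab hu hp
      have h5 := ord_sub_eq v (x := b - a) (y := x - a) (sub_ne_zero.2 hab.symm)
        (Or.inr (by rw [hu]; exact hp))
      have e : b - a - (x - a) = b - x := by ring
      rw [e, hu] at h5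
      rw [ord_sub_comm]
      exact h5.1
    have d12 : e1 ≠ e2 := fun h => n12 (by rw [h, sub_self])
    have d13 : e1 ≠ e3 := fun h => n13 (by rw [h, sub_self])
    have d23 : e2 ≠ e3 := fun h => n23 (by rw [h, sub_self])
    rcases lt_or_ge 0 (ord v (x - e1)) with p1 | p1
    · have z2 := flip e1 e2 d12 u12 p1
      have z3 := flip e1 e3 d13 u13 p1
      have k1 := q_unit v (T := x - e1) (c := (e2 - e1) * (e3 - e1)) (mul_ne_zero n12 n13)
        (by rw [ord_mul v n12 n13, u12, u13]; rfl) p1
      have k2 := (key e1 _ hD1 k1.2).2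
      rw [k1.1, z2, z3] at k2
      have k3 : ord v (D - e1) = -ord v (x - e1) := by omega
      have k4 := zp_pole (p := p) v h1' h2' h3' h1' (by rw [k3]; omega)
      rw [k4, k3, neg_neg]
      unfold fp
      linarith
    · have z1 : ord v (x - e1) = 0 := le_antisymm p1 g1
      rcases lt_or_ge 0 (ord v (x - e2)) with p2 | p2
      · have z3 := flip e2 e3 d23 u23 p2
        have k1 := q_unit v (T := x - e2) (c := -(e2 - e1) * (e3 - e2))
          (mul_ne_zero (neg_ne_zero.2 n12) n23)
          (by rw [ord_mul v (neg_ne_zero.2 n12) n23, ord_neg, u12, u23]; rfl) p2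
        have k2 := (key e2 _ hD2 k1.2).2
        rw [k1.1, z1, z3] at k2
        have k3 : ord v (D - e2) = -ord v (x - e2) := by omega
        have k4 := zp_pole (p := p) v h1' h2' h3' h2' (by rw [k3]; omega)
        rw [k4, k3, neg_neg]
        unfold fp
        linarith
      · have z2 : ord v (x - e2) = 0 := le_antisymm p2 g2
        rcases lt_or_ge 0 (ord v (x - e3)) with p3 | p3
        · have k1 := q_unit v (T := x - e3) (c := (e3 - e1) * (e3 - e2))
            (mul_ne_zero n13 n23) (by rw [ord_mul v n13 n23, u13, u23]; rfl) p3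
          have k2 := (key e3 _ hD3 k1.2).2
          rw [k1.1, z1, z2] at k2
          have k3 : ord v (D - e3) = -ord v (x - e3) := by omega
          have k4 := zp_pole (p := p) v h1' h2' h3' h3' (by rw [k3]; omega)
          rw [k4, k3, neg_neg]
          unfold fp
          linarith
        · have z3 : ord v (x - e3) = 0 := le_antisymm p3 g3
          -- no zero
          have even : ∀ (e Q : M), 4 * ((x - e1) * (x - e2) * (x - e3)) * (D - e) = Q ^ 2 →
              0 ≤ ord v Q → Even (ord v (D - e)) ∧ 0 ≤ ord v (D - e) := by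
            intro e Q hQ hQo
            by_cases hQ0 : Q = 0
            · have h5 : D - e = 0 := by
                rw [hQ0] at hQ
                have h6 : 4 * ((x - e1) * (x - e2) * (x - e3)) * (D - e) = 0 := by
                  rw [hQ]
                  ring
                exact (mul_eq_zero.1 h6).resolve_left (mul_ne_zero h40 hc0)
              rw [h5, ord_zero]
              exact ⟨by decide, le_rfl⟩
            · have h5 := (key e Q hQ hQ0).2
              rw [z1, z2, z3] at h5
              rw [h5]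
              refine ⟨⟨ord v Q, by ring⟩, by omega⟩
          have int0 : ∀ b c : M, 0 ≤ ord v b → 0 ≤ ord v c → ∀ T : M, 0 ≤ ord v T →
              0 ≤ ord v (T ^ 2 - b * c) := fun b c hb hc T hT =>
            sub_nonneg' v (pow_nonneg' v hT 2) (mul_nonneg' v hb hc)
          have w1 := even e1 _ hD1 (int0 _ _ u12.ge u13.ge _ g1)
          have w2 := even e2 _ hD2 (int0 _ _ (by rw [ord_neg]; exact u12.ge) u23.ge _ g2)
          have w3 := even e3 _ hD3 (int0 _ _ u13.ge u23.ge _ g3)
          have hDo : 0 ≤ ord v D := by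
            have := add_nonneg' v w1.2 h1'
            rwa [sub_add_cancel] at this
          have : zp p e1 e2 e3 D v = 0 := by
            unfold zp
            rw [om_two_even w1.1, om_two_even w2.1, om_two_even w3.1, hp.zero _ (by omega)]
            ring
          rw [this]
          exact fp_nonneg v hp _ _ _ _

/-- **the local inequality for the square root** -/
theorem loc_root {e1 e2 e3 x : M} (b1 : ord v e1 = 0) (b2 : ord v e2 = 0) (b3 : ord v e3 = 0)
    (ho : Odd (ord v (x - e1) + ord v (x - e2) + ord v (x - e3))) :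
    1 + p (2 * -ord v x) ≤ 2 * zp p e1 e2 e3 x v := by
  have r1 := om_nonneg two_ne_zero (ord v (x - e1))
  have r2 := om_nonneg two_ne_zero (ord v (x - e2))
  have r3 := om_nonneg two_ne_zero (ord v (x - e3))
  have r4 := hp.nonneg (-ord v x)
  unfold zp
  rcases lt_or_ge (ord v x) 0 with hneg | hge
  · have hx0 : x ≠ 0 := by
      rintro rfl
      rw [ord_zero] at hneg
      exact lt_irrefl _ hneg
    have hsub : ∀ b : M, ord v b = 0 → ord v (x - b) = ord v x := fun b hb' =>
      (ord_sub_eq v hx0 (Or.inr (by rw [hb']; exact hneg))).1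
    rw [hsub _ b1, hsub _ b2, hsub _ b3] at ho
    have ho' : Odd (-ord v x) := by
      rw [Int.odd_iff] at ho ⊢
      omega
    have h5 := hp.odd (-ord v x) (by omega) ho'
    linarith
  · have hsub : ∀ b : M, ord v b = 0 → 0 ≤ ord v (x - b) := fun b hb' =>
      sub_nonneg' v hge hb'.ge
    have g1 := hsub _ b1
    have g2 := hsub _ b2
    have g3 := hsub _ b3
    rw [hp.zero (2 * -ord v x) (by omega)]
    have h7 : Odd (ord v (x - e1)) ∨ Odd (ord v (x - e2)) ∨ Odd (ord v (x - e3)) := by
      rw [Int.odd_iff] at ho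
      rw [Int.odd_iff, Int.odd_iff, Int.odd_iff]
      omega
    rcases h7 with h7 | h7 | h7
    · have h8 : 0 < ord v (x - e1) := by
        rcases h7 with ⟨m, hm⟩
        omega
      have := om_two_odd h8 h7
      linarith
    · have h8 : 0 < ord v (x - e2) := by
        rcases h7 with ⟨m, hm⟩
        omega
      have := om_two_odd h8 h7
      linarith
    · have h8 : 0 < ord v (x - e3) := by
        rcases h7 with ⟨m, hm⟩
        omega
      have := om_two_odd h8 h7
      linarith

end loc

end Pool.Agent.H431.LF
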