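import Pool.Agent.H431.LF.Dup

/-!
# From the line with three points to an elliptic curve
-/

set_option autoImplicit false

namespace Pool.Agent.H431.LF

open NumberField IsDedekindDomain Height Pool.Agent.Q290.NF IntermediateField Pool.Agent.H431.OC

variable {k : Type} [Field k] [NumberField k]

/-- four points with the weights `p` -/
noncomputable def Fw (p : ℤ → ℝ) (e1 e2 e3 : k) : St k where
  pt _ _ _ _ _ _ := True
  wt M _ _ _ x := fp p (algebraMap k M e1) (algebraMap k M e2) (algebraMap k M e3) x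

/-- the weights `p` at `∞`, and three points of index `2` -/
noncomputable def Zw (p : ℤ → ℝ) (e1 e2 e3 : k) : St k where
  pt _ _ _ _ _ _ := True
  wt M _ _ _ x := zp p (algebraMap k M e1) (algebraMap k M e2) (algebraMap k M e3) x

/-- an elliptic curve with the weights `p` at infinity -/
noncomputable def El (p : ℤ → ℝ) (e1 e2 e3 : k) : St k where
  pt M _ _ _ _ x := ∃ w : M, (x - algebraMap k M e1) * (x - algebraMap k M e2) *
    (x - algebraMap k M e3) = w ^ 2
  wt _ _ _ _ x v := p (-ord v x)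

/-- linear maps -/
theorem go_lin {p : ℤ → ℝ} {lam : ℝ} (hp : Pw p lam) {e1 e2 : k} (e3 : k) (h12 : e1 ≠ e2)
    (κ : ℝ) : Go k (Ln k p) κ (Fw p e1 e2 e3) (κ + lam) := by
  classical
  obtain ⟨N, hN, HN⟩ := exists_bad ({e1, e2, e2 - e1} : Finset k)
  have hne : e2 - e1 ≠ 0 := sub_ne_zero.2 h12.symm
  obtain ⟨C1, hC1, H1⟩ := ht_shift e1
  obtain ⟨C3, hC3, H3⟩ := ht_shift e3
  obtain ⟨C2, hC2, H2⟩ := ht_scale (e2 - e1) hne
  have hlN : 0 ≤ Real.log N := Real.log_natCast_nonneg _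
  have hl0 := hp.lam_nonneg
  refine Go.same (c := lam * C3 + 4 * Real.log N + |κ| * (C1 + C2)) (by positivity)
    (fun n => n) ?_
  intro Ω _ _ _ n T hT
  refine ⟨T.image (fun τ => (τ - algebraMap k Ω e1) / (algebraMap k Ω e2 - algebraMap k Ω e1)),
    Finset.card_image_le.trans hT, ?_⟩
  intro M _ _ _ φ b t hb _ ht
  have hd : (0 : ℝ) ≤ Module.finrank ℚ M := Nat.cast_nonneg _
  have hbd := HN M
  have h1M := H1 M
  have h2M := H2 M t
  have h3M := H3 M
  obtain ⟨a1, ha1⟩ : ∃ a1 : M, a1 = algebraMap k M e1 := ⟨_, rfl⟩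
  obtain ⟨a2, ha2⟩ : ∃ a2 : M, a2 = algebraMap k M e2 := ⟨_, rfl⟩
  obtain ⟨a3, ha3⟩ : ∃ a3 : M, a3 = algebraMap k M e3 := ⟨_, rfl⟩
  rw [map_sub, ← ha1, ← ha2] at h2M
  rw [← ha1] at h1M
  rw [← ha3] at h3M
  have hn' : a2 - a1 ≠ 0 := by
    rw [ha2, ha1, ← map_sub]
    exact (map_ne_zero _).2 hne
  obtain ⟨x, hx⟩ : ∃ x, x = a1 + (a2 - a1) * t := ⟨_, rfl⟩
  have x1 : x - a1 = (a2 - a1) * t := by rw [hx]; ring
  have x2 : x - a2 = (a2 - a1) * (t - 1) := by rw [hx]; ring
  refine ⟨x, trivial, fun hxT => ht ?_, ?_⟩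
  · rw [Finset.mem_image]
    refine ⟨φ x, hxT, ?_⟩
    have e1 : φ a1 = algebraMap k Ω e1 := by rw [ha1, φ.commutes]
    have e2 : φ a2 = algebraMap k Ω e2 := by rw [ha2, φ.commutes]
    rw [← e1, ← e2, ← map_sub, ← map_sub, ← map_div₀, x1, mul_div_cancel_left₀ _ hn']
  have P2 := h1M x
  rw [x1] at P2
  have P3 := (h3M x).2
  have q1 := bw_bad (M := M) hN (B := 4) (by norm_num) hb (g := (Fw p e1 e2 e3).wt M x)
    (h := (Ln k p).wt M t) (u := fun v => lam * max 0 (ord v (x - a3) : ℝ))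
    (supp_fp hp _ _ _ _) (supp_Ln hp.zero t) (supp_smul _ (supp_zeros _)) (fun v hv _ => by
      have hb' := hbd v hv
      have c1 := hb' e1 (by simp)
      have c12 := hb' (e2 - e1) (by simp)
      rw [map_sub, ← ha2, ← ha1] at c12
      rw [← ha1] at c1
      have om1 : ∀ u : M, ord v ((a2 - a1) * u) = ord v u := by
        intro u
        by_cases hu : u = 0
        · rw [hu, mul_zero]
        · rw [ord_mul v hn' hu, c12, zero_add]
      have hpole : p (-ord v x) ≤ p (-ord v t) := by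
        rcases lt_or_ge (ord v x) 0 with hneg | hge
        · have hx0 : x ≠ 0 := by
            rintro h0
            rw [h0, ord_zero] at hneg
            exact lt_irrefl _ hneg
          have h5 := (ord_sub_eq v (y := a1) hx0 (Or.inr (by rw [c1]; exact hneg))).1
          rw [x1, om1] at h5
          rw [h5]
        · rw [hp.zero _ (by omega : -ord v x ≤ 0)]
          exact hp.nonneg _
      have h5 := hp.le_max (ord v (x - a3))
      show fp p (algebraMap k M e1) (algebraMap k M e2) (algebraMap k M e3) x v ≤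
        p (ord v t) + p (ord v (t - 1)) + p (-ord v t) + lam * max 0 (ord v (x - a3) : ℝ)
      unfold fp
      rw [← ha1, ← ha2, ← ha3, x1, x2, om1, om1]
      linarith) (fun v => fp_le v hp _ _ _ _) (fun v => by
      have r1 := hp.nonneg (ord v t)
      have r2 := hp.nonneg (ord v (t - 1))
      have r3 := hp.nonneg (-ord v t)
      show 0 ≤ p (ord v t) + p (ord v (t - 1)) + p (-ord v t)
      linarith) (fun v => mul_nonneg hl0 (le_max_left _ _))
  rw [sm_smul] at q1
  have q2 := mul_le_mul_of_nonneg_left ((zeros_le (x - a3)).trans P3) hl0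
  have F : κ * logHeight₁ t ≤ κ * logHeight₁ x + |κ| * (Module.finrank ℚ M * (C1 + C2)) := by
    refine abs_shift ?_ ?_ <;> linarith [P2.1, P2.2, h2M.1, h2M.2]
  unfold df
  have e3' : (Module.finrank ℚ M : ℝ) * (lam * C3 + 4 * Real.log N + |κ| * (C1 + C2)) =
      lam * (Module.finrank ℚ M * C3) + Module.finrank ℚ M * (4 * Real.log N) +
      |κ| * (Module.finrank ℚ M * (C1 + C2)) := by ring
  rw [e3']
  linarith

open Polynomial in
theorem excl_dup {Ω : Type} [Field Ω] [CharZero Ω] {T : Finset Ω} {n : ℕ} (hT : T.card ≤ n)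
    (e1 e2 e3 : Ω) (h12 : e2 - e1 ≠ 0) (h13 : e3 - e1 ≠ 0) :
    ∃ T' : Finset Ω, T'.card ≤ n * 4 + 3 ∧ e1 ∈ T' ∧ e2 ∈ T' ∧ e3 ∈ T' ∧ ∀ x D : Ω,
      4 * ((x - e1) * (x - e2) * (x - e3)) * (D - e1) =
        ((x - e1) ^ 2 - (e2 - e1) * (e3 - e1)) ^ 2 → D ∈ T → x ∈ T' := by
  classical
  obtain ⟨T1, hT1, H1⟩ := excl (T := T) 4 hT
    (fun τ => ((X - C e1) ^ 2 - C ((e2 - e1) * (e3 - e1))) ^ 2 -
      C (4 * (τ - e1)) * ((X - C e1) * (X - C e2) * (X - C e3))) (fun τ h => by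
        have h1 := congrArg (eval e1) h
        simp only [eval_sub, eval_pow, eval_X, eval_mul, eval_C, eval_zero] at h1
        have h2 : ((e2 - e1) * (e3 - e1)) ^ 2 = 0 := by
          linear_combination h1
        exact pow_ne_zero 2 (mul_ne_zero h12 h13) h2) (fun τ => by compute_degree)
  refine ⟨T1 ∪ {e1, e2, e3}, card_add hT1 Finset.card_le_three, by simp, by simp, by simp, ?_⟩
  intro x D hD hDT
  rw [Finset.mem_union]
  left
  refine H1 D hDT x ?_
  simp only [eval_sub, eval_pow, eval_X, eval_mul, eval_C]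
  linear_combination -hD

/-- **duplication** -/
theorem go_dup {p : ℤ → ℝ} {lam : ℝ} (hp : Pw p lam) {e1 e2 e3 : k} (h12 : e1 ≠ e2)
    (h13 : e1 ≠ e3) (h23 : e2 ≠ e3) {κ : ℝ} (hκ : 0 ≤ κ) :
    Go k (Fw p e1 e2 e3) (4 * κ) (Zw p e1 e2 e3) κ := by
  classical
  obtain ⟨N, hN, HN⟩ := exists_bad ({2, e1, e2, e3, e2 - e1, e3 - e1, e3 - e2} : Finset k)
  obtain ⟨Cd, hCd, Hd⟩ := ht_dup h12 h13 h23
  have hlN : 0 ≤ Real.log N := Real.log_natCast_nonneg _
  refine Go.same (c := κ * Cd + 4 * Real.log N) (by positivity) (fun n => n * 4 + 3) ?_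
  intro Ω _ _ _ n T hT
  have cΩ : CharZero Ω := charZero_of_injective_algebraMap (algebraMap k Ω).injective
  have injΩ := (algebraMap k Ω).injective
  obtain ⟨T', hT', m1', m2', m3', HT'⟩ := excl_dup hT (algebraMap k Ω e1) (algebraMap k Ω e2)
    (algebraMap k Ω e3) (sub_ne_zero.2 fun h => h12 (injΩ h.symm))
    (sub_ne_zero.2 fun h => h13 (injΩ h.symm))
  refine ⟨T', hT', ?_⟩
  intro M _ _ _ φ b x hb _ hx
  have hd : (0 : ℝ) ≤ Module.finrank ℚ M := Nat.cast_nonneg _
  have hbd := HN M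
  have hdp := Hd M x
  obtain ⟨a1, ha1⟩ : ∃ a1 : M, a1 = algebraMap k M e1 := ⟨_, rfl⟩
  obtain ⟨a2, ha2⟩ : ∃ a2 : M, a2 = algebraMap k M e2 := ⟨_, rfl⟩
  obtain ⟨a3, ha3⟩ : ∃ a3 : M, a3 = algebraMap k M e3 := ⟨_, rfl⟩
  rw [← ha1, ← ha2, ← ha3] at hdp
  have f1 : φ a1 = algebraMap k Ω e1 := by rw [ha1, φ.commutes]
  have f2 : φ a2 = algebraMap k Ω e2 := by rw [ha2, φ.commutes]
  have f3 : φ a3 = algebraMap k Ω e3 := by rw [ha3, φ.commutes]
  rw [← f1, ← f2, ← f3] at HT'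
  rw [← f1] at m1'
  rw [← f2] at m2'
  rw [← f3] at m3'
  have m1 : x - a1 ≠ 0 := fun h => hx (by rw [sub_eq_zero.1 h]; exact m1')
  have m2 : x - a2 ≠ 0 := fun h => hx (by rw [sub_eq_zero.1 h]; exact m2')
  have m3 : x - a3 ≠ 0 := fun h => hx (by rw [sub_eq_zero.1 h]; exact m3')
  have hc0 : (x - a1) * (x - a2) * (x - a3) ≠ 0 := mul_ne_zero (mul_ne_zero m1 m2) m3
  obtain ⟨D, hD⟩ : ∃ D, D = a1 + ((x - a1) ^ 2 - (a2 - a1) * (a3 - a1)) ^ 2 /
    (4 * ((x - a1) * (x - a2) * (x - a3))) := ⟨_, rfl⟩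
  have hD1 : 4 * ((x - a1) * (x - a2) * (x - a3)) * (D - a1) =
      ((x - a1) ^ 2 - (a2 - a1) * (a3 - a1)) ^ 2 := by
    rw [hD, add_sub_cancel_left]
    exact mul_div_cancel₀ _ (mul_ne_zero (by norm_num) hc0)
  refine ⟨D, trivial, fun hDT => hx (HT' (φ x) (φ D) ?_ hDT), ?_⟩
  · have := congrArg φ hD1
    simp only [map_mul, map_sub, map_pow, map_ofNat] at this
    exact this
  have P1 := hdp D m1 m2 m3 hD1
  have q1 := bw_bad (M := M) hN (B := 4) (by norm_num) hb (g := (Zw p e1 e2 e3).wt M D)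
    (h := (Fw p e1 e2 e3).wt M x) (u := fun _ => 0)
    (supp_zp hp _ _ _ _) (supp_fp hp _ _ _ _) supp_zero (fun v hv _ => by
      have hb' := hbd v hv
      have b2 := hb' 2 (by simp)
      have c1 := hb' e1 (by simp)
      have c2 := hb' e2 (by simp)
      have c3 := hb' e3 (by simp)
      have c12 := hb' (e2 - e1) (by simp)
      have c13 := hb' (e3 - e1) (by simp)
      have c23 := hb' (e3 - e2) (by simp)
      rw [map_ofNat] at b2
      rw [map_sub, ← ha2, ← ha1] at c12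
      rw [map_sub, ← ha3, ← ha1] at c13
      rw [map_sub, ← ha3, ← ha2] at c23
      rw [← ha1] at c1
      rw [← ha2] at c2
      rw [← ha3] at c3
      have n12 : a2 - a1 ≠ 0 := by
        rw [ha2, ha1, ← map_sub]
        exact (map_ne_zero _).2 (sub_ne_zero.2 h12.symm)
      have n13 : a3 - a1 ≠ 0 := by
        rw [ha3, ha1, ← map_sub]
        exact (map_ne_zero _).2 (sub_ne_zero.2 h13.symm)
      have n23 : a3 - a2 ≠ 0 := by
        rw [ha3, ha2, ← map_sub]
        exact (map_ne_zero _).2 (sub_ne_zero.2 h23.symm)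
      have := loc_dupp v hp b2 c1.ge c2.ge c3.ge n12 n13 n23 c12 c13 c23 m1 m2 m3 hD1
      show zp p (algebraMap k M e1) (algebraMap k M e2) (algebraMap k M e3) D v ≤
        fp p (algebraMap k M e1) (algebraMap k M e2) (algebraMap k M e3) x v + 0
      rw [← ha1, ← ha2, ← ha3, add_zero]
      exact this) (fun v => zp_le v hp _ _ _ _) (fun v => fp_nonneg v hp _ _ _ _)
    (fun v => le_rfl)
  rw [sm_zero, add_zero] at q1
  have q2 := mul_le_mul_of_nonneg_left P1 hκ
  unfold df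
  have e3' : (Module.finrank ℚ M : ℝ) * (κ * Cd + 4 * Real.log N) =
      κ * (Module.finrank ℚ M * Cd) + Module.finrank ℚ M * (4 * Real.log N) := by ring
  rw [e3']
  linarith

/-- **the square root** -/
theorem go_root {p : ℤ → ℝ} {lam : ℝ} (hp : Pw p lam) (e1 e2 e3 : k) (κ : ℝ) :
    Go k (Zw p e1 e2 e3) κ (El p e1 e2 e3) κ := by
  classical
  obtain ⟨N, hN, HN⟩ := exists_bad ({e1, e2, e3} : Finset k)
  have hl : 0 ≤ Real.log 2 := Real.log_nonneg (by norm_num)
  have hlN : 0 ≤ Real.log N := Real.log_natCast_nonneg _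
  refine ⟨2, Real.log N + 3 * Real.log 2, fun n => n + 3, by positivity, ?_⟩
  intro Ω _ _ _ n T hT
  refine ⟨T ∪ {algebraMap k Ω e1, algebraMap k Ω e2, algebraMap k Ω e3},
    card_add hT Finset.card_le_three, ?_⟩
  intro M _ _ _ φ b x hb _ hx
  rw [Finset.mem_union, not_or] at hx
  obtain ⟨hxT, hx3⟩ := hx
  simp only [Finset.mem_insert, Finset.mem_singleton, not_or] at hx3
  obtain ⟨n1, n2, n3⟩ := hx3
  obtain ⟨a1, ha1⟩ : ∃ a1 : M, a1 = algebraMap k M e1 := ⟨_, rfl⟩
  obtain ⟨a2, ha2⟩ : ∃ a2 : M, a2 = algebraMap k M e2 := ⟨_, rfl⟩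
  obtain ⟨a3, ha3⟩ : ∃ a3 : M, a3 = algebraMap k M e3 := ⟨_, rfl⟩
  have m1 : x - a1 ≠ 0 := fun h => n1 (by rw [sub_eq_zero.1 h, ha1, φ.commutes])
  have m2 : x - a2 ≠ 0 := fun h => n2 (by rw [sub_eq_zero.1 h, ha2, φ.commutes])
  have m3 : x - a3 ≠ 0 := fun h => n3 (by rw [sub_eq_zero.1 h, ha3, φ.commutes])
  obtain ⟨a, ha⟩ : ∃ a : M, a = (x - a1) * (x - a2) * (x - a3) := ⟨_, rfl⟩
  have ha0 : a ≠ 0 := by
    rw [ha]
    exact mul_ne_zero (mul_ne_zero m1 m2) m3
  have horda : ∀ v : HeightOneSpectrum (𝓞 M), ord v a = ord v (x - a1) + ord v (x - a2) +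
      ord v (x - a3) := by
    intro v
    rw [ha, ord_mul v (mul_ne_zero m1 m2) m3, ord_mul v m1 m2]
  obtain ⟨E, i1, i2, i3, z, hz, hdeg, hadj⟩ := exists_quad M a
  let _ : Algebra k E := ((algebraMap M E).comp (algebraMap k M)).toAlgebra
  have hst : IsScalarTower k M E := IsScalarTower.of_algebraMap_eq fun _ => rfl
  have htow : ∀ u : k, algebraMap k E u = algebraMap M E (algebraMap k M u) := fun u => rfl
  obtain ⟨ψ, hψ⟩ := ext_hom (k := k) (M := M) (E := E) Ω φ
  refine ⟨E, i1, i2, i3, inferInstance, hst, ψ, algebraMap M E x, hψ, hdeg, ?_, ?_, ?_⟩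
  · refine ⟨z, ?_⟩
    rw [hz, ha, ha1, ha2, ha3, htow, htow, htow, ← map_sub, ← map_sub, ← map_sub, ← map_mul,
      ← map_mul]
  · rw [hψ]
    exact hxT
  have q1 := bw_quad z a ha0 hz hadj hN (B := 1) le_rfl hb
    (f := (El p e1 e2 e3).wt E (algebraMap M E x)) (g := (Zw p e1 e2 e3).wt M x)
    (supp_p' hp.zero _) (supp_zp hp _ _ _ _) (fun w => hp.nonneg _)
    (fun w => hp.le_one _) (fun v => zp_nonneg v hp _ _ _ _) (by
      intro v w e he hv2 hvN _ hvw
      have ew : -ord w (algebraMap M E x) = (e : ℤ) * (-ord v x) := by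
        rw [hvw]
        ring
      have he1 : (1 : ℝ) ≤ e := by exact_mod_cast Nat.one_le_iff_ne_zero.2 he
      have hz0 := zp_nonneg v hp (algebraMap k M e1) (algebraMap k M e2) (algebraMap k M e3) x
      refine ⟨fun _ => ?_, fun ho he2 => ?_⟩
      · show p (-ord w (algebraMap M E x)) ≤
          e * zp p (algebraMap k M e1) (algebraMap k M e2) (algebraMap k M e3) x v
        rw [ew]
        have h3 := hp.mul_le e (-ord v x) he
        have h4 : p (-ord v x) ≤
            zp p (algebraMap k M e1) (algebraMap k M e2) (algebraMap k M e3) x v := by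
          have r1 := om_nonneg two_ne_zero (ord v (x - algebraMap k M e1))
          have r2 := om_nonneg two_ne_zero (ord v (x - algebraMap k M e2))
          have r3 := om_nonneg two_ne_zero (ord v (x - algebraMap k M e3))
          unfold zp
          linarith
        nlinarith
      · show 1 + p (-ord w (algebraMap M E x)) ≤
          2 * zp p (algebraMap k M e1) (algebraMap k M e2) (algebraMap k M e3) x v
        have hb' := HN M v hvN
        have b1 := hb' e1 (by simp)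
        have b2 := hb' e2 (by simp)
        have b3 := hb' e3 (by simp)
        rw [horda, ha1, ha2, ha3] at ho
        have := loc_root v hp b1 b2 b3 ho
        rw [ew, he2]
        exact_mod_cast this)
  obtain ⟨m, hm⟩ : ∃ m : ℝ, m = (Module.finrank M E : ℝ) := ⟨_, rfl⟩
  have hdE : (Module.finrank ℚ E : ℝ) = Module.finrank ℚ M * m := by
    rw [hm]
    exact_mod_cast (Module.finrank_mul_finrank ℚ M E).symm
  unfold df
  rw [ht_ext, ← hm, hdE]
  rw [← hm] at q1
  have e9 : m * (DD M + sm (bw b ((Zw p e1 e2 e3).wt M x)) +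
      Module.finrank ℚ M * (1 * Real.log N + (1 + 2) * Real.log 2)) =
      m * (DD M + sm (bw b ((Zw p e1 e2 e3).wt M x))) +
      Module.finrank ℚ M * m * (Real.log N + 3 * Real.log 2) := by ring
  rw [e9] at q1
  linarith

end Pool.Agent.H431.LF
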