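import Pool.Agent.H431.LF.Main

/-!
# A common base field, and descent to the field of definition
-/

set_option autoImplicit false

namespace Pool.Agent.H431.LF

open NumberField IsDedekindDomain Height Pool.Agent.Q290.NF IntermediateField Pool.Agent.H431.OC
open Pool.Agent.H431.MT

/-- a common base field -/
theorem common {K : Type} [Field K] [NumberField K] {n : ℕ}
    (Φ : Fin n → ∀ (k : Type) [Field k] [Algebra K k], St k) (κt : ℝ) (κ : Fin n → ℝ)
    (hex : ∀ (i : Fin n) (k : Type) [Field k] [NumberField k] [Algebra K k],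
      ∃ (F : Type) (_ : Field F) (_ : NumberField F) (_ : Algebra k F) (_ : Algebra K F)
        (_ : IsScalarTower K k F), Go F (T0 F) κt (Φ i F) (κ i))
    (hup : ∀ (i : Fin n) (k F : Type) [Field k] [NumberField k] [Field F] [NumberField F]
      [Algebra K k] [Algebra K F] [Algebra k F] [IsScalarTower K k F],
      Go k (T0 k) κt (Φ i k) (κ i) → Go F (T0 F) κt (Φ i F) (κ i)) :
    ∃ (k : Type) (_ : Field k) (_ : NumberField k) (_ : Algebra K k),
      ∀ i, Go k (T0 k) κt (Φ i k) (κ i) := by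
  classical
  have key : ∀ I : Finset (Fin n), ∃ (k : Type) (_ : Field k) (_ : NumberField k)
      (_ : Algebra K k), ∀ i ∈ I, Go k (T0 k) κt (Φ i k) (κ i) := by
    intro I
    induction I using Finset.induction_on with
    | empty =>
      exact ⟨K, inferInstance, inferInstance, Algebra.id K, fun i hi =>
        absurd hi (Finset.notMem_empty i)⟩
    | insert a I ha ih =>
      obtain ⟨k, i1, i2, i3, h⟩ := ih
      obtain ⟨F, j1, j2, j3, j4, j5, hF⟩ := hex a k
      refine ⟨F, j1, j2, j4, fun i hi => ?_⟩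
      by_cases hia : i = a
      · subst hia
        exact hF
      · exact hup i k F (h i (Finset.mem_of_mem_insert_of_ne hi hia))
  obtain ⟨k, i1, i2, i3, h⟩ := key Finset.univ
  exact ⟨k, i1, i2, i3, fun i => h i (Finset.mem_univ i)⟩

/-- points over extensions of bounded degree of `K` -/
theorem main_K {K : Type} [Field K] [NumberField K] {n : ℕ}
    (Φ : Fin n → ∀ (k : Type) [Field k] [Algebra K k], St k) {κt : ℝ} {κ : Fin n → ℝ}
    (hκt : 0 ≤ κt) (h1 : 1 < n * κt)
    (hreg : ∀ (i : Fin n) (k : Type) [Field k] [Algebra K k], Reg (Φ i k))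
    (hex : ∀ (i : Fin n) (k : Type) [Field k] [NumberField k] [Algebra K k],
      ∃ (F : Type) (_ : Field F) (_ : NumberField F) (_ : Algebra k F) (_ : Algebra K F)
        (_ : IsScalarTower K k F), Go F (T0 F) κt (Φ i F) (κ i))
    (hup : ∀ (i : Fin n) (k F : Type) [Field k] [NumberField k] [Field F] [NumberField F]
      [Algebra K k] [Algebra K F] [Algebra k F] [IsScalarTower K k F],
      Go k (T0 k) κt (Φ i k) (κ i) → Go F (T0 F) κt (Φ i F) (κ i)) (δ : ℕ) :
    ∃ r : ℕ, ∀ G : MvPolynomial (Fin n) K, G ≠ 0 → (∀ i, G.degreeOf i ≤ δ) → ∀ T : ℝ,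
      ∃ (k : Type) (_ : Field k) (_ : NumberField k) (_ : Algebra K k) (E : Type) (_ : Field E)
        (_ : NumberField E) (_ : Algebra k E) (_ : Algebra K E) (_ : IsScalarTower K k E) (b : E)
        (x : Fin n → E),
        b ≠ 0 ∧ Module.finrank K E ≤ r ∧ (∀ i, (Φ i k).pt E b (x i)) ∧
        MvPolynomial.aeval x G ≠ 0 ∧
        Module.finrank ℚ E * T + DD E + sm (bw b fun _ => 0) +
          ∑ i, sm (ow b ((Φ i k).wt E (x i))) ≤ ∑ i, κ i * logHeight₁ (x i) := by
  obtain ⟨k, i1, i2, i3, hgo⟩ := common Φ κt κ hex hup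
  obtain ⟨r, hr⟩ := main_k hκt h1 (fun i => hreg i k) hgo δ
  refine ⟨Module.finrank K k * r, fun G hG hδ T => ?_⟩
  have hGk : MvPolynomial.map (algebraMap K k) G ≠ 0 := by
    intro h
    exact hG (MvPolynomial.map_injective _ (algebraMap K k).injective (by rw [h, map_zero]))
  have hδk : ∀ i, (MvPolynomial.map (algebraMap K k) G).degreeOf i ≤ δ := by
    intro i
    classical
    refine le_trans ?_ (hδ i)
    rw [MvPolynomial.degreeOf_eq_sup, MvPolynomial.degreeOf_eq_sup]
    exact Finset.sup_mono (MvPolynomial.support_map_subset _ _)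
  obtain ⟨E, j1, j2, j3, b, x, hb, hdeg, hpt, hGx, hineq⟩ := hr _ hGk hδk T
  let _ : Algebra K E := ((algebraMap k E).comp (algebraMap K k)).toAlgebra
  have hst : IsScalarTower K k E := IsScalarTower.of_algebraMap_eq fun _ => rfl
  refine ⟨k, i1, i2, i3, E, j1, j2, j3, inferInstance, hst, b, x, hb, ?_, hpt, ?_, hineq⟩
  · rw [← Module.finrank_mul_finrank K k E]
    exact Nat.mul_le_mul_left _ hdeg
  · rw [MvPolynomial.aeval_map_algebraMap] at hGx
    exact hGx

theorem adjoin_top' {K M ι : Type} [Field K] [Field M] [Algebra K M] (P : ι → M) :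
    ∃ (L : IntermediateField K M) (Q : ι → L), (∀ i, (Q i : M) = P i) ∧
      adjoin K (Set.range Q) = ⊤ := by
  refine ⟨adjoin K (Set.range P), fun i => ⟨P i, subset_adjoin K _ ⟨i, rfl⟩⟩, fun i => rfl, ?_⟩
  apply IntermediateField.map_injective (adjoin K (Set.range P)).val
  rw [adjoin_map, ← AlgHom.fieldRange_eq_map, IntermediateField.fieldRange_val]
  congr 1
  ext y
  constructor
  · rintro ⟨-, ⟨i, rfl⟩, rfl⟩
    exact ⟨i, rfl⟩
  · rintro ⟨i, rfl⟩
    exact ⟨_, ⟨i, rfl⟩, rfl⟩

/-- **descent to the field of definition** -/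
theorem desc {L E : Type} [Field L] [NumberField L] [Field E] [NumberField E] [Algebra L E]
    {n : ℕ} {b : E} (hb : b ≠ 0) (W : Fin n → HeightOneSpectrum (𝓞 E) → ℝ)
    (hW : ∀ i, (Function.support (W i)).Finite) (hW0 : ∀ i w, 0 ≤ W i w)
    (B : Finset (HeightOneSpectrum (𝓞 L)))
    (hB : ∀ v ∈ B, ∀ w : HeightOneSpectrum (𝓞 E), w.asIdeal.LiesOver v.asIdeal →
      ∃ i, 1 ≤ W i w) {T : ℝ} (κ : Fin n → ℝ) (x : Fin n → L)
    (h : Module.finrank ℚ E * T + DD E + sm (bw b fun _ => 0) + ∑ i, sm (ow b (W i)) ≤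
      ∑ i, κ i * logHeight₁ (algebraMap L E (x i))) :
    Module.finrank ℚ L * T + DD L + ∑ v ∈ B, ell v ≤ ∑ i, κ i * logHeight₁ (x i) := by
  classical
  obtain ⟨g, hg⟩ : ∃ g : HeightOneSpectrum (𝓞 E) → ℝ, g = fun w => bw b (fun _ => 0) w +
    ∑ i, ow b (W i) w := ⟨_, rfl⟩
  have hs1 : (Function.support fun w : HeightOneSpectrum (𝓞 E) =>
      ∑ i, ow b (W i) w).Finite :=
    supp_sum Finset.univ (fun i w => ow b (W i) w) fun i _ => supp_ow (hW i)
  have hsum0 : ∀ w, 0 ≤ ∑ i, ow b (W i) w := fun w =>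
    Finset.sum_nonneg fun i _ => ow_nonneg (hW0 i) w
  have hgs : (Function.support g).Finite := by
    rw [hg]
    exact supp_add (supp_bw hb supp_zero) hs1
  have hg0 : ∀ w, 0 ≤ g w := by
    intro w
    rw [hg]
    exact add_nonneg (bw_nonneg (fun _ => le_rfl) w) (hsum0 w)
  have d1 := descent B g hgs hg0 (by
    intro v hv w hw
    obtain ⟨i, hi⟩ := hB v hv w hw
    rw [hg]
    show 1 ≤ bw b (fun _ => 0) w + ∑ i, ow b (W i) w
    by_cases h : ord w b = 0
    · have h1 : ow b (W i) w ≤ ∑ i, ow b (W i) w :=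
        Finset.single_le_sum (f := fun i => ow b (W i) w) (fun i _ => ow_nonneg (hW0 i) w)
          (Finset.mem_univ i)
      rw [ow_eq h] at h1
      have h2 := bw_nonneg (b := b) (g := fun _ => 0) (fun _ => le_rfl) w
      linarith
    · have h1 := hsum0 w
      rw [bw_one h]
      linarith)
  have d2 : sm g = sm (bw b fun _ => 0) + ∑ i, sm (ow b (W i)) := by
    rw [hg, sm_add (supp_bw hb supp_zero) hs1,
      sm_sum Finset.univ (fun i w => ow b (W i) w) fun i _ => supp_ow (hW i)]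
  obtain ⟨p, hp⟩ : ∃ p : ℝ, p = (Module.finrank L E : ℝ) := ⟨_, rfl⟩
  have hp0 : 0 < p := by
    rw [hp]
    exact_mod_cast Module.finrank_pos
  have hQE : (Module.finrank ℚ E : ℝ) = Module.finrank ℚ L * p := by
    rw [hp]
    exact_mod_cast (Module.finrank_mul_finrank ℚ L E).symm
  have e1 : ∑ i, κ i * logHeight₁ (algebraMap L E (x i)) =
      p * ∑ i, κ i * logHeight₁ (x i) := by
    rw [Finset.mul_sum]
    refine Finset.sum_congr rfl fun i _ => ?_
    rw [ht_ext, ← hp]
    ring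
  rw [e1, hQE] at h
  rw [← hp, d2] at d1
  have h2 : p * (Module.finrank ℚ L * T + DD L + ∑ v ∈ B, ell v) ≤
      p * ∑ i, κ i * logHeight₁ (x i) := by linarith
  exact le_of_mul_le_mul_left h2 hp0

end Pool.Agent.H431.LF
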