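import Pool.Agent.H431.LF.Pw

/-!
# The first step: local inequalities and heights
-/

set_option autoImplicit false

namespace Pool.Agent.H431.LF

open NumberField IsDedekindDomain Height Pool.Agent.Q290.NF IntermediateField Pool.Agent.H431.OC

theorem om4_four (n : ℤ) : om 4 (4 * n) = 0 := by
  have := om_self (l := 4) (by norm_num) n
  exact_mod_cast this

theorem om4_two (n : ℤ) : om 4 (2 * n) = om 2 n := om_double (r := 2) two_ne_zero n

section

variable {E : Type} [Field E] [NumberField E]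

/-- **the local inequality** -/
theorem loc_four (w : HeightOneSpectrum (𝓞 E)) {r s y x u : E} (h2 : ord w (2 : E) = 0)
    (hs0 : s ≠ 0) (hos : ord w s = 0) (hr : r ^ 2 = s) (h1 : 1 - s ≠ 0) (h1' : 1 + s ≠ 0)
    (hu : (1 - s) * (1 + s) = u ^ 2) (hy : y = 4 * r * (1 - s) / (1 + s) ^ 2)
    (hx : x = (1 + y) ^ 2 / (4 * y)) :
    wgt 4 4 4 x w ≤ 1 / 4 * max 0 (ord w (1 - s) : ℝ) := by
  have hone : ord w (1 : E) = 0 := ord_one w
  have two0 : (2 : E) ≠ 0 := two_ne_zero
  have f0 : (4 : E) ≠ 0 := by norm_num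
  have h4 : ord w (4 : E) = 0 := by
    have e : (4 : E) = 2 ^ 2 := by norm_num
    rw [e, ord_pow, h2, mul_zero]
  have hr0 : r ≠ 0 := by
    rintro rfl
    apply hs0
    rw [← hr]
    ring
  have hor : ord w r = 0 := by
    have h := ord_pow w r 2
    rw [hr, hos] at h
    push_cast at h
    omega
  have hu0 : u ≠ 0 := by
    rintro rfl
    have := mul_ne_zero h1 h1'
    rw [hu] at this
    exact this (by ring)
  have hy0 : y ≠ 0 := by
    rw [hy]
    exact div_ne_zero (mul_ne_zero (mul_ne_zero f0 hr0) h1) (pow_ne_zero 2 h1')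
  obtain ⟨α, hα⟩ : ∃ α, α = ord w (1 - s) := ⟨_, rfl⟩
  obtain ⟨β, hβ⟩ : ∃ β, β = ord w (1 + s) := ⟨_, rfl⟩
  have hα0 : 0 ≤ α := by
    rw [hα]
    exact sub_nonneg' w hone.ge hos.ge
  have hβ0 : 0 ≤ β := by
    rw [hβ]
    exact add_nonneg' w hone.ge hos.ge
  have hsum : α + β = 2 * ord w u := by
    rw [hα, hβ, ← ord_mul w h1 h1', hu, ord_pow]
    rfl
  have hoy : ord w y = α - 2 * β := by
    rw [hy, ord_div w (mul_ne_zero (mul_ne_zero f0 hr0) h1) (pow_ne_zero 2 h1'),
      ord_mul w (mul_ne_zero f0 hr0) h1, ord_mul w f0 hr0, h4, hor, ord_pow, hα, hβ]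
    push_cast
    ring
  have hx1 : x - 1 = (1 - y) ^ 2 / (4 * y) := by
    rw [hx]
    field_simp
    ring
  have h4y : ord w (4 * y) = ord w y := by rw [ord_mul w f0 hy0, h4, zero_add]
  have h4y0 : 4 * y ≠ 0 := mul_ne_zero f0 hy0
  have hox : 1 + y ≠ 0 → ord w x = 2 * ord w (1 + y) - ord w y := by
    intro h
    rw [hx, ord_div w (pow_ne_zero 2 h) h4y0, ord_pow, h4y]
    rfl
  have hox1 : 1 - y ≠ 0 → ord w (x - 1) = 2 * ord w (1 - y) - ord w y := by
    intro h
    rw [hx1, ord_div w (pow_ne_zero 2 h) h4y0, ord_pow, h4y]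
    rfl
  have hmx : (0 : ℝ) ≤ 1 / 4 * max 0 (ord w (1 - s) : ℝ) := by
    have := le_max_left (0 : ℝ) (ord w (1 - s) : ℝ)
    linarith
  have hflip : 0 < β → α = 0 := by
    intro h
    have h3 := (ord_sub_eq w (x := 2) (y := 1 + s) two0 (Or.inr (by rw [h2, ← hβ]; exact h))).1
    have e : (2 : E) - (1 + s) = 1 - s := by ring
    rw [e, h2] at h3
    rw [hα, h3]
  rcases lt_or_ge 0 β with hb | hb
  · -- a pole of `y`
    have ha := hflip hb
    have hyo : ord w y < 0 := by omega
    have p1 := ord_add_eq w (x := y) (y := 1) hy0 (Or.inr (by rw [hone]; exact hyo))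
    have p2 := ord_sub_eq w (x := y) (y := 1) hy0 (Or.inr (by rw [hone]; exact hyo))
    rw [add_comm] at p1
    have q1 := hox p1.2
    have n2 : 1 - y ≠ 0 := fun h => p2.2 (by linear_combination -h)
    have q2 := hox1 n2
    rw [p1.1] at q1
    rw [ord_sub_comm w 1 y, p2.1] at q2
    have q3 : -ord w x = 4 * ord w u := by omega
    unfold wgt
    rw [q3, om4_four, om_nonpos 4 (by omega : ord w x ≤ 0),
      om_nonpos 4 (by omega : ord w (x - 1) ≤ 0)]
    linarith
  · have hb0 : β = 0 := le_antisymm hb hβ0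
    rcases lt_or_ge 0 α with ha | ha
    · -- a zero of `y`
      have hyo : 0 < ord w y := by omega
      have p1 := ord_add_eq w (x := 1) (y := y) one_ne_zero (Or.inr (by rw [hone]; exact hyo))
      have p2 := ord_sub_eq w (x := 1) (y := y) one_ne_zero (Or.inr (by rw [hone]; exact hyo))
      have q1 := hox p1.2
      have q2 := hox1 p2.2
      rw [p1.1, hone] at q1
      rw [p2.1, hone] at q2
      have q3 : -ord w x = 2 * ord w u := by omega
      unfold wgt
      rw [q3, om4_two, om_nonpos 4 (by omega : ord w x ≤ 0),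
        om_nonpos 4 (by omega : ord w (x - 1) ≤ 0)]
      have h5 := om_two_le (ord w u)
      have h6 : (0 : ℝ) ≤ ord w u := by
        have : 0 ≤ ord w u := by omega
        exact_mod_cast this
      have h7 : (ord w (1 - s) : ℝ) = 2 * ord w u := by
        rw [← hα]
        have : α = 2 * ord w u := by omega
        rw [this]
        push_cast
        ring
      rw [max_eq_right h6] at h5
      rw [h7, max_eq_right (by linarith)]
      linarith
    · have ha0 : α = 0 := le_antisymm ha hα0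
      have hyo : ord w y = 0 := by omega
      have i1 : 0 ≤ ord w (1 + y) := add_nonneg' w hone.ge hyo.ge
      have i2 : 0 ≤ ord w (1 - y) := sub_nonneg' w hone.ge hyo.ge
      by_cases n1 : 1 + y = 0
      · have hx0 : x = 0 := by
          rw [hx, n1]
          ring
        unfold wgt
        rw [hx0, ord_zero, zero_sub, ord_neg, hone, om_nonpos 4 le_rfl,
          om_nonpos 4 (n := -0) (by simp)]
        linarith
      by_cases n2 : 1 - y = 0
      · have hx0 : x = 1 := by
          have h3 : x - 1 = 0 := by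
            rw [hx1, n2]
            ring
          linear_combination h3
        unfold wgt
        rw [hx0, sub_self, ord_zero, hone, om_nonpos 4 le_rfl, om_nonpos 4 (n := -0) (by simp)]
        linarith
      have q1 := hox n1
      have q2 := hox1 n2
      have hprod : (1 + y) * (1 - y) * (1 + s) ^ 4 = (1 - 6 * s + s ^ 2) ^ 2 := by
        have e1 : y * (1 + s) ^ 2 = 4 * r * (1 - s) := by
          rw [hy]
          field_simp
        linear_combination (-(y * (1 + s) ^ 2) - 4 * r * (1 - s)) * e1 -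
          16 * (1 - s) ^ 2 * hr
      have n3 : 1 - 6 * s + s ^ 2 ≠ 0 := by
        intro h
        rw [h] at hprod
        have : (1 + y) * (1 - y) * (1 + s) ^ 4 ≠ 0 :=
          mul_ne_zero (mul_ne_zero n1 n2) (pow_ne_zero 4 h1')
        exact this (by rw [hprod]; ring)
      have hq : ord w (1 + y) + ord w (1 - y) = 2 * ord w (1 - 6 * s + s ^ 2) := by
        have h3 : ord w ((1 + y) * (1 - y) * (1 + s) ^ 4) =
            ord w ((1 - 6 * s + s ^ 2) ^ 2) := by rw [hprod]
        rw [ord_mul w (mul_ne_zero n1 n2) (pow_ne_zero 4 h1'), ord_mul w n1 n2, ord_pow, ord_pow,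
          ← hβ, hb0] at h3
        push_cast at h3
        omega
      have hfl : 0 < ord w (1 + y) → ord w (1 - y) = 0 := by
        intro h
        have h3 := (ord_sub_eq w (x := 2) (y := 1 + y) two0 (Or.inr (by rw [h2]; exact h))).1
        have e : (2 : E) - (1 + y) = 1 - y := by ring
        rw [e, h2] at h3
        exact h3
      unfold wgt
      rcases lt_or_ge 0 (ord w (1 + y)) with h3 | h3
      · have h4' := hfl h3
        have q3 : ord w x = 4 * ord w (1 - 6 * s + s ^ 2) := by omega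
        rw [om_nonpos 4 (by omega : ord w (x - 1) ≤ 0), om_nonpos 4 (by omega : -ord w x ≤ 0),
          q3, om4_four]
        linarith
      · have h4' : ord w (1 + y) = 0 := le_antisymm h3 i1
        have q3 : ord w (x - 1) = 4 * ord w (1 - 6 * s + s ^ 2) := by omega
        rw [om_nonpos 4 (by omega : ord w x ≤ 0), om_nonpos 4 (by omega : -ord w x ≤ 0),
          q3, om4_four]
        linarith

end

/-- **the heights** -/
theorem ht_four : ∃ C : ℝ, 0 ≤ C ∧ ∀ (E : Type) [Field E] [NumberField E] (r s y x t : E),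
    s ≠ 0 → r ^ 2 = s → 1 - s ≠ 0 → 1 + s ≠ 0 → s ^ 2 = 4 * t * (1 - t) →
    y = 4 * r * (1 - s) / (1 + s) ^ 2 → x = (1 + y) ^ 2 / (4 * y) →
    4 * logHeight₁ s ≤ logHeight₁ x + Module.finrank ℚ E * C ∧
    logHeight₁ t ≤ logHeight₁ s + Module.finrank ℚ E * C := by
  obtain ⟨C, hC, H⟩ := ht_jouk (k := ℚ) 1 one_ne_zero
  have hl : 0 ≤ Real.log 2 := Real.log_nonneg (by norm_num)
  refine ⟨3 * C + 40 * Real.log 2, by positivity, fun E _ _ r s y x t hs0 hr h1 h1' hst hy hx => ?_⟩
  have f0 : (4 : E) ≠ 0 := by norm_num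
  have hr0 : r ≠ 0 := by
    rintro rfl
    apply hs0
    rw [← hr]
    ring
  have hy0 : y ≠ 0 := by
    rw [hy]
    exact div_ne_zero (mul_ne_zero (mul_ne_zero f0 hr0) h1) (pow_ne_zero 2 h1')
  have hl2 := height_two' E
  have hl4 : logHeight₁ (4 : E) = 2 * logHeight₁ (2 : E) := by
    have : (4 : E) = 2 ^ 2 := by norm_num
    rw [this, logHeight₁_pow]
    push_cast
    ring
  have hl8 : logHeight₁ (8 : E) = 3 * logHeight₁ (2 : E) := by
    have : (8 : E) = 2 ^ 3 := by norm_num
    rw [this, logHeight₁_pow]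
    push_cast
    ring
  obtain ⟨d, hd⟩ : ∃ d : ℝ, d = Module.finrank ℚ E * Real.log 2 := ⟨_, rfl⟩
  have hd0 : 0 ≤ d := by
    rw [hd]
    positivity
  obtain ⟨dc, hdc⟩ : ∃ dc : ℝ, dc = Module.finrank ℚ E * C := ⟨_, rfl⟩
  have hdc0 : 0 ≤ dc := by
    rw [hdc]
    positivity
  -- the second claim
  have a1 := ht_half_add (2 * t - 1)
  have e1 : (1 + (2 * t - 1)) / 2 = t := by ring
  rw [e1] at a1
  have a2 : 2 * logHeight₁ (2 * t - 1) = logHeight₁ ((2 * t - 1) ^ 2) := by
    rw [logHeight₁_pow]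
    push_cast
    ring
  have a3 := ht_sub (1 : E) (s ^ 2)
  have e2 : 1 - s ^ 2 = (2 * t - 1) ^ 2 := by
    rw [hst]
    ring
  rw [logHeight₁_one, e2, logHeight₁_pow s 2] at a3
  push_cast at a3
  -- the first claim
  have b1 := H E s hs0
  have b2 := H E y hy0
  rw [map_one] at b1 b2
  obtain ⟨U, hU⟩ : ∃ U, U = s + 1 / s + 2 := ⟨_, rfl⟩
  have hU0 : U ≠ 0 := by
    have : U * s = (1 + s) ^ 2 := by
      rw [hU]
      field_simp
      ring
    intro h
    rw [h, zero_mul] at this
    exact pow_ne_zero 2 h1' this.symm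
  have b3 := ht_sub U (2 : E)
  have e3 : U - 2 = s + 1 / s := by
    rw [hU]
    ring
  rw [e3] at b3
  have b4 : logHeight₁ U = logHeight₁ U⁻¹ := (logHeight₁_inv U).symm
  have b5 := ht_div (8 * U⁻¹ - 1 + 1) (8 : E)
  have e4 : (8 * U⁻¹ - 1 + 1) / 8 = U⁻¹ := by
    ring
  rw [e4] at b5
  have b6 := ht_add (8 * U⁻¹ - 1) (1 : E)
  rw [logHeight₁_one] at b6
  have e5 : (8 * U⁻¹ - 1) ^ 2 = 1 - y ^ 2 := by
    have hUs : U = (1 + s) ^ 2 / s := by
      rw [hU]
      field_simp
      ring
    have h3 : y ^ 2 = 16 * s * (1 - s) ^ 2 / (1 + s) ^ 4 := by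
      rw [hy, ← hr]
      field_simp
      ring
    rw [hUs, h3]
    field_simp
    ring
  have b7 : 2 * logHeight₁ (8 * U⁻¹ - 1) = logHeight₁ (1 - y ^ 2) := by
    rw [← e5, logHeight₁_pow]
    push_cast
    ring
  have b8 := ht_sub (1 : E) (y ^ 2)
  rw [logHeight₁_one, logHeight₁_pow y 2] at b8
  push_cast at b8
  have b9 := ht_sub (4 * x) (2 : E)
  have e6 : 4 * x - 2 = y + 1 / y := by
    rw [hx]
    field_simp
    ring
  rw [e6] at b9
  have b10 := ht_mul (4 : E) x
  rw [← hdc] at b1 b2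
  rw [← hd] at a3 b3 b6 b8 b9
  have a1' : logHeight₁ t ≤ logHeight₁ (2 * t - 1) + 2 * d := by
    rw [hd]
    linarith
  have hl2' : logHeight₁ (2 : E) ≤ d := by
    rw [hd]
    exact hl2
  have e7 : (Module.finrank ℚ E : ℝ) * (3 * C + 40 * Real.log 2) = 3 * dc + 40 * d := by
    rw [hd, hdc]
    ring
  rw [e7]
  constructor <;> linarith

end Pool.Agent.H431.LF
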