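import Pool.Agent.H431.LF.Curve2

/-!
# Lifting all coordinates
-/

set_option autoImplicit false

namespace Pool.Agent.H431.LF

open NumberField IsDedekindDomain Height Pool.Agent.Q290.NF IntermediateField Pool.Agent.H431.OC

section ow

variable {M : Type} [Field M] [NumberField M]

/-- the weights `g` outside the primes at which `b` is not a unit -/
noncomputable def ow (b : M) (g : HeightOneSpectrum (𝓞 M) → ℝ) (v : HeightOneSpectrum (𝓞 M)) : ℝ :=
  if ord v b = 0 then g v else 0

theorem ow_eq {b : M} {g : HeightOneSpectrum (𝓞 M) → ℝ} {v : HeightOneSpectrum (𝓞 M)}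
    (h : ord v b = 0) : ow b g v = g v := if_pos h

theorem ow_zero {b : M} {g : HeightOneSpectrum (𝓞 M) → ℝ} {v : HeightOneSpectrum (𝓞 M)}
    (h : ord v b ≠ 0) : ow b g v = 0 := if_neg h

theorem supp_ow {b : M} {g : HeightOneSpectrum (𝓞 M) → ℝ}
    (hg : (Function.support g).Finite) : (Function.support (ow b g)).Finite := by
  refine hg.subset fun v hv => ?_
  by_cases h : ord v b = 0
  · rw [Function.mem_support, ow_eq h] at hv
    exact hv
  · rw [Function.mem_support, ow_zero h] at hv
    exact absurd rfl hv

theorem ow_nonneg {b : M} {g : HeightOneSpectrum (𝓞 M) → ℝ} (h : ∀ v, 0 ≤ g v)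
    (v : HeightOneSpectrum (𝓞 M)) : 0 ≤ ow b g v := by
  unfold ow
  split_ifs
  · exact h v
  · exact le_rfl

theorem sm_bw {b : M} (hb : b ≠ 0) {g : HeightOneSpectrum (𝓞 M) → ℝ}
    (hg : (Function.support g).Finite) :
    sm (bw b g) = sm (bw b fun _ => 0) + sm (ow b g) := by
  rw [← sm_add (supp_bw hb supp_zero) (supp_ow hg)]
  congr 1
  funext v
  by_cases h : ord v b = 0
  · rw [bw_eq h, bw_eq h, ow_eq h]
    ring
  · rw [bw_one h, bw_one h, ow_zero h]
    ring

end ow

/-- regular stages -/
structure Reg {k : Type} [Field k] (S : St k) : Prop where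
  supp : ∀ (M : Type) [Field M] [NumberField M] [Algebra k M] (x : M),
    (Function.support (S.wt M x)).Finite
  nonneg : ∀ (M : Type) [Field M] [NumberField M] [Algebra k M] (x : M)
    (v : HeightOneSpectrum (𝓞 M)), 0 ≤ S.wt M x v
  ext : ∀ (M E : Type) [Field M] [NumberField M] [Field E] [NumberField E] [Algebra k M]
    [Algebra k E] [Algebra M E] [IsScalarTower k M E] (x : M) (v : HeightOneSpectrum (𝓞 M))
    (w : HeightOneSpectrum (𝓞 E)) (e : ℕ), e ≠ 0 →
    (∀ z : M, ord w (algebraMap M E z) = e * ord v z) →
    S.wt E (algebraMap M E x) w ≤ e * S.wt M x v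
  pt : ∀ (M E : Type) [Field M] [NumberField M] [Field E] [NumberField E] [Algebra k M]
    [Algebra k E] [Algebra M E] [IsScalarTower k M E] (b x : M), S.pt M b x →
    S.pt E (algebraMap M E b) (algebraMap M E x)

theorem Reg.sm_ext {k : Type} [Field k] {S : St k} (hS : Reg S) {M E : Type} [Field M]
    [NumberField M] [Field E] [NumberField E] [Algebra k M] [Algebra k E] [Algebra M E]
    [IsScalarTower k M E] (b x : M) :
    sm (ow (algebraMap M E b) (S.wt E (algebraMap M E x))) ≤
      Module.finrank M E * sm (ow b (S.wt M x)) := by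
  refine Pool.Agent.H431.OC.sm_ext (supp_ow (hS.supp E _)) (supp_ow (hS.supp M _))
    (ow_nonneg (hS.nonneg M x)) fun v w e he hvw => ?_
  by_cases h : ord v b = 0
  · rw [ow_eq h, ow_eq (by rw [hvw, h, mul_zero])]
    exact hS.ext M E x v w e he hvw
  · have he' : (e : ℤ) ≠ 0 := by exact_mod_cast he
    rw [ow_zero h, ow_zero (by rw [hvw]; exact mul_ne_zero he' h), mul_zero]

theorem T0_ext {k : Type} [Field k] {M E : Type} [Field M] [NumberField M] [Field E]
    [NumberField E] [Algebra k M] [Algebra k E] [Algebra M E] {b t : M}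
    (h : (T0 k).pt M b t) : (T0 k).pt E (algebraMap M E b) (algebraMap M E t) := by
  obtain ⟨h0, h1, ⟨κ, κ', h2, h3⟩, h4⟩ := h
  have inj := (algebraMap M E).injective
  refine ⟨(map_ne_zero _).2 h0, fun h => h1 (inj (by rw [h, map_one])),
    ⟨algebraMap M E κ, algebraMap M E κ', by rw [← map_pow, h2], by rw [← map_pow, h3, map_sub,
      map_one]⟩, ?_⟩
  intro w hw2 hwb
  obtain ⟨v, e, he, hvw⟩ := below (M := M) w
  have he' : (e : ℤ) ≠ 0 := by exact_mod_cast he
  have hv2 : ord v (2 : M) = 0 := by
    have := hvw 2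
    rw [map_ofNat, hw2] at this
    exact (mul_eq_zero.1 this.symm).resolve_left he'
  have hvb : ord v b = 0 := by
    have := hvw b
    rw [hwb] at this
    exact (mul_eq_zero.1 this.symm).resolve_left he'
  obtain ⟨h5, h6⟩ := h4 v hv2 hvb
  refine ⟨by rw [hvw, h5, mul_zero], ?_⟩
  have e1 : algebraMap M E t - 1 = algebraMap M E (t - 1) := by rw [map_sub, map_one]
  rw [e1, hvw, h6, mul_zero]

open Polynomial in
/-- the values of one coordinate at which a polynomial vanishes -/
theorem uni {Ω : Type} [Field Ω] {n : ℕ} (G : MvPolynomial (Fin n) Ω) {δ : ℕ}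
    (hδ : ∀ i, G.degreeOf i ≤ δ) (z : Fin n → Ω) (hz : MvPolynomial.eval z G ≠ 0) (i : Fin n) :
    ∃ T : Finset Ω, T.card ≤ δ ∧ ∀ c, c ∉ T →
      MvPolynomial.eval (Function.update z i c) G ≠ 0 := by
  classical
  obtain ⟨g, hg⟩ : ∃ g : Polynomial Ω, g = MvPolynomial.eval₂ (C : Ω →+* Polynomial Ω)
    (Function.update (fun j => C (z j)) i X) G := ⟨_, rfl⟩
  have hev : ∀ c, g.eval c = MvPolynomial.eval (Function.update z i c) G := by
    intro c
    rw [hg, ← coe_evalRingHom, MvPolynomial.hom_eval₂, ← MvPolynomial.eval₂_id]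
    congr 1
    · ext y
      simp
    · funext j
      by_cases hj : j = i
      · subst hj
        simp
      · simp [Function.update_of_ne hj]
  have hdeg : g.natDegree ≤ δ := by
    rw [hg, MvPolynomial.eval₂_eq']
    refine natDegree_sum_le_of_forall_le _ _ fun a ha => ?_
    refine (natDegree_C_mul_le _ _).trans ?_
    refine (natDegree_prod_le _ _).trans ?_
    have h1 : ∀ j : Fin n, ((Function.update (fun j => C (z j)) i X j : Polynomial Ω) ^ a j).natDegree ≤
        if j = i then a i else 0 := by
      intro j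
      by_cases hj : j = i
      · subst hj
        rw [if_pos rfl, Function.update_self, natDegree_X_pow]
      · rw [if_neg hj, Function.update_of_ne hj, ← C_pow, natDegree_C]
    refine (Finset.sum_le_sum fun j _ => h1 j).trans ?_
    rw [Finset.sum_ite_eq' Finset.univ i, if_pos (Finset.mem_univ i)]
    exact (MvPolynomial.monomial_le_degreeOf i ha).trans (hδ i)
  have hg0 : g ≠ 0 := by
    intro h
    apply hz
    have := hev (z i)
    rw [h, eval_zero, Function.update_eq_self] at this
    exact this.symm
  refine ⟨g.roots.toFinset, (Multiset.toFinset_card_le _).trans ((card_roots' _).trans hdeg),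
    fun c hc h => hc ?_⟩
  rw [Multiset.mem_toFinset, mem_roots hg0]
  show g.eval c = 0
  rw [hev c, h]

/-- **lifting all coordinates** -/
theorem lift_all {k : Type} [Field k] [NumberField k] {n : ℕ} {S : Fin n → St k}
    {κ : Fin n → ℝ} {κt : ℝ} (hκt : 0 ≤ κt) (hS : ∀ i, Reg (S i)) (δ : ℕ)
    (hgo : ∀ i, Go k (T0 k) κt (S i) (κ i)) :
    ∃ (D J : ℕ) (C : ℝ), 0 ≤ C ∧ ∀ (Ω : Type) [Field Ω] [IsAlgClosed Ω] [Algebra k Ω]
      (G : MvPolynomial (Fin n) Ω) (z0 : Fin n → Ω), MvPolynomial.eval z0 G ≠ 0 →
      (∀ i, G.degreeOf i ≤ δ) →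
      ∀ (M : Type) [Field M] [NumberField M] [Algebra k M] (_ : M →ₐ[k] Ω) (b : M), b ≠ 0 →
      ∀ (t : Fin J → M), Function.Injective t → (∀ j, (T0 k).pt M b (t j)) →
      ∀ H0 : ℝ, (∀ j, Module.finrank ℚ M * H0 ≤ logHeight₁ (t j)) →
      ∃ (E : Type) (_ : Field E) (_ : NumberField E) (_ : Algebra M E) (_ : Algebra k E)
        (_ : IsScalarTower k M E) (ψ : E →ₐ[k] Ω) (x : Fin n → E),
        Module.finrank M E ≤ D ∧ (∀ i, (S i).pt E (algebraMap M E b) (x i)) ∧
        MvPolynomial.eval (fun i => ψ (x i)) G ≠ 0 ∧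
        Module.finrank M E * (n * κt * (Module.finrank ℚ M * H0) - DD M -
          sm (bw b fun _ => 0)) ≤
        ∑ i, (κ i * logHeight₁ (x i) - sm (ow (algebraMap M E b) ((S i).wt E (x i)))) - DD E -
          sm (bw (algebraMap M E b) fun _ => 0) + Module.finrank ℚ E * C := by
  classical
  choose m c f hc0 H using hgo
  obtain ⟨J, hJ⟩ : ∃ J, J = ∑ i, f i δ + 1 := ⟨_, rfl⟩
  refine ⟨∏ i, m i, J, ∑ i, c i, Finset.sum_nonneg fun i _ => hc0 i, ?_⟩
  intro Ω _ _ _ G z0 hz0 hδ M _ _ _ φ b hb t ht hpt H0 hH
  have key : ∀ I : Finset (Fin n),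
      ∃ (E : Type) (_ : Field E) (_ : NumberField E) (_ : Algebra M E) (_ : Algebra k E)
        (_ : IsScalarTower k M E) (ψ : E →ₐ[k] Ω) (x : Fin n → E),
        (∀ y : M, ψ (algebraMap M E y) = φ y) ∧
        Module.finrank M E ≤ ∏ i ∈ I, m i ∧
        (∀ i ∈ I, (S i).pt E (algebraMap M E b) (x i)) ∧
        MvPolynomial.eval (fun i => if i ∈ I then ψ (x i) else z0 i) G ≠ 0 ∧
        Module.finrank M E * (I.card * κt * (Module.finrank ℚ M * H0) - DD M -
          sm (bw b fun _ => 0)) ≤
        ∑ i ∈ I, (κ i * logHeight₁ (x i) -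
          sm (ow (algebraMap M E b) ((S i).wt E (x i)))) - DD E -
          sm (bw (algebraMap M E b) fun _ => 0) + Module.finrank ℚ E * ∑ i ∈ I, c i := by
    intro I
    induction I using Finset.induction_on with
    | empty =>
      refine ⟨M, inferInstance, inferInstance, Algebra.id M, inferInstance, ?_, φ, fun _ => 0,
        fun _ => rfl, ?_, ?_, ?_, ?_⟩
      · exact IsScalarTower.of_algebraMap_eq fun _ => rfl
      · rw [Module.finrank_self, Finset.prod_empty]
      · intro i hi
        exact absurd hi (Finset.notMem_empty i)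
      · simpa using hz0
      · rw [Module.finrank_self, Finset.sum_empty, Finset.sum_empty, Finset.card_empty]
        have e1 : algebraMap M M b = b := rfl
        rw [e1]
        push_cast
        linarith
    | insert a I ha ih =>
      obtain ⟨E, i1, i2, i3, i4, i5, ψ, x, hψ, hdeg, hptx, hG, hineq⟩ := ih
      obtain ⟨T, hT, hTG⟩ := uni G hδ _ hG a
      obtain ⟨T', hT', H'⟩ := H a Ω δ T hT
      -- the choice of the point of the tower
      obtain ⟨j, hj⟩ : ∃ j, φ (t j) ∉ T' := by
        by_contra hcon
        push Not at hcon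
        have h1 : (Finset.univ.image fun j => φ (t j)) ⊆ T' := by
          intro y hy
          rw [Finset.mem_image] at hy
          obtain ⟨j, -, rfl⟩ := hy
          exact hcon j
        have h2 := Finset.card_le_card h1
        have hinj : Function.Injective fun j => φ (t j) := fun a b h =>
          ht (φ.toRingHom.injective h)
        rw [Finset.card_image_of_injective _ hinj, Finset.card_univ, Fintype.card_fin] at h2
        have h3 : f a δ ≤ ∑ i, f i δ :=
          Finset.single_le_sum (f := fun i => f i δ) (fun _ _ => Nat.zero_le _)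
            (Finset.mem_univ a)
        omega
      have hbE : algebraMap M E b ≠ 0 := (map_ne_zero _).2 hb
      obtain ⟨F, j1, j2, j3, j4, j5, χ, y, hχ, hdegF, hpty, hyT, hdf⟩ :=
        H' E ψ (algebraMap M E b) (algebraMap M E (t j)) hbE (T0_ext (k := k) (hpt j))
          (by rw [hψ]; exact hj)
      let _ : Algebra M F := ((algebraMap E F).comp (algebraMap M E)).toAlgebra
      have hstM : IsScalarTower M E F := IsScalarTower.of_algebraMap_eq fun _ => rfl
      have hstk : IsScalarTower k M F := IsScalarTower.of_algebraMap_eq fun z => by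
        rw [IsScalarTower.algebraMap_apply k E F, IsScalarTower.algebraMap_apply k M E]
        rfl
      have hbF : algebraMap M F b = algebraMap E F (algebraMap M E b) := rfl
      have hbF0 : algebraMap E F (algebraMap M E b) ≠ 0 := (map_ne_zero _).2 hbE
      refine ⟨F, j1, j2, inferInstance, j4, hstk, χ,
        Function.update (fun i => algebraMap E F (x i)) a y, ?_, ?_, ?_, ?_, ?_⟩
      · intro u
        have : algebraMap M F u = algebraMap E F (algebraMap M E u) := rfl
        rw [this, hχ, hψ]
      · rw [← Module.finrank_mul_finrank M E F, Finset.prod_insert ha, mul_comm]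
        exact Nat.mul_le_mul hdegF hdeg
      · intro i hi
        by_cases hia : i = a
        · subst hia
          rw [Function.update_self]
          exact hpty
        · rw [Function.update_of_ne hia]
          have hiI : i ∈ I := Finset.mem_of_mem_insert_of_ne hi hia
          exact (hS i).pt E F _ _ (hptx i hiI)
      · have h1 := hTG (χ y) hyT
        convert h1 using 3
        funext i
        by_cases hia : i = a
        · subst hia
          rw [if_pos (Finset.mem_insert_self _ _), Function.update_self, Function.update_self]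
        · rw [Function.update_of_ne hia, Function.update_of_ne hia, hχ]
          by_cases hiI : i ∈ I
          · rw [if_pos hiI, if_pos (Finset.mem_insert_of_mem hiI)]
          · rw [if_neg hiI, if_neg fun h => hiI (Finset.mem_of_mem_insert_of_ne h hia)]
      · rw [Finset.sum_insert ha, Finset.sum_insert ha, Finset.card_insert_of_notMem ha,
          Function.update_self]
        have e1 : ∑ i ∈ I, (κ i * logHeight₁ (Function.update (fun i => algebraMap E F (x i))
            a y i) - sm (ow (algebraMap M F b) ((S i).wt F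
              (Function.update (fun i => algebraMap E F (x i)) a y i)))) =
            ∑ i ∈ I, (κ i * logHeight₁ (algebraMap E F (x i)) - sm (ow (algebraMap M F b)
              ((S i).wt F (algebraMap E F (x i))))) := by
          refine Finset.sum_congr rfl fun i hi => ?_
          rw [Function.update_of_ne fun h => ha (by rw [← h]; exact hi)]
        rw [e1]
        obtain ⟨q, hq⟩ : ∃ q : ℝ, q = (Module.finrank E F : ℝ) := ⟨_, rfl⟩
        obtain ⟨p, hp⟩ : ∃ p : ℝ, p = (Module.finrank M E : ℝ) := ⟨_, rfl⟩
        have hq0 : 0 ≤ q := by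
          rw [hq]
          exact Nat.cast_nonneg _
        have hp0 : 0 ≤ p := by
          rw [hp]
          exact Nat.cast_nonneg _
        have hMF : (Module.finrank M F : ℝ) = p * q := by
          rw [hp, hq]
          exact_mod_cast (Module.finrank_mul_finrank M E F).symm
        have hQF : (Module.finrank ℚ F : ℝ) = Module.finrank ℚ E * q := by
          rw [hq]
          exact_mod_cast (Module.finrank_mul_finrank ℚ E F).symm
        have h2 : q * ∑ i ∈ I, (κ i * logHeight₁ (x i) -
            sm (ow (algebraMap M E b) ((S i).wt E (x i)))) ≤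
            ∑ i ∈ I, (κ i * logHeight₁ (algebraMap E F (x i)) - sm (ow (algebraMap M F b)
              ((S i).wt F (algebraMap E F (x i))))) := by
          rw [Finset.mul_sum]
          refine Finset.sum_le_sum fun i _ => ?_
          have h3 := (hS i).sm_ext (M := E) (E := F) (algebraMap M E b) (x i)
          rw [hbF, ht_ext, ← hq]
          rw [← hq] at h3
          linarith
        unfold df at hdf
        rw [sm_bw hbF0 ((hS a).supp F y), ht_ext, ← hp, ← hq] at hdf
        have e2 : sm (bw (algebraMap M E b) ((T0 k).wt E (algebraMap M E (t j)))) =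
          sm (bw (algebraMap M E b) fun _ => 0) := rfl
        rw [e2] at hdf
        rw [← hp] at hineq
        rw [← hbF, hQF] at hdf
        rw [hMF, hQF]
        have h4 := mul_le_mul_of_nonneg_left hineq hq0
        have h5 := mul_le_mul_of_nonneg_left (hH j) (mul_nonneg hq0 (mul_nonneg hκt hp0))
        push_cast
        nlinarith
  obtain ⟨E, i1, i2, i3, i4, i5, ψ, x, -, hdeg, hptx, hG, hineq⟩ := key Finset.univ
  refine ⟨E, i1, i2, i3, i4, i5, ψ, x, hdeg, fun i => hptx i (Finset.mem_univ i), ?_, ?_⟩
  · simpa using hG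
  · rw [Finset.card_univ, Fintype.card_fin] at hineq
    exact hineq

end Pool.Agent.H431.LF
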