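import Pool.Agent.H431.LF.Tow

/-!
# Points of bounded degree outside hypersurfaces
-/

set_option autoImplicit false

namespace Pool.Agent.H431.LF

open NumberField IsDedekindDomain Height Pool.Agent.Q290.NF IntermediateField Pool.Agent.H431.OC
open Pool.Agent.H431.MT

theorem main_k {k : Type} [Field k] [NumberField k] {n : ℕ} {S : Fin n → St k}
    {κ : Fin n → ℝ} {κt : ℝ} (hκt : 0 ≤ κt) (h1 : 1 < n * κt) (hS : ∀ i, Reg (S i))
    (hgo : ∀ i, Go k (T0 k) κt (S i) (κ i)) (δ : ℕ) :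
    ∃ r : ℕ, ∀ G : MvPolynomial (Fin n) k, G ≠ 0 → (∀ i, G.degreeOf i ≤ δ) → ∀ T : ℝ,
      ∃ (E : Type) (_ : Field E) (_ : NumberField E) (_ : Algebra k E) (b : E) (x : Fin n → E),
        b ≠ 0 ∧ Module.finrank k E ≤ r ∧ (∀ i, (S i).pt E b (x i)) ∧
        MvPolynomial.aeval x G ≠ 0 ∧
        Module.finrank ℚ E * T + DD E + sm (bw b fun _ => 0) +
          ∑ i, sm (ow b ((S i).wt E (x i))) ≤ ∑ i, κ i * logHeight₁ (x i) := by
  classical
  obtain ⟨D, J, C, hC, H⟩ := lift_all hκt hS δ hgo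
  obtain ⟨c, hc, Htow⟩ := tower_points k J
  have hl : 0 < Real.log 2 := Real.log_pos (by norm_num)
  refine ⟨2 ^ J * D, fun G hG hδ T => ?_⟩
  let Ω := AlgebraicClosure k
  have hGΩ : MvPolynomial.map (algebraMap k Ω) G ≠ 0 := by
    intro h
    exact hG (MvPolynomial.map_injective _ (algebraMap k Ω).injective (by rw [h, map_zero]))
  obtain ⟨z0, hz0⟩ : ∃ z0, MvPolynomial.eval z0 (MvPolynomial.map (algebraMap k Ω) G) ≠ 0 := by
    by_contra hcon
    push Not at hcon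
    exact hGΩ (MvPolynomial.funext fun x => by rw [hcon x, map_zero])
  have hδΩ : ∀ i, (MvPolynomial.map (algebraMap k Ω) G).degreeOf i ≤ δ := by
    intro i
    refine le_trans ?_ (hδ i)
    rw [MvPolynomial.degreeOf_eq_sup, MvPolynomial.degreeOf_eq_sup]
    exact Finset.sup_mono (MvPolynomial.support_map_subset _ _)
  -- the choice of `m`
  obtain ⟨m0, hm0⟩ := exists_nat_gt ((((n : ℝ) * κt + 1) * c + C + |T|) /
    (((n : ℝ) * κt - 1) * (2 * Real.log 2)))
  rw [div_lt_iff₀ (mul_pos (by linarith) (by linarith))] at hm0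
  obtain ⟨m, hm⟩ : ∃ m, m = max 1 m0 := ⟨_, rfl⟩
  have hm' : 1 ≤ m := by omega
  have hmm : (m0 : ℝ) ≤ m := by exact_mod_cast (by omega : m0 ≤ m)
  obtain ⟨M, i1, i2, i3, b, t, hb, ht, hpt, hdeg, hht, hdisc⟩ := Htow m hm'
  obtain ⟨φ⟩ : Nonempty (M →ₐ[k] Ω) := ⟨IsAlgClosed.lift⟩
  obtain ⟨E, j1, j2, j3, j4, j5, ψ, x, hdegE, hptE, hGE, hineq⟩ :=
    H Ω _ z0 hz0 hδΩ M φ b hb t ht hpt _ hht
  refine ⟨E, j1, j2, j4, algebraMap M E b, x, (map_ne_zero _).2 hb, ?_, hptE, ?_, ?_⟩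
  · rw [← Module.finrank_mul_finrank k M E]
    exact Nat.mul_le_mul hdeg hdegE
  · intro h
    apply hGE
    have h1 : ψ (MvPolynomial.aeval x G) = 0 := by rw [h, map_zero]
    rw [← h1, MvPolynomial.eval_map]
    have h2 := MvPolynomial.hom_eval₂ G (algebraMap k E) ψ.toRingHom x
    rw [MvPolynomial.aeval_def]
    refine Eq.trans ?_ h2.symm
    congr 1
    ext y
    exact (ψ.commutes y).symm
  · obtain ⟨q, hq⟩ : ∃ q : ℝ, q = (Module.finrank ℚ M : ℝ) := ⟨_, rfl⟩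
    obtain ⟨p, hp⟩ : ∃ p : ℝ, p = (Module.finrank M E : ℝ) := ⟨_, rfl⟩
    have hq0 : 0 < q := by
      rw [hq]
      exact_mod_cast Module.finrank_pos
    have hp0 : 0 < p := by
      rw [hp]
      exact_mod_cast Module.finrank_pos
    have hQE : (Module.finrank ℚ E : ℝ) = q * p := by
      rw [hq, hp]
      exact_mod_cast (Module.finrank_mul_finrank ℚ M E).symm
    rw [← hp, ← hq, hQE] at hineq
    rw [← hq] at hdisc
    rw [hQE]
    rw [Finset.sum_sub_distrib] at hineq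
    have h2 := mul_le_mul_of_nonneg_left hdisc hp0.le
    have h3 : ((n : ℝ) * κt + 1) * c + C + |T| ≤ m * (((n : ℝ) * κt - 1) * (2 * Real.log 2)) :=
      hm0.le.trans (mul_le_mul_of_nonneg_right hmm (mul_pos (by linarith) (by linarith)).le)
    have h4 := mul_le_mul_of_nonneg_left h3 (mul_pos hq0 hp0).le
    have h5 : q * p * T ≤ q * p * |T| :=
      mul_le_mul_of_nonneg_left (le_abs_self T) (mul_pos hq0 hp0).le
    nlinarith

end Pool.Agent.H431.LF
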