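import Pool.Agent.H431.LF.Ell

/-!
# The two points on an elliptic curve
-/

set_option autoImplicit false

namespace Pool.Agent.H431.LF

open NumberField IsDedekindDomain Height Pool.Agent.Q290.NF IntermediateField Pool.Agent.H431.OC

variable {k : Type} [Field k] [NumberField k]

/-- an elliptic curve with the index `2` at the points over `mu` -/
noncomputable def Mu (e1 e2 e3 mu : k) : St k where
  pt M _ _ _ _ x := ∃ w : M, (x - algebraMap k M e1) * (x - algebraMap k M e2) *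
    (x - algebraMap k M e3) = w ^ 2
  wt M _ _ _ x v := om 2 (ord v (x - algebraMap k M mu))

open Polynomial in
theorem excl_pair {Ω : Type} [Field Ω] [CharZero Ω] {T : Finset Ω} {n : ℕ} (hT : T.card ≤ n)
    (mu σ s p β : Ω) (hσ : σ ≠ 0) :
    ∃ T' : Finset Ω, T'.card ≤ n * 2 + 2 ∧ mu ∈ T' ∧ β ∈ T' ∧ ∀ x y w : Ω, x - mu ≠ 0 →
      w ^ 2 = (x - mu) ^ 3 + s * (x - mu) ^ 2 + p * (x - mu) + σ ^ 2 →
      ((x - mu) ^ 2 * y = p * (x - mu) + 2 * σ ^ 2 - 2 * σ * w ∨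
        (x - mu) ^ 2 * y = p * (x - mu) + 2 * σ ^ 2 + 2 * σ * w) → mu + y ∈ T → x ∈ T' := by
  classical
  obtain ⟨T1, hT1, H1⟩ := excl (T := T) 2 hT
    (fun τ => C ((τ - mu) ^ 2) * (X - C mu) ^ 2 - C (2 * p * (τ - mu) + 4 * σ ^ 2) * (X - C mu) +
      C (p ^ 2 - 4 * σ ^ 2 * (s + (τ - mu)))) (fun τ h => by
        have h0 := congrArg (eval mu) h
        have h1 := congrArg (eval (mu + 1)) h
        have h2 := congrArg (eval (mu - 1)) h
        simp only [eval_sub, eval_add, eval_pow, eval_X, eval_mul, eval_C, eval_zero] at h0 h1 h2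
        have h3 : (τ - mu) ^ 2 = 0 := by
          linear_combination (1 / 2) * h1 + (1 / 2) * h2 - h0
        have h4 : τ - mu = 0 := pow_eq_zero_iff (two_ne_zero) |>.1 h3
        rw [h4] at h1 h2
        have h5 : σ ^ 2 = 0 := by
          linear_combination (-1 / 8) * h1 + (1 / 8) * h2
        exact pow_ne_zero 2 hσ h5) (fun τ => by compute_degree)
  refine ⟨T1 ∪ {mu, β}, card_add hT1 Finset.card_le_two, by simp, by simp, ?_⟩
  intro x y w hx hw hy hyT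
  rw [Finset.mem_union]
  left
  refine H1 _ hyT x ?_
  simp only [eval_sub, eval_add, eval_pow, eval_X, eval_mul, eval_C]
  apply mul_left_cancel₀ (pow_ne_zero 2 hx)
  rcases hy with hy | hy
  · linear_combination ((x - mu) ^ 2 * y - p * (x - mu) - 2 * σ ^ 2 - 2 * σ * w) * hy +
      4 * σ ^ 2 * hw
  · linear_combination ((x - mu) ^ 2 * y - p * (x - mu) - 2 * σ ^ 2 + 2 * σ * w) * hy +
      4 * σ ^ 2 * hw

/-- **the two points** -/
theorem go_pair {e1 e2 e3 mu sig : k} (hsig : sig ^ 2 = (mu - e1) * (mu - e2) * (mu - e3))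
    (hs0 : sig ≠ 0) {ε : ℝ} (hε : ε ≤ 1 / 2) :
    Go k (El (om 4) e1 e2 e3) (1 / 4 - ε) (Mu e1 e2 e3 mu) (1 / 2 - ε) := by
  classical
  obtain ⟨s, hs⟩ : ∃ s : k, s = 3 * mu - e1 - e2 - e3 := ⟨_, rfl⟩
  obtain ⟨p, hp⟩ : ∃ p : k, p = (mu - e1) * (mu - e2) + (mu - e1) * (mu - e3) +
    (mu - e2) * (mu - e3) := ⟨_, rfl⟩
  obtain ⟨β, hβ⟩ : ∃ β : k, β = (p / (2 * sig)) ^ 2 + mu - s := ⟨_, rfl⟩
  obtain ⟨N, hN, HN⟩ := exists_bad ({2, sig, p, s, mu} : Finset k)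
  have two0 : (2 : k) ≠ 0 := two_ne_zero
  obtain ⟨Cp, hCp, Hp⟩ := ht_pair (4 * sig ^ 2) (2 * p) (mu - β)
    (mul_ne_zero (by norm_num) (pow_ne_zero 2 hs0))
  obtain ⟨Cm, hCm, Hm⟩ := ht_shift mu
  obtain ⟨Cb, hCb, Hb⟩ := ht_shift β
  have hlN : 0 ≤ Real.log N := Real.log_natCast_nonneg _
  obtain ⟨a, ha⟩ : ∃ a : ℝ, a = 1 / 2 - ε := ⟨_, rfl⟩
  have ha0 : 0 ≤ a := by linarith
  refine Go.same (c := a * (Cp + 4 * Cm) + 1 / 2 * Cb + Real.log N) (by positivity)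
    (fun n => n * 2 + 2) ?_
  intro Ω _ _ _ n T₀ hT
  have cΩ : CharZero Ω := charZero_of_injective_algebraMap (algebraMap k Ω).injective
  obtain ⟨T', hT', m1', m2', HT'⟩ := excl_pair hT (algebraMap k Ω mu) (algebraMap k Ω sig)
    (algebraMap k Ω s) (algebraMap k Ω p) (algebraMap k Ω β) ((map_ne_zero _).2 hs0)
  refine ⟨T', hT', ?_⟩
  intro M _ _ _ φ b x hb hpt hx
  obtain ⟨w, hw⟩ := hpt
  have hd : (0 : ℝ) ≤ Module.finrank ℚ M := Nat.cast_nonneg _
  -- the elements of `M`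
  obtain ⟨μ', hμ'⟩ : ∃ μ' : M, μ' = algebraMap k M mu := ⟨_, rfl⟩
  obtain ⟨σ', hσ'⟩ : ∃ σ' : M, σ' = algebraMap k M sig := ⟨_, rfl⟩
  obtain ⟨s', hs'⟩ : ∃ s' : M, s' = algebraMap k M s := ⟨_, rfl⟩
  obtain ⟨p', hp'⟩ : ∃ p' : M, p' = algebraMap k M p := ⟨_, rfl⟩
  obtain ⟨β', hβ'⟩ : ∃ β' : M, β' = algebraMap k M β := ⟨_, rfl⟩
  obtain ⟨a1, ha1⟩ : ∃ a1 : M, a1 = algebraMap k M e1 := ⟨_, rfl⟩
  obtain ⟨a2, ha2⟩ : ∃ a2 : M, a2 = algebraMap k M e2 := ⟨_, rfl⟩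
  obtain ⟨a3, ha3⟩ : ∃ a3 : M, a3 = algebraMap k M e3 := ⟨_, rfl⟩
  have fμ : φ μ' = algebraMap k Ω mu := by rw [hμ', φ.commutes]
  have fσ : φ σ' = algebraMap k Ω sig := by rw [hσ', φ.commutes]
  have fs : φ s' = algebraMap k Ω s := by rw [hs', φ.commutes]
  have fp' : φ p' = algebraMap k Ω p := by rw [hp', φ.commutes]
  have fβ : φ β' = algebraMap k Ω β := by rw [hβ', φ.commutes]
  rw [← fμ, ← fσ, ← fs, ← fp'] at HT'
  rw [← fμ] at m1'
  rw [← fβ] at m2'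
  have hxm : x ≠ μ' := fun h => hx (by rw [h]; exact m1')
  have hxb : x ≠ β' := fun h => hx (by rw [h]; exact m2')
  have two0' : (2 : M) ≠ 0 := two_ne_zero
  have hσ0 : σ' ≠ 0 := by
    rw [hσ']
    exact (map_ne_zero _).2 hs0
  have es : s' = 3 * μ' - a1 - a2 - a3 := by
    rw [hs', hs, hμ', ha1, ha2, ha3, map_sub, map_sub, map_sub, map_mul, map_ofNat]
  have ep : p' = (μ' - a1) * (μ' - a2) + (μ' - a1) * (μ' - a3) + (μ' - a2) * (μ' - a3) := by
    rw [hp', hp, hμ', ha1, ha2, ha3]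
    simp only [map_sub, map_mul, map_add]
  have eσ : σ' ^ 2 = (μ' - a1) * (μ' - a2) * (μ' - a3) := by
    rw [hσ', hμ', ha1, ha2, ha3, ← map_pow, hsig]
    simp only [map_sub, map_mul]
  have eβ : β' = (p' / (2 * σ')) ^ 2 + μ' - s' := by
    rw [hβ', hβ, hs', hσ', hμ', hp', map_sub, map_add, map_pow, map_div₀, map_mul, map_ofNat]
  rw [← ha1, ← ha2, ← ha3] at hw
  obtain ⟨T, hTd⟩ : ∃ T, T = x - μ' := ⟨_, rfl⟩
  have hT0 : T ≠ 0 := by
    rw [hTd]
    exact sub_ne_zero.2 hxm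
  have hxT : x = T + μ' := by rw [hTd]; ring
  have hw' : w ^ 2 = T ^ 3 + s' * T ^ 2 + p' * T + σ' ^ 2 := by
    rw [← hw, hxT, eσ, ep, es]
    ring
  obtain ⟨y, hy⟩ : ∃ y, y = (p' * T + 2 * σ' ^ 2 - 2 * σ' * w) / T ^ 2 := ⟨_, rfl⟩
  obtain ⟨z, hz⟩ : ∃ z, z = (p' * T + 2 * σ' ^ 2 + 2 * σ' * w) / T ^ 2 := ⟨_, rfl⟩
  have hy' : T ^ 2 * y = p' * T + 2 * σ' ^ 2 - 2 * σ' * w := by
    rw [hy]
    field_simp
  have hz' : T ^ 2 * z = p' * T + 2 * σ' ^ 2 + 2 * σ' * w := by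
    rw [hz]
    field_simp
  have hyz := prod_pair T w σ' s' p' y z hT0 hw' hy' hz'
  have hcub : ∀ u : M, (μ' + u - a1) * (μ' + u - a2) * (μ' + u - a3) =
      u ^ 3 + s' * u ^ 2 + p' * u + σ' ^ 2 := by
    intro u
    rw [eσ, ep, es]
    ring
  have hL1 := third T w σ' s' p' y hT0 hw' hy'
  have hL2 := third T w (-σ') s' p' z hT0 (by rw [hw']; ring) (by rw [hz']; ring)
  have hyz' : T ^ 2 * (y * z) = -(4 * σ' ^ 2) * (x - β') := by
    rw [hyz, eβ, hxT]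
    field_simp
    ring
  have e1' : μ' + y - μ' = y := by ring
  have e2' : μ' + z - μ' = z := by ring
  -- heights
  have P1 := Hp M T y z hT0 (by
    rw [map_mul, map_mul, map_pow, ← hσ', ← hp', map_ofNat, map_ofNat]
    linear_combination hy' + hz') (by
    rw [map_mul, map_pow, map_sub, ← hσ', ← hμ', ← hβ', map_ofNat, hyz', hxT]
    ring)
  have P2 := (Hm M (μ' + y)).2
  have P3 := (Hm M (μ' + z)).2
  rw [← hμ', e1'] at P2
  rw [← hμ', e2'] at P3
  have P4 := (Hm M x).1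
  rw [← hμ', ← hTd] at P4
  have P5 := (Hb M x).2
  rw [← hβ'] at P5
  -- the weights
  obtain ⟨g1, hg1⟩ : ∃ g1 : HeightOneSpectrum (𝓞 M) → ℝ,
    g1 = bw b (fun v => om 2 (ord v y)) := ⟨_, rfl⟩
  obtain ⟨g2, hg2⟩ : ∃ g2 : HeightOneSpectrum (𝓞 M) → ℝ,
    g2 = bw b (fun v => om 2 (ord v z)) := ⟨_, rfl⟩
  obtain ⟨g3, hg3⟩ : ∃ g3 : HeightOneSpectrum (𝓞 M) → ℝ,
    g3 = bw b (fun v => om 4 (-ord v x)) := ⟨_, rfl⟩
  have s1 : (Function.support g1).Finite := by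
    rw [hg1]
    exact supp_bw hb (supp_om 2 y)
  have s2 : (Function.support g2).Finite := by
    rw [hg2]
    exact supp_bw hb (supp_om 2 z)
  have s3 : (Function.support g3).Finite := by
    rw [hg3]
    exact supp_bw hb (supp_om' 4 x)
  have S1 := sm_le_bad (M := M) hN (B := 2) (by norm_num)
    (g := fun v => g1 v + g2 v)
    (h := fun v => 2 * g3 v + 1 / 2 * max 0 (ord v (x - β') : ℝ))
    (supp_add s1 s2) (supp_add (supp_smul 2 s3) (supp_smul _ (supp_zeros _))) (fun v hv => by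
      have hmx := le_max_left (0 : ℝ) (ord v (x - β') : ℝ)
      by_cases hvb : ord v b = 0
      · have hbd := HN M v hv
        have b2 := hbd 2 (by simp)
        have bσ := hbd sig (by simp)
        have bp := hbd p (by simp)
        have bs := hbd s (by simp)
        have bμ := hbd mu (by simp)
        rw [map_ofNat] at b2
        rw [← hσ'] at bσ
        rw [← hp'] at bp
        rw [← hs'] at bs
        rw [← hμ'] at bμ
        rw [hTd] at hw' hy' hz' hyz' hT0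
        rw [hg1, hg2, hg3, bw_eq hvb, bw_eq hvb, bw_eq hvb]
        exact loc_pair v b2 hσ0 bσ bp.ge bs.ge bμ.ge hT0 hw' hy' hz' hyz' (sub_ne_zero.2 hxb)
      · rw [hg1, hg2, hg3, bw_one hvb, bw_one hvb, bw_one hvb]
        linarith)
    (fun v => by
      have r1 := bw_le (b := b) le_rfl (fun v => om_le_one 2 (ord v y)) v
      have r2 := bw_le (b := b) le_rfl (fun v => om_le_one 2 (ord v z)) v
      rw [hg1, hg2]
      linarith)
    (fun v => by
      have r1 := bw_nonneg (b := b) (fun v => om_nonneg (m := 4) (by norm_num) (-ord v x)) v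
      have r2 := le_max_left (0 : ℝ) (ord v (x - β') : ℝ)
      rw [hg3]
      linarith)
  rw [sm_add s1 s2, sm_add (supp_smul 2 s3) (supp_smul _ (supp_zeros _)), sm_smul,
    sm_smul] at S1
  have S2 := zeros_le (x - β')
  -- the two defects
  have F1 : a * (2 * logHeight₁ x - (Module.finrank ℚ M * Cp + 4 * (Module.finrank ℚ M * Cm))) ≤
      a * (logHeight₁ (μ' + y) + logHeight₁ (μ' + z)) := by
    refine mul_le_mul_of_nonneg_left ?_ ha0
    linarith
  have hsum : 2 * ((1 / 4 - ε) * logHeight₁ x - DD M - sm g3) ≤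
      (a * logHeight₁ (μ' + y) - DD M - sm g1) + (a * logHeight₁ (μ' + z) - DD M - sm g2) +
      2 * (Module.finrank ℚ M * (a * (Cp + 4 * Cm) + 1 / 2 * Cb + Real.log N)) := by
    have e3 : (1 / 4 - ε) = a - 1 / 4 := by
      rw [ha]
      ring
    have q1 : 0 ≤ (Module.finrank ℚ M : ℝ) * (a * (Cp + 4 * Cm)) := by positivity
    have q2 : 0 ≤ (Module.finrank ℚ M : ℝ) * Cb := by positivity
    have e4 : (Module.finrank ℚ M : ℝ) * (a * (Cp + 4 * Cm) + 1 / 2 * Cb + Real.log N) =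
      (Module.finrank ℚ M : ℝ) * (a * (Cp + 4 * Cm)) + 1 / 2 * (Module.finrank ℚ M * Cb) +
      Module.finrank ℚ M * Real.log N := by ring
    rw [e3, e4]
    nlinarith
  have w1 : bw b ((Mu e1 e2 e3 mu).wt M (μ' + y)) = g1 := by
    rw [hg1]
    congr 1
    funext v
    show om 2 (ord v (μ' + y - algebraMap k M mu)) = _
    rw [← hμ', e1']
  have w2 : bw b ((Mu e1 e2 e3 mu).wt M (μ' + z)) = g2 := by
    rw [hg2]
    congr 1
    funext v
    show om 2 (ord v (μ' + z - algebraMap k M mu)) = _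
    rw [← hμ', e2']
  have w3' : bw b ((El (om 4) e1 e2 e3).wt M x) = g3 := by
    rw [hg3]
    rfl
  have tex : ∀ u : M, (T ^ 2 * u = p' * T + 2 * σ' ^ 2 - 2 * σ' * w ∨
      T ^ 2 * u = p' * T + 2 * σ' ^ 2 + 2 * σ' * w) → φ (μ' + u) ∉ T₀ := by
    intro u hu hin
    refine hx (HT' (φ x) (φ u) (φ w) ?_ ?_ ?_ (by rw [← map_add]; exact hin))
    · rw [← map_sub]
      exact (map_ne_zero _).2 (sub_ne_zero.2 hxm)
    · rw [← map_sub, ← hTd, ← map_pow, hw']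
      simp only [map_add, map_mul, map_pow]
    · rcases hu with hu | hu
      · left
        rw [← map_sub, ← hTd, ← map_pow, ← map_mul, hu]
        simp only [map_add, map_sub, map_mul, map_pow, map_ofNat]
      · right
        rw [← map_sub, ← hTd, ← map_pow, ← map_mul, hu]
        simp only [map_add, map_mul, map_pow, map_ofNat]
  rw [← ha]
  rcases le_total (a * logHeight₁ (μ' + y) - DD M - sm g1)
    (a * logHeight₁ (μ' + z) - DD M - sm g2) with hle | hle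
  · refine ⟨μ' + z, ⟨-σ' + (w - -σ') / T * z, ?_⟩, fun h => tex z (Or.inr hz') h, ?_⟩
    · rw [← ha1, ← ha2, ← ha3, hcub, ← hL2]
      ring
    · unfold df
      rw [w2, w3']
      linarith
  · refine ⟨μ' + y, ⟨σ' + (w - σ') / T * y, ?_⟩, fun h => tex y (Or.inl hy') h, ?_⟩
    · rw [← ha1, ← ha2, ← ha3, hcub, hL1]
    · unfold df
      rw [w1, w3']
      linarith

end Pool.Agent.H431.LF
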