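import Pool.Agent.H431.LF.Base

/-!
# The weights, and the excluded sets
-/

set_option autoImplicit false

namespace Pool.Agent.H431.LF

open NumberField IsDedekindDomain Height Pool.Agent.Q290.NF IntermediateField Pool.Agent.H431.OC

/-- the properties of the weights of a point of index `4` or `∞` -/
structure Pw (p : ℤ → ℝ) (lam : ℝ) : Prop where
  zero : ∀ n : ℤ, n ≤ 0 → p n = 0
  nonneg : ∀ n : ℤ, 0 ≤ p n
  le_one : ∀ n : ℤ, p n ≤ 1
  mul_le : ∀ (e : ℕ) (n : ℤ), e ≠ 0 → p (e * n) ≤ p n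
  odd : ∀ n : ℤ, 0 < n → Odd n → 1 + p (2 * n) ≤ 2 * p n
  lam_nonneg : 0 ≤ lam
  le_max : ∀ n : ℤ, p n ≤ lam * max 0 (n : ℝ)

theorem Pw_om : Pw (om 4) (3 / 4) where
  zero n h := om_nonpos 4 h
  nonneg n := om_nonneg (by norm_num) n
  le_one n := om_le_one 4 n
  mul_le e n he := om_mul_le (by norm_num) he n
  odd n h ho := by
    have h1 := om_odd (r := 2) two_ne_zero h ho
    have h2 : om 4 (2 * n) = om 2 n := om_double (r := 2) two_ne_zero n
    have h3 : om (2 * 2) n = om 4 n := rfl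
    rw [h3] at h1
    rw [h2]
    exact h1
  lam_nonneg := by norm_num
  le_max n := om_four_le n

theorem Pw_po : Pw po 1 where
  zero n h := po_nonpos h
  nonneg n := po_nonneg n
  le_one n := po_le n
  mul_le e n he := po_mul_le he n
  odd n h ho := by
    rw [po_pos h, po_pos (by omega)]
    norm_num
  lam_nonneg := zero_le_one
  le_max n := by
    rw [one_mul]
    exact po_le_max n

section supp

variable {M : Type} [Field M] [NumberField M]

theorem supp_p {p : ℤ → ℝ} (hp : ∀ n : ℤ, n ≤ 0 → p n = 0) (x : M) :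
    (Function.support fun v : HeightOneSpectrum (𝓞 M) => p (ord v x)).Finite := by
  by_cases hx : x = 0
  · refine Set.finite_empty.subset fun v hv => ?_
    rw [Function.mem_support, hx, ord_zero, hp 0 le_rfl] at hv
    exact hv rfl
  · refine (fin_ord hx).subset fun v hv h => ?_
    rw [Function.mem_support, h, hp 0 le_rfl] at hv
    exact hv rfl

theorem supp_p' {p : ℤ → ℝ} (hp : ∀ n : ℤ, n ≤ 0 → p n = 0) (x : M) :
    (Function.support fun v : HeightOneSpectrum (𝓞 M) => p (-ord v x)).Finite := by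
  have h := supp_p hp x⁻¹
  refine h.subset fun v hv => ?_
  rw [Function.mem_support] at hv ⊢
  rwa [ord_inv]

end supp

/-- the roots of polynomials that depend on the elements of a finite set -/
theorem excl {Ω : Type} [Field Ω] {T : Finset Ω} {n : ℕ} (d : ℕ) (hT : T.card ≤ n)
    (p : Ω → Polynomial Ω) (hp : ∀ τ, p τ ≠ 0) (hd : ∀ τ, (p τ).natDegree ≤ d) :
    ∃ T' : Finset Ω, T'.card ≤ n * d ∧ ∀ τ ∈ T, ∀ z, (p τ).eval z = 0 → z ∈ T' := by
  classical
  refine ⟨T.biUnion fun τ => (p τ).roots.toFinset, ?_, ?_⟩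
  · refine (Finset.card_biUnion_le_card_mul T (fun τ => (p τ).roots.toFinset) d
      fun τ _ => ?_).trans (Nat.mul_le_mul_right d hT)
    exact (Multiset.toFinset_card_le _).trans ((Polynomial.card_roots' _).trans (hd τ))
  · intro τ hτ z hz
    rw [Finset.mem_biUnion]
    refine ⟨τ, hτ, ?_⟩
    rw [Multiset.mem_toFinset, Polynomial.mem_roots (hp τ)]
    exact hz

theorem card_add {Ω : Type} [DecidableEq Ω] {T S : Finset Ω} {a b : ℕ} (h1 : T.card ≤ a)
    (h2 : S.card ≤ b) : (T ∪ S).card ≤ a + b :=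
  (Finset.card_union_le _ _).trans (Nat.add_le_add h1 h2)

end Pool.Agent.H431.LF
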