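import Pool.Agent.H431.LF.Pair

/-!
# From an elliptic curve to a hyperelliptic curve
-/

set_option autoImplicit false

namespace Pool.Agent.H431.LF

open NumberField IsDedekindDomain Height Pool.Agent.Q290.NF IntermediateField Pool.Agent.H431.OC

variable {k : Type} [Field k] [NumberField k]

theorem ord_prod {M : Type} [Field M] [NumberField M] [Algebra k M] (v : HeightOneSpectrum (𝓞 M))
    (r : Finset k) (X : M) (hXe : ∀ e ∈ r, X - algebraMap k M e ≠ 0) :
    ord v (∏ e ∈ r, (X - algebraMap k M e)) = ∑ e ∈ r, ord v (X - algebraMap k M e) := by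
  classical
  have : ∀ r' : Finset k, r' ⊆ r → ord v (∏ e ∈ r', (X - algebraMap k M e)) =
      ∑ e ∈ r', ord v (X - algebraMap k M e) := by
    intro r'
    induction r' using Finset.induction_on with
    | empty =>
      intro _
      rw [Finset.prod_empty, Finset.sum_empty, ord_one]
    | insert b r' hb ih =>
      intro hsub
      have hb' : b ∈ r := hsub (Finset.mem_insert_self _ _)
      have hsub' : r' ⊆ r := fun x hx => hsub (Finset.mem_insert_of_mem hx)
      rw [Finset.prod_insert hb, Finset.sum_insert hb, ord_mul v (hXe b hb')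
        (Finset.prod_ne_zero_iff.2 fun e he => hXe e (hsub' he)), ih hsub']
  exact this r subset_rfl

/-- the points `(x, y)` of the curve `y ^ 2 = c ∏ (x - e)` with the weights `p` at infinity -/
noncomputable def Cv (p : ℤ → ℝ) (c : k) (s : Finset k) : St k where
  pt M _ _ _ _ x := ∃ y : M, y ^ 2 = algebraMap k M c * ∏ e ∈ s, (x - algebraMap k M e)
  wt _ _ _ _ x v := p (-ord v x)

/-- **adjoining a square root** -/
theorem go_adj {S' S : St k} {κ : ℝ} {c : k} (hc : c ≠ 0) (R r : Finset k) {N : ℕ} (hN : N ≠ 0)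
    (h1 : ∀ (M : Type) [Field M] [NumberField M] [Algebra k M] (x : M),
      (Function.support (S'.wt M x)).Finite ∧ (Function.support (S.wt M x)).Finite ∧
      (∀ v, 0 ≤ S'.wt M x v) ∧ (∀ v, 0 ≤ S.wt M x v) ∧ (∀ v, S.wt M x v ≤ 1))
    (h2 : ∀ (M E : Type) [Field M] [NumberField M] [Field E] [NumberField E] [Algebra k M]
      [Algebra k E] [Algebra M E] [IsScalarTower k M E] (b x : M) (z : E), S'.pt M b x →
      z ^ 2 = algebraMap M E (algebraMap k M c * ∏ e ∈ R, (x - algebraMap k M e)) →
      S.pt E (algebraMap M E b) (algebraMap M E x))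
    (h3 : ∀ (M E : Type) [Field M] [NumberField M] [Field E] [NumberField E] [Algebra k M]
      [Algebra k E] [Algebra M E] [IsScalarTower k M E] (x : M) (v : HeightOneSpectrum (𝓞 M))
      (w : HeightOneSpectrum (𝓞 E)) (e : ℕ), e ≠ 0 →
      (∀ z : M, ord w (algebraMap M E z) = e * ord v z) → (∀ a ∈ R, x - algebraMap k M a ≠ 0) →
      ord v (N : M) = 0 →
      (S.wt E (algebraMap M E x) w ≤ e * S'.wt M x v) ∧
      (Odd (ord v (algebraMap k M c * ∏ e ∈ R, (x - algebraMap k M e))) → e = 2 →
        1 + S.wt E (algebraMap M E x) w ≤ 2 * (S'.wt M x v +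
          1 / 2 * ∑ a ∈ r, max 0 (ord v (x - algebraMap k M a) : ℝ)))) :
    Go k S' κ S (κ + (r.card : ℝ) / 2) := by
  classical
  have hconst : ∀ e : k, ∃ C : ℝ, 0 ≤ C ∧
    ∀ (M : Type) [Field M] [NumberField M] [Algebra k M] (x : M),
      logHeight₁ x ≤ logHeight₁ (x - algebraMap k M e) + Module.finrank ℚ M * C ∧
      logHeight₁ (x - algebraMap k M e) ≤ logHeight₁ x + Module.finrank ℚ M * C := ht_shift
  choose Ce hCe0 hCe using hconst
  have hl : 0 ≤ Real.log 2 := Real.log_nonneg (by norm_num)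
  have hlN : 0 ≤ Real.log N := Real.log_natCast_nonneg _
  have hS : 0 ≤ ∑ e ∈ r, Ce e := Finset.sum_nonneg fun e _ => hCe0 e
  refine ⟨2, Real.log N + 3 * Real.log 2 + 1 / 2 * ∑ e ∈ r, Ce e, fun n => n + R.card,
    by positivity, ?_⟩
  intro Ω _ _ _ n T hT
  refine ⟨T ∪ R.image (algebraMap k Ω), card_add hT Finset.card_image_le, ?_⟩
  intro M _ _ _ φ b x hb hpt hx
  rw [Finset.mem_union, not_or] at hx
  obtain ⟨hxT, hxR⟩ := hx
  have hne : ∀ a ∈ R, x - algebraMap k M a ≠ 0 := by
    intro a ha h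
    apply hxR
    rw [Finset.mem_image]
    exact ⟨a, ha, by rw [sub_eq_zero.1 h, φ.commutes]⟩
  obtain ⟨a, ha⟩ : ∃ a : M, a = algebraMap k M c * ∏ e ∈ R, (x - algebraMap k M e) := ⟨_, rfl⟩
  have ha0 : a ≠ 0 := by
    rw [ha]
    exact mul_ne_zero ((map_ne_zero _).2 hc) (Finset.prod_ne_zero_iff.2 hne)
  obtain ⟨E, i1, i2, i3, z, hz, hdeg, hadj⟩ := exists_quad M a
  let _ : Algebra k E := ((algebraMap M E).comp (algebraMap k M)).toAlgebra
  have hst : IsScalarTower k M E := IsScalarTower.of_algebraMap_eq fun _ => rfl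
  obtain ⟨ψ, hψ⟩ := ext_hom (k := k) (M := M) (E := E) Ω φ
  refine ⟨E, i1, i2, i3, inferInstance, hst, ψ, algebraMap M E x, hψ, hdeg, ?_, ?_, ?_⟩
  · refine h2 M E b x z hpt ?_
    rw [hz, ha]
  · rw [hψ]
    exact hxT
  obtain ⟨k1, k2, k3, k4, k5⟩ := h1 M x
  obtain ⟨l1, l2, l3, l4, l5⟩ := h1 E (algebraMap M E x)
  have hsum : (Function.support fun v : HeightOneSpectrum (𝓞 M) =>
      ∑ e ∈ r, max 0 (ord v (x - algebraMap k M e) : ℝ)).Finite :=
    supp_sum r (fun e v => max 0 (ord v (x - algebraMap k M e) : ℝ))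
      fun e _ => supp_zeros _
  obtain ⟨g, hg⟩ : ∃ g : HeightOneSpectrum (𝓞 M) → ℝ, g = fun v => S'.wt M x v +
    1 / 2 * ∑ e ∈ r, max 0 (ord v (x - algebraMap k M e) : ℝ) := ⟨_, rfl⟩
  have hgs : (Function.support g).Finite := by
    rw [hg]
    exact supp_add k1 (supp_smul _ hsum)
  have hu0 : ∀ v : HeightOneSpectrum (𝓞 M),
      0 ≤ 1 / 2 * ∑ e ∈ r, max 0 (ord v (x - algebraMap k M e) : ℝ) := by
    intro v
    have : 0 ≤ ∑ e ∈ r, max 0 (ord v (x - algebraMap k M e) : ℝ) :=
      Finset.sum_nonneg fun e _ => le_max_left _ _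
    linarith
  have hg0 : ∀ v, 0 ≤ g v := by
    intro v
    rw [hg]
    exact add_nonneg (k3 v) (hu0 v)
  have q1 := bw_quad z a ha0 hz hadj hN (B := 1) le_rfl hb
    (f := S.wt E (algebraMap M E x)) (g := g) l2 hgs l4 l5 hg0 (by
      intro v w e he _ hvN _ hvw
      obtain ⟨r1, r2⟩ := h3 M E x v w e he hvw hne hvN
      have he1 : (1 : ℝ) ≤ e := by exact_mod_cast Nat.one_le_iff_ne_zero.2 he
      have hu := hu0 v
      rw [← ha] at r2
      refine ⟨fun _ => r1.trans (mul_le_mul_of_nonneg_left ?_ (by linarith)), fun ho he2 => ?_⟩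
      · rw [hg]
        show S'.wt M x v ≤ S'.wt M x v + _
        linarith
      · rw [hg]
        exact r2 ho he2)
  have q2 := bw_mono (M := M) hb (g := g) (h := S'.wt M x)
    (u := fun v => 1 / 2 * ∑ e ∈ r, max 0 (ord v (x - algebraMap k M e) : ℝ)) hgs k1
    (supp_smul _ hsum) (fun v _ => by rw [hg]) hu0
  rw [sm_smul, sm_sum r (fun e v => max 0 (ord v (x - algebraMap k M e) : ℝ))
    (fun e _ => supp_zeros _)] at q2
  have q3 : ∑ e ∈ r, sm (fun v : HeightOneSpectrum (𝓞 M) =>
      max 0 (ord v (x - algebraMap k M e) : ℝ)) ≤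
      r.card * logHeight₁ x + Module.finrank ℚ M * ∑ e ∈ r, Ce e := by
    rw [Finset.mul_sum]
    have h6 : (r.card : ℝ) * logHeight₁ x = ∑ _e ∈ r, logHeight₁ x := by
      rw [Finset.sum_const, nsmul_eq_mul]
    rw [h6, ← Finset.sum_add_distrib]
    exact Finset.sum_le_sum fun e _ => (zeros_le _).trans (hCe e M x).2
  obtain ⟨m, hm⟩ : ∃ m : ℝ, m = (Module.finrank M E : ℝ) := ⟨_, rfl⟩
  have hm0 : 0 ≤ m := by
    rw [hm]
    exact Nat.cast_nonneg _
  have hdE : (Module.finrank ℚ E : ℝ) = Module.finrank ℚ M * m := by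
    rw [hm]
    exact_mod_cast (Module.finrank_mul_finrank ℚ M E).symm
  unfold df
  rw [ht_ext, ← hm, hdE]
  rw [← hm] at q1
  obtain ⟨Z, hZ⟩ : ∃ Z : ℝ, Z = ∑ e ∈ r, sm (fun v : HeightOneSpectrum (𝓞 M) =>
      max 0 (ord v (x - algebraMap k M e) : ℝ)) := ⟨_, rfl⟩
  rw [← hZ] at q2 q3
  have q4 := mul_le_mul_of_nonneg_left q2 hm0
  have q5 := mul_le_mul_of_nonneg_left q3 hm0
  have e9 : m * (DD M + sm (bw b g) +
      Module.finrank ℚ M * (1 * Real.log N + (1 + 2) * Real.log 2)) =
      m * DD M + m * sm (bw b g) +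
      Module.finrank ℚ M * m * (Real.log N + 3 * Real.log 2) := by ring
  rw [e9] at q1
  have e10 : (Module.finrank ℚ M : ℝ) * m * (Real.log N + 3 * Real.log 2 +
    1 / 2 * ∑ e ∈ r, Ce e) = Module.finrank ℚ M * m * (Real.log N + 3 * Real.log 2) +
    1 / 2 * (m * (Module.finrank ℚ M * ∑ e ∈ r, Ce e)) := by ring
  rw [e10]
  have e11 : (κ + (r.card : ℝ) / 2) * (m * logHeight₁ x) =
    m * (κ * logHeight₁ x) + 1 / 2 * (m * (r.card * logHeight₁ x)) := by ring
  rw [e11]
  linarith

/-- **hyperelliptic curves with the points at infinity** -/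
theorem go_infty {c e1 e2 e3 : k} (hc : c ≠ 0) {r s : Finset k}
    (hs : ∀ (M : Type) [Field M] [Algebra k M] (X : M),
      ∏ e ∈ s, (X - algebraMap k M e) = (X - algebraMap k M e1) * ((X - algebraMap k M e2) *
        ((X - algebraMap k M e3) * ∏ e ∈ r, (X - algebraMap k M e)))) (κ : ℝ) :
    Go k (El po e1 e2 e3) κ (Cv po c s) (κ + (r.card : ℝ) / 2) := by
  classical
  obtain ⟨N, hN, HN⟩ := exists_bad ({c} ∪ r)
  refine go_adj hc r r hN ?_ ?_ ?_
  · intro M _ _ _ x
    exact ⟨supp_p' Pw_po.zero x, supp_p' Pw_po.zero x, fun v => po_nonneg _, fun v => po_nonneg _,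
      fun v => po_le _⟩
  · intro M E _ _ _ _ _ _ _ _ b x z hpt hz
    obtain ⟨w, hw⟩ := hpt
    refine ⟨z * algebraMap M E w, ?_⟩
    have e1 : ∀ u : k, algebraMap k E u = algebraMap M E (algebraMap k M u) := fun u =>
      IsScalarTower.algebraMap_apply k M E u
    rw [mul_pow, hz, ← map_pow, ← hw, ← map_mul, e1 c]
    have e2 : ∏ e ∈ s, (algebraMap M E x - algebraMap k E e) =
        algebraMap M E (∏ e ∈ s, (x - algebraMap k M e)) := by
      rw [map_prod]
      refine Finset.prod_congr rfl fun e _ => ?_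
      rw [map_sub, e1]
    rw [e2, ← map_mul, hs M x]
    congr 1
    ring
  · intro M E _ _ _ _ _ _ _ _ x v w e he hvw hne hvN
    have ew : -ord w (algebraMap M E x) = (e : ℤ) * (-ord v x) := by
      rw [hvw]
      ring
    have he1 : (1 : ℝ) ≤ e := by exact_mod_cast Nat.one_le_iff_ne_zero.2 he
    have h0 := po_nonneg (-ord v x)
    refine ⟨?_, fun ho he2 => ?_⟩
    · show po (-ord w (algebraMap M E x)) ≤ e * po (-ord v x)
      rw [ew]
      have h3 := po_mul_le he (-ord v x)
      nlinarith
    · show 1 + po (-ord w (algebraMap M E x)) ≤ 2 * (po (-ord v x) +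
        1 / 2 * ∑ a ∈ r, max 0 (ord v (x - algebraMap k M a) : ℝ))
      have hbad := HN M v hvN
      have hgc : ord v (algebraMap k M c) = 0 := hbad c (by simp)
      have hge : ∀ e ∈ r, ord v (algebraMap k M e) = 0 := fun e he =>
        hbad e (by simp [he])
      have hc0 : algebraMap k M c ≠ 0 := (map_ne_zero _).2 hc
      rw [ord_mul v hc0 (Finset.prod_ne_zero_iff.2 hne), hgc, zero_add, ord_prod v r x hne] at ho
      have hpos2 : 0 ≤ ∑ a ∈ r, max 0 (ord v (x - algebraMap k M a) : ℝ) :=
        Finset.sum_nonneg fun e _ => le_max_left _ _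
      rcases lt_or_ge (ord v x) 0 with hneg | hge0
      · rw [po_pos (n := -ord v x) (by omega)]
        have := po_le (-ord w (algebraMap M E x))
        linarith
      · rw [ew, po_nonpos (n := (e : ℤ) * (-ord v x)) (by
          have : (0 : ℤ) ≤ e := Int.natCast_nonneg e
          nlinarith)]
        have hnn : ∀ a ∈ r, 0 ≤ ord v (x - algebraMap k M a) := fun a ha =>
          sub_nonneg' v hge0 (hge a ha).ge
        have h4 : (1 : ℤ) ≤ ∑ a ∈ r, ord v (x - algebraMap k M a) := by
          have h5 : 0 ≤ ∑ a ∈ r, ord v (x - algebraMap k M a) :=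
            Finset.sum_nonneg fun a ha => hnn a ha
          rcases eq_or_lt_of_le h5 with h6 | h6
          · rw [← h6] at ho
            exact absurd ho (by decide)
          · exact h6
        have h5 : (1 : ℝ) ≤ ∑ a ∈ r, max 0 (ord v (x - algebraMap k M a) : ℝ) := by
          have h6 : ((∑ a ∈ r, ord v (x - algebraMap k M a) : ℤ) : ℝ) ≤
              ∑ a ∈ r, max 0 (ord v (x - algebraMap k M a) : ℝ) := by
            push_cast
            exact Finset.sum_le_sum fun e _ => le_max_right _ _
          have h7 : (1 : ℝ) ≤ ((∑ a ∈ r, ord v (x - algebraMap k M a) : ℤ) : ℝ) := by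
            exact_mod_cast h4
          linarith
        linarith

theorem Pw_zero_aux (n : ℤ) : (fun _ : ℤ => (0 : ℝ)) n = 0 := rfl

/-- **hyperelliptic curves** -/
theorem go_zero {c e1 e2 e3 mu : k} (hc : c ≠ 0) {r : Finset k} (hr : Odd r.card) (hmu : mu ∉ r)
    {s : Finset k} (hs : ∀ (M : Type) [Field M] [Algebra k M] (X : M),
      ∏ e ∈ s, (X - algebraMap k M e) = (X - algebraMap k M e1) * ((X - algebraMap k M e2) *
        ((X - algebraMap k M e3) * ((X - algebraMap k M mu) *
          ∏ e ∈ r, (X - algebraMap k M e))))) (κ : ℝ) :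
    Go k (Mu e1 e2 e3 mu) κ (Cv (fun _ => 0) c s) (κ + (r.card : ℝ) / 2) := by
  classical
  obtain ⟨N, hN, HN⟩ := exists_bad ({c, mu} ∪ r ∪ r.image (fun e => mu - e))
  refine go_adj hc (insert mu r) r hN ?_ ?_ ?_
  · intro M _ _ _ x
    exact ⟨supp_om 2 _, supp_zero, fun v => om_nonneg two_ne_zero _, fun v => le_rfl,
      fun v => zero_le_one⟩
  · intro M E _ _ _ _ _ _ _ _ b x z hpt hz
    obtain ⟨w, hw⟩ := hpt
    refine ⟨z * algebraMap M E w, ?_⟩
    have e1 : ∀ u : k, algebraMap k E u = algebraMap M E (algebraMap k M u) := fun u =>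
      IsScalarTower.algebraMap_apply k M E u
    rw [mul_pow, hz, ← map_pow, ← hw, ← map_mul, e1 c]
    have e2 : ∏ e ∈ s, (algebraMap M E x - algebraMap k E e) =
        algebraMap M E (∏ e ∈ s, (x - algebraMap k M e)) := by
      rw [map_prod]
      refine Finset.prod_congr rfl fun e _ => ?_
      rw [map_sub, e1]
    rw [e2, ← map_mul, hs M x, Finset.prod_insert hmu]
    congr 1
    ring
  · intro M E _ _ _ _ _ _ _ _ x v w e he hvw hne hvN
    have hpos1 : 0 ≤ om 2 (ord v (x - algebraMap k M mu)) := om_nonneg two_ne_zero _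
    refine ⟨?_, fun hodd he2 => ?_⟩
    · show (0 : ℝ) ≤ e * om 2 (ord v (x - algebraMap k M mu))
      positivity
    · show 1 + 0 ≤ 2 * (om 2 (ord v (x - algebraMap k M mu)) +
        1 / 2 * ∑ a ∈ r, max 0 (ord v (x - algebraMap k M a) : ℝ))
      have hbad := HN M v hvN
      have hgc : ord v (algebraMap k M c) = 0 := hbad c (by simp)
      have hgm : ord v (algebraMap k M mu) = 0 := hbad mu (by simp)
      have hge : ∀ e ∈ r, ord v (algebraMap k M e) = 0 := fun e he =>
        hbad e (by simp [he])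
      have hgd : ∀ e ∈ r, ord v (algebraMap k M (mu - e)) = 0 := fun e he =>
        hbad (mu - e) (by
          rw [Finset.mem_union]
          exact Or.inr (Finset.mem_image_of_mem _ he))
      have hc0 : algebraMap k M c ≠ 0 := (map_ne_zero _).2 hc
      have hX1 : x - algebraMap k M mu ≠ 0 := hne mu (Finset.mem_insert_self _ _)
      have hXe : ∀ e ∈ r, x - algebraMap k M e ≠ 0 := fun e he =>
        hne e (Finset.mem_insert_of_mem he)
      rw [ord_mul v hc0 (Finset.prod_ne_zero_iff.2 hne), hgc, zero_add, Finset.prod_insert hmu,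
        ord_mul v hX1 (Finset.prod_ne_zero_iff.2 hXe), ord_prod v r x hXe] at hodd
      have hpos2 : 0 ≤ ∑ a ∈ r, max 0 (ord v (x - algebraMap k M a) : ℝ) :=
        Finset.sum_nonneg fun e _ => le_max_left _ _
      rcases lt_or_ge (ord v x) 0 with hneg | hge0
      · exfalso
        have hX0 : x ≠ 0 := by
          rintro rfl
          rw [ord_zero] at hneg
          exact lt_irrefl _ hneg
        have h3 : ∀ b : M, ord v b = 0 → ord v (x - b) = ord v x := fun b hb =>
          (ord_sub_eq v hX0 (Or.inr (by rw [hb]; exact hneg))).1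
        rw [h3 _ hgm, Finset.sum_congr rfl fun e he => h3 _ (hge e he), Finset.sum_const,
          nsmul_eq_mul] at hodd
        have h4 : Even (ord v x + (r.card : ℤ) * ord v x) := by
          have h5 : ord v x + (r.card : ℤ) * ord v x = ((1 : ℤ) + r.card) * ord v x := by ring
          rw [h5]
          refine Even.mul_right ?_ _
          have : Odd (r.card : ℤ) := by exact_mod_cast hr
          exact odd_one.add_odd this
        exact absurd hodd (Int.not_odd_iff_even.2 h4)
      · have hnn : ∀ b : M, ord v b = 0 → 0 ≤ ord v (x - b) := fun b hb =>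
          sub_nonneg' v hge0 hb.ge
        rcases lt_or_ge 0 (ord v (x - algebraMap k M mu)) with hp | hp
        · have h3 : ∀ e ∈ r, ord v (x - algebraMap k M e) = 0 := by
            intro e he
            have h4 := hgd e he
            have hne' : algebraMap k M (mu - e) ≠ 0 := by
              rw [(map_ne_zero _)]
              intro h0
              exact hmu (by rw [sub_eq_zero.1 h0]; exact he)
            have h5 := (ord_add_eq v (x := algebraMap k M (mu - e))
              (y := x - algebraMap k M mu) hne' (Or.inr (by rw [h4]; exact hp))).1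
            have e5 : algebraMap k M (mu - e) + (x - algebraMap k M mu) =
                x - algebraMap k M e := by
              rw [map_sub]
              ring
            rw [e5, h4] at h5
            exact h5
          rw [Finset.sum_congr rfl h3, Finset.sum_const_zero, add_zero] at hodd
          have h6 := om_two_odd hp hodd
          linarith
        · have h3 : ord v (x - algebraMap k M mu) = 0 := le_antisymm hp (hnn _ hgm)
          rw [h3, zero_add] at hodd
          have h4 : (1 : ℤ) ≤ ∑ e ∈ r, ord v (x - algebraMap k M e) := by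
            have h5 : 0 ≤ ∑ e ∈ r, ord v (x - algebraMap k M e) :=
              Finset.sum_nonneg fun e he => hnn _ (hge e he)
            rcases eq_or_lt_of_le h5 with h6 | h6
            · rw [← h6] at hodd
              exact absurd hodd (by decide)
            · exact h6
          have h5 : (1 : ℝ) ≤ ∑ e ∈ r, max 0 (ord v (x - algebraMap k M e) : ℝ) := by
            have h6 : ((∑ e ∈ r, ord v (x - algebraMap k M e) : ℤ) : ℝ) ≤
                ∑ e ∈ r, max 0 (ord v (x - algebraMap k M e) : ℝ) := by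
              push_cast
              exact Finset.sum_le_sum fun e _ => le_max_right _ _
            have h7 : (1 : ℝ) ≤ ((∑ e ∈ r, ord v (x - algebraMap k M e) : ℤ) : ℝ) := by
              exact_mod_cast h4
            linarith
          linarith

end Pool.Agent.H431.LF
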