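import Pool.Agent.H431.LF.Lift

/-!
# The points of the towers
-/

set_option autoImplicit false

namespace Pool.Agent.H431.LF

open NumberField IsDedekindDomain Height Pool.Agent.Q290.NF IntermediateField Pool.Agent.H431.OC
open Pool.Agent.H431.MT

theorem kap_strict {x : ℝ} (h0 : 0 < x) (h1 : x < 1) : StrictMono (kap x) := by
  refine strictMono_nat_of_lt_succ fun i => ?_
  have h := kap_pos h0 i
  have h2 := kap_lt h0 h1 i
  rw [kap_succ, lt_div_iff₀ (by linarith)]
  obtain ⟨s, hs⟩ : ∃ s, s = √(kap x i) := ⟨_, rfl⟩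
  have hs0 : 0 < s := by
    rw [hs]
    exact Real.sqrt_pos.2 h
  have hs2 : s ^ 2 = kap x i := by
    rw [hs]
    exact Real.sq_sqrt h.le
  rw [← hs]
  rw [← hs2] at h2 ⊢
  have hs1 : s < 1 := by nlinarith
  nlinarith [mul_pos hs0 hs0, mul_pos (mul_pos hs0 hs0) hs0]

/-- the weight vanishes at the good primes only -/
theorem w3_units {M : Type} [Field M] [NumberField M] {t : M} {v : HeightOneSpectrum (𝓞 M)}
    (h : w3 t v = 0) : ord v t = 0 ∧ ord v (t - 1) = 0 := by
  have h1 := po_nonneg (ord v t)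
  have h2 := po_nonneg (ord v (t - 1))
  have h3 := po_nonneg (-ord v t)
  unfold w3 at h
  have a1 : ord v t ≤ 0 := by
    by_contra hc
    rw [po_pos (not_le.1 hc)] at h
    linarith
  have a2 : ord v (t - 1) ≤ 0 := by
    by_contra hc
    rw [po_pos (not_le.1 hc)] at h
    linarith
  have a3 : -ord v t ≤ 0 := by
    by_contra hc
    rw [po_pos (n := -ord v t) (not_le.1 hc)] at h
    linarith
  have a4 : 0 ≤ ord v (t - 1) := sub_nonneg' v (by omega) (by rw [ord_one])
  exact ⟨by omega, by omega⟩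

theorem tower_points (k : Type) [Field k] [NumberField k] (J : ℕ) : ∃ c : ℝ, 0 ≤ c ∧
    ∀ m : ℕ, 1 ≤ m → ∃ (M : Type) (_ : Field M) (_ : NumberField M) (_ : Algebra k M) (b : M)
      (t : Fin J → M), b ≠ 0 ∧ Function.Injective t ∧ (∀ j, (T0 k).pt M b (t j)) ∧
      Module.finrank k M ≤ 2 ^ J ∧
      (∀ j, Module.finrank ℚ M * (2 * m * Real.log 2 - c) ≤ logHeight₁ (t j)) ∧
      DD M + sm (bw b fun _ => 0) ≤ Module.finrank ℚ M * (2 * m * Real.log 2 + c) := by
  obtain ⟨C, hC0, hC⟩ := ht_mu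
  have hl : 0 ≤ Real.log 2 := Real.log_nonneg (by norm_num)
  have hDk := DD_nonneg k
  refine ⟨(2 * J + 1) * C + DD k + (1 + 6 * J) * Real.log 2, by positivity, fun m hm => ?_⟩
  obtain ⟨φ⟩ : Nonempty (k →+* ℂ) := inferInstance
  have hr0 : (0 : ℝ) < (1 / 2) ^ m := by positivity
  have hr1 : ((1 : ℝ) / 2) ^ m < 1 := pow_lt_one₀ (by norm_num) (by norm_num) (by omega)
  obtain ⟨M, i1, i2, i3, σ, κ, hσ, hκ0, hrel, hemb, hdeg, hdisc⟩ :=
    tower k φ (((1 : k) / 2) ^ m) (((1 : ℝ) / 2) ^ m) hr0 hr1 (by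
      rw [map_pow, map_div₀, map_one, map_ofNat]
      push_cast
      rfl) J
  have kpos := kap_pos hr0
  have klt := kap_lt hr0 hr1
  have k0 : ∀ j ≤ J, κ j ≠ 0 := by
    intro j hj h
    have h1 := hemb j hj
    rw [h, map_zero] at h1
    have h2 : kap (((1 : ℝ) / 2) ^ m) j = 0 := by exact_mod_cast h1.symm
    have := kpos j
    linarith
  have k1 : ∀ j ≤ J, κ j ≠ 1 := by
    intro j hj h
    have h1 := hemb j hj
    rw [h, map_one] at h1
    have h2 : kap (((1 : ℝ) / 2) ^ m) j = 1 := by exact_mod_cast h1.symm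
    have := klt j
    linarith
  have k2 : ∀ j ≤ J, κ j ≠ -1 := by
    intro j hj h
    have h1 := hemb j hj
    rw [h, map_neg, map_one] at h1
    have h2 : kap (((1 : ℝ) / 2) ^ m) j = -1 := by exact_mod_cast h1.symm
    have := kpos j
    linarith
  have n1 : 1 - κ J ^ 2 ≠ 0 := by
    intro h
    have : (1 - κ J) * (1 + κ J) = 0 := by linear_combination h
    rcases mul_eq_zero.1 this with h | h
    · exact k1 J le_rfl (by linear_combination -h)
    · exact k2 J le_rfl (by linear_combination h)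
  have n0 : κ J ^ 2 ≠ 0 := pow_ne_zero 2 (k0 J le_rfl)
  have n1' : κ J ^ 2 - 1 ≠ 0 := fun h => n1 (by linear_combination -h)
  refine ⟨M, i1, i2, i3, κ J ^ 2 * (κ J ^ 2 - 1), fun j => κ (j + 1) ^ 2,
    mul_ne_zero n0 n1', ?_, ?_, hdeg, ?_, ?_⟩
  · intro i j hij
    have h1 : κ (i + 1) ^ 2 = κ (j + 1) ^ 2 := hij
    have h2 := congrArg σ h1
    rw [map_pow, map_pow, hemb _ (by omega), hemb _ (by omega)] at h2
    have h3 : kap (((1 : ℝ) / 2) ^ m) (i + 1) ^ 2 = kap (((1 : ℝ) / 2) ^ m) (j + 1) ^ 2 := by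
      exact_mod_cast h2
    have h4 := (pow_left_inj₀ (kpos _).le (kpos _).le two_ne_zero).1 h3
    have h5 := (kap_strict hr0 hr1).injective h4
    exact Fin.ext (by omega)
  · intro j
    have hj1 : (j : ℕ) + 1 ≤ J := j.2
    have hj0 : (j : ℕ) ≤ J := by omega
    have q2 : 1 + κ j ≠ 0 := fun h => k2 j hj0 (by linear_combination h)
    refine ⟨pow_ne_zero 2 (k0 _ hj1), fun h => ?_, ⟨κ (j + 1), (1 - κ j) / (1 + κ j), rfl, ?_⟩,
      ?_⟩
    · have : (κ (j + 1) - 1) * (κ (j + 1) + 1) = 0 := by linear_combination h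
      rcases mul_eq_zero.1 this with h | h
      · exact k1 _ hj1 (by linear_combination h)
      · exact k2 _ hj1 (by linear_combination h)
    · show ((1 - κ j) / (1 + κ j)) ^ 2 = 1 - κ (j + 1) ^ 2
      rw [hrel j (by omega)]
      field_simp
      ring
    · intro v hv2 hvb
      have h3 := w3_chain κ J hrel k0 k1 k2 v hv2 (J - j) (Nat.sub_le _ _)
      have h4 : J - (J - (j : ℕ)) = j := Nat.sub_sub_self hj0
      rw [h4, ← hrel j (by omega)] at h3
      rw [ord_mul v n0 n1'] at hvb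
      have h5 : w3 (κ J ^ 2) v = 0 := by
        have h6 : ord v (κ J ^ 2) = 0 ∧ ord v (κ J ^ 2 - 1) = 0 := by
          rcases lt_trichotomy (ord v (κ J ^ 2)) 0 with h | h | h
          · have := (ord_sub_eq v (y := 1) n0 (Or.inr (by rw [ord_one]; exact h))).1
            omega
          · exact ⟨h, by omega⟩
          · have := (ord_sub_eq v (x := 1) (y := κ J ^ 2) one_ne_zero
              (Or.inr (by rw [ord_one]; exact h))).1
            rw [ord_sub_comm, ord_one] at this
            omega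
        unfold w3
        rw [h6.1, h6.2, po_nonpos (n := 0) le_rfl, po_nonpos (n := -0) (by simp)]
        norm_num
      exact w3_units (h3.trans h5)
  · intro j
    have h1 := ht_chain' hC0 hC M κ J hrel k0 k2 j (by omega)
    rw [← hrel j (by omega)] at h1
    have d6 : logHeight₁ (κ 0) = m * (Module.finrank ℚ M * Real.log 2) := by
      rw [hκ0, map_pow, logHeight₁_pow, map_div₀, map_one, map_ofNat, one_div, logHeight₁_inv,
        height_two]
    rw [d6] at h1
    have hd : (0 : ℝ) ≤ Module.finrank ℚ M := Nat.cast_nonneg _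
    have h2 : 0 ≤ (Module.finrank ℚ M : ℝ) * (DD k + (1 + 6 * J) * Real.log 2) := by positivity
    show _ ≤ logHeight₁ (κ (j + 1) ^ 2)
    nlinarith
  · have h1 : sm (bw (κ J ^ 2 * (κ J ^ 2 - 1)) fun _ => 0) ≤ sm (w3 (κ J ^ 2)) := by
      refine sm_mono (supp_bw (mul_ne_zero n0 n1') supp_zero) (supp_w3 _) fun v => ?_
      by_cases h : ord v (κ J ^ 2 * (κ J ^ 2 - 1)) = 0
      · rw [bw_eq h]
        exact w3_nonneg _ v
      · rw [bw_one h]
        refine w3_ge fun h5 => h ?_
        obtain ⟨h6, h7⟩ := w3_units h5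
        rw [ord_mul v n0 n1', h6, h7]
        rfl
    have d4 := sm_bottom k m hm
    have hk1 : (1 : ℝ) ≤ Module.finrank ℚ k := by
      exact_mod_cast Module.finrank_pos (R := ℚ) (M := k)
    have hQM : (Module.finrank ℚ M : ℝ) = Module.finrank ℚ k * Module.finrank k M := by
      exact_mod_cast (Module.finrank_mul_finrank ℚ k M).symm
    have hp0 : (0 : ℝ) ≤ Module.finrank k M := Nat.cast_nonneg _
    rw [hQM]
    have h3 := mul_le_mul_of_nonneg_left d4 hp0
    have h4 : (Module.finrank k M : ℝ) * DD k ≤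
        Module.finrank ℚ k * Module.finrank k M * DD k := by
      have : 0 ≤ (Module.finrank k M : ℝ) * DD k := mul_nonneg hp0 hDk
      nlinarith
    have h5 : 0 ≤ (Module.finrank ℚ k : ℝ) * Module.finrank k M * ((2 * J + 1) * C) := by
      positivity
    nlinarith

end Pool.Agent.H431.LF
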